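import Pool.Agent.Helper644_LA.Tight

/-! # Translations for the results files -/

set_option autoImplicit false
set_option linter.unusedSectionVars false

namespace Pool.Agent.Helper644_LA

open NumberField Filter Topology Finset IntermediateField
open Pool.Agent.W401.Cheb
open Pool.Agent.W171.LG
open Pool.Agent.H386R2.Artin (PP LC_pos)
open Pool.Agent.H981R3.LN (ql Qn)

/-- the number of primes `q ≤ x` with `A q` -/
lemma M_ind (A : ℕ → Prop) (x : ℕ) : M (ind A) x =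
    (Nat.card {q : ℕ // q ≤ x ∧ q.Prime ∧ A q} : ℝ) / (Nat.primeCounting x : ℝ) := by
  classical
  unfold M
  congr 1
  have h1 : Nat.card {q : ℕ // q ≤ x ∧ q.Prime ∧ A q} =
      #((pr x).filter (fun q => A q)) := by
    rw [Nat.subtype_card]
    intro q
    rw [mem_filter, mem_pr, and_assoc]
  rw [h1, Finset.card_eq_sum_ones, Nat.cast_sum, Finset.sum_filter]
  refine Finset.sum_congr rfl fun p _ => ?_
  by_cases h : A p
  · rw [ind_pos h, if_pos h, Nat.cast_one]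
  · rw [ind_neg h, if_neg h]

lemma mS_ind (F : IntermediateField ℚ QA) [NumberField F] [IsGalois ℚ F] (C : Set Gal(F/ℚ))
    (W : Subgroup ℚˣ) (k x : ℕ) : mS F C W k x = M (ind fun q => LC F C k W q) x := rfl

/-- the conditions over `ℚ` -/
def L0 (W : Subgroup ℚˣ) (k q : ℕ) : Prop := (∀ w ∈ W, padicValRat q (w : ℚ) = 0) ∧ idx W q ∣ k

lemma L0_close (W : Subgroup ℚˣ) (k : ℕ) :
    Tendsto (fun x => M (ind fun q => L0 W k q) x - mS Q0 Set.univ W k x) atTop (𝓝 0) := by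
  obtain ⟨D, hD, hGF⟩ := GF_triv
  simp_rw [mS_ind]
  refine M_congr_tendsto hD fun p hp hpD => ?_
  by_cases h : L0 W k p
  · rw [ind_pos (A := fun q => L0 W k q) h,
      ind_pos (A := fun q => LC Q0 Set.univ k W q) ⟨hGF p hp hpD, h.1, h.2⟩]
  · rw [ind_neg (A := fun q => L0 W k q) h,
      ind_neg (A := fun q => LC Q0 Set.univ k W q) fun h' => h ⟨h'.2.1, h'.2.2⟩]

lemma dL_univ (W : Subgroup ℚˣ) (k : ℕ) : dL Q0 Set.univ W k =
    ∑' n : ℕ, ((ArithmeticFunction.moebius n : ℤ) : ℝ) /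
      (Module.finrank ℚ (Lf QA W (Qn k n) : IntermediateField ℚ QA) : ℝ) := by
  unfold dL
  congr 1
  funext n
  unfold tW
  rw [cE_triv, Nat.cast_one, mul_one, bot_sup_eq]

section
variable {F F' : IntermediateField ℚ QA} [NumberField F] [IsGalois ℚ F] [NumberField F']
  [IsGalois ℚ F'] {C : Set Gal(F/ℚ)} {C' : Set Gal(F'/ℚ)} {W W' : Subgroup ℚˣ} {k k' : ℕ}

/-- comparison of the errors -/
theorem abs_mono (hC : ∀ σ ∈ C, ∀ τ : Gal(F/ℚ), τ * σ * τ⁻¹ ∈ C)
    (hC' : ∀ σ ∈ C', ∀ τ : Gal(F'/ℚ), τ * σ * τ⁻¹ ∈ C') (hW : W.FG) (hP : Pos W)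
    (hk : k ≠ 0) (hkk : k' ∣ k)
    (hF : ∀ᶠ p in atTop, p.Prime → GF F C p → GF F' C' p) {ε : ℝ} (hε : 0 < ε) :
    ∀ᶠ x in atTop, |mS F C W k' x - dL F C W k'| ≤ |mS F' C' W k x - dL F' C' W k| + ε := by
  have hk' : k' ≠ 0 := by
    rintro rfl
    exact hk (Nat.eq_zero_of_zero_dvd hkk)
  obtain ⟨N, hN⟩ := eventually_atTop.1 hF
  have hmono := mono_err hC hC' hW hP hk hkk (D := N.factorial) (Nat.factorial_pos N)
    (fun p hp hpD => hN p (by
      by_contra h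
      exact hpD (Nat.dvd_factorial hp.pos (by omega))) hp) hε
  filter_upwards [hmono, up hC hW hP hk' hε] with x h1 h2
  rw [abs_le]
  have h3 := neg_abs_le (mS F' C' W k x - dL F' C' W k)
  have h4 := abs_nonneg (mS F' C' W k x - dL F' C' W k)
  constructor <;> linarith

/-- comparison with the errors over `ℚ` -/
theorem abs_mono0 (hC : ∀ σ ∈ C, ∀ τ : Gal(F/ℚ), τ * σ * τ⁻¹ ∈ C) (hW : W.FG) (hP : Pos W)
    (hk : k ≠ 0) (hkk : k' ∣ k) {ε : ℝ} (hε : 0 < ε) :
    ∀ᶠ x in atTop, |mS F C W k' x - dL F C W k'| ≤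
      |M (ind fun q => L0 W k q) x - dL Q0 Set.univ W k| + ε := by
  obtain ⟨D, hD, hGF⟩ := GF_triv
  have h1 := abs_mono (F := F) (F' := Q0) hC univ_conj hW hP hk hkk (eventually_atTop.2
    ⟨D + 1, fun p hp hpp _ => hGF p hpp fun h => by
      have := Nat.le_of_dvd hD h
      omega⟩) (show 0 < ε / 2 by linarith)
  have h2 := (Metric.tendsto_nhds.1 (L0_close W k)) (ε / 2) (by linarith)
  filter_upwards [h1, h2] with x hx1 hx2
  rw [Real.dist_eq, sub_zero] at hx2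
  have h3 : |mS Q0 Set.univ W k x - dL Q0 Set.univ W k| ≤
      |M (ind fun q => L0 W k q) x - dL Q0 Set.univ W k| +
      |M (ind fun q => L0 W k q) x - mS Q0 Set.univ W k x| := by
    have e : mS Q0 Set.univ W k x - dL Q0 Set.univ W k =
      (M (ind fun q => L0 W k q) x - dL Q0 Set.univ W k) -
      (M (ind fun q => L0 W k q) x - mS Q0 Set.univ W k x) := by ring
    rw [e]
    exact abs_sub _ _
  linarith

/-- the error and the proportion of primes with large index -/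
theorem abs_tail (hC : ∀ σ ∈ C, ∀ τ : Gal(F/ℚ), τ * σ * τ⁻¹ ∈ C) (hW : W.FG) (hP : Pos W)
    (hW' : W'.FG) {m : ℕ} (hm : m ≠ 0) (hWW : ∀ w ∈ W, w ^ m ∈ W') (hk : k ≠ 0) (hk' : k' ≠ 0)
    {ε : ℝ} (hε : 0 < ε) :
    ∀ᶠ x in atTop, |mS F C W' k' x - dL F C W' k'| ≤ 1 - M (ind fun q => L0 W k q) x + ε := by
  have hP' := pos_pow hP hm hWW
  have h1 := tail_err hC hW hW' hP' hm hWW hk hk' (show 0 < ε / 2 by linarith)
  have h2 := (Metric.tendsto_nhds.1 (L0_close W k)) (ε / 2) (by linarith)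
  have h3 := up hC hW' hP' hk' hε
  filter_upwards [h1, h2, h3, eventually_ge_atTop 2] with x hx1 hx2 hx3 hx4
  rw [Real.dist_eq, sub_zero, abs_lt] at hx2
  have h5 : M (ind fun q => L0 W k q) x ≤ 1 := by
    rw [M_ind]
    refine div_le_one_of_le₀ ?_ (Nat.cast_nonneg _)
    have h6 : Nat.card {q : ℕ // q ≤ x ∧ q.Prime ∧ L0 W k q} ≤ Nat.card {q : ℕ // q ∈ pr x} := by
      refine Nat.card_le_card_of_injective (fun q => ⟨q.1, mem_pr.2 ⟨q.2.1, q.2.2.1⟩⟩) ?_
      intro a b hab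
      apply Subtype.ext
      simpa using hab
    have h7 : Nat.card {q : ℕ // q ∈ pr x} = Nat.primeCounting x := by
      rw [Nat.card_eq_fintype_card, Fintype.card_coe]
      unfold pr Nat.primeCounting Nat.primeCounting'
      rw [Nat.count_eq_card_filter_range]
    rw [h7] at h6
    exact_mod_cast h6
  rw [abs_le]
  constructor <;> linarith [hx2.1, hx2.2]

/-- laws over `ℚ` -/
def Law0 (W : Subgroup ℚˣ) (k : ℕ) : Prop :=
  Tendsto (M (ind fun q => L0 W k q)) atTop (𝓝 (dL Q0 Set.univ W k))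

lemma law0_iff : Law0 W k ↔ Law Q0 Set.univ W k := by
  unfold Law0 Law
  constructor
  · intro h
    have := h.sub (L0_close W k)
    rw [sub_zero] at this
    exact this.congr fun x => by ring
  · intro h
    have := h.add (L0_close W k)
    rw [add_zero] at this
    exact this.congr fun x => by ring

end

lemma pos_of_inf {W : Subgroup ℚˣ} (h : ∃ w ∈ W, ¬ IsOfFinOrder w) : Pos W := by
  obtain ⟨w, hw, h1⟩ := h
  refine ⟨w, hw, fun h2 => h1 ?_⟩
  rw [isOfFinOrder_iff_pow_eq_one]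
  refine ⟨2, by norm_num, ?_⟩
  apply Units.ext
  rw [Units.val_pow_eq_pow_val, Units.val_one, ← sq_abs, h2, one_pow]

lemma inf_of_abs {a : ℚˣ} (h : |((a : ℚˣ) : ℚ)| ≠ 1) : ¬ IsOfFinOrder a := by
  intro h1
  obtain ⟨n, hn, h2⟩ := isOfFinOrder_iff_pow_eq_one.1 h1
  apply h
  have h3 : |((a : ℚˣ) : ℚ)| ^ n = 1 := by
    rw [← abs_pow, ← Units.val_pow_eq_pow_val, h2]
    simp
  exact (pow_eq_one_iff_of_nonneg (abs_nonneg _) hn.ne').1 h3

lemma zpow_fg (a : ℚˣ) : (Subgroup.zpowers a).FG := ⟨{a}, by simp [Subgroup.zpowers_eq_closure]⟩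

end Pool.Agent.Helper644_LA
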