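import Pool.Agent.Helper644_LA.Indep
import Pool.Agent.Helper644_LA.Final

/-! # The inequality of Bessel for the errors -/

set_option autoImplicit false
set_option linter.unusedSectionVars false

namespace Pool.Agent.Helper644_LA

open NumberField Filter Topology Finset IntermediateField
open Pool.Agent.W401.Cheb
open Pool.Agent.W171.LG
open Pool.Agent.H386R2.Artin (PP LC_pos)
open Pool.Agent.H981R3.LN (ql Sk mem_Sk mem_PP)

lemma M_sub (a b : ℕ → ℝ) (N : ℕ) : M (fun p => a p - b p) N = M a N - M b N := by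
  unfold M
  rw [Finset.sum_sub_distrib, sub_div]

/-- the expansion of a square -/
theorem M_sq {ι : Type} [Fintype ι] (g : ι → ℕ → ℝ) (h : ℕ → ℝ) (t : ι → ℝ) (N : ℕ) :
    0 ≤ M (fun v => h v * h v) N - 2 * ∑ i, t i * M (fun v => g i v * h v) N +
      ∑ i, ∑ j, t i * t j * M (fun v => g i v * g j v) N := by
  have h1 : 0 ≤ M (fun v => (h v - ∑ i, t i * g i v) ^ 2) N := M_nonneg (fun v _ => sq_nonneg _) N
  have h2 : (fun v => (h v - ∑ i, t i * g i v) ^ 2) = fun v => (h v * h v -
      2 * ∑ i, t i * (g i v * h v)) + ∑ i, ∑ j, t i * t j * (g i v * g j v) := by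
    funext v
    have h3 : ∑ i, t i * (g i v * h v) = (∑ i, t i * g i v) * h v := by
      rw [Finset.sum_mul]
      exact Finset.sum_congr rfl fun i _ => by ring
    have h4 : ∑ i, ∑ j, t i * t j * (g i v * g j v) = (∑ i, t i * g i v) * ∑ j, t j * g j v := by
      rw [Finset.sum_mul_sum]
      exact Finset.sum_congr rfl fun i _ => Finset.sum_congr rfl fun j _ => by ring
    rw [h3, h4]
    ring
  rw [h2, M_add, M_sub, M_smul, M_sum, M_sum] at h1
  have h5 : ∑ i, M (fun v => t i * (g i v * h v)) N = ∑ i, t i * M (fun v => g i v * h v) N :=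
    Finset.sum_congr rfl fun i _ => M_smul _ _ _
  have h6 : ∑ i, M (fun v => ∑ j, t i * t j * (g i v * g j v)) N =
      ∑ i, ∑ j, t i * t j * M (fun v => g i v * g j v) N := by
    refine Finset.sum_congr rfl fun i _ => ?_
    rw [M_sum]
    exact Finset.sum_congr rfl fun j _ => M_smul _ _ _
  rw [h5, h6] at h1
  exact h1

/-- **The inequality of Bessel** for almost orthogonal families. -/
theorem bessel {ι : Type} [Fintype ι] (g : ι → ℕ → ℝ) (h : ℕ → ℝ) (ρ : ι → ℝ) (B : ℝ)
    (hB : ∀ i, ∀ᶠ N in atTop, |M (fun v => g i v * h v) N| ≤ B)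
    (hg : ∀ i, Tendsto (M fun v => g i v * g i v) atTop (𝓝 (ρ i)))
    (hgg : ∀ i j, i ≠ j → Tendsto (M fun v => g i v * g j v) atTop (𝓝 0)) (η : ℝ) (hη : 0 < η) :
    ∀ᶠ N in atTop, ∑ i, (ρ i)⁻¹ * M (fun v => g i v * h v) N ^ 2 ≤
      M (fun v => h v * h v) N + η := by
  classical
  set d : ι → ℕ → ℝ := fun i N => M (fun v => g i v * h v) N with hd
  set s : ι → ι → ℕ → ℝ := fun i j N => M (fun v => g i v * g j v) N - (if i = j then ρ i else 0)
    with hs
  have hs0 : ∀ i j, Tendsto (s i j) atTop (𝓝 0) := by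
    intro i j
    by_cases hij : i = j
    · subst hij
      have h1 := (hg i).sub_const (ρ i)
      rw [sub_self] at h1
      simpa [hs] using h1
    · have h1 := hgg i j hij
      simpa [hs, hij] using h1
  set E : ℕ → ℝ := fun N => ∑ i, ∑ j, |(ρ i)⁻¹| * B * (|(ρ j)⁻¹| * B) * |s i j N| with hE
  have hE0 : Tendsto E atTop (𝓝 0) := by
    have h2 : Tendsto (fun N => ∑ i, ∑ j, |(ρ i)⁻¹| * B * (|(ρ j)⁻¹| * B) * |s i j N|) atTop
        (𝓝 (∑ i : ι, ∑ j : ι, 0)) := by
      refine tendsto_finsetSum _ fun i _ => tendsto_finsetSum _ fun j _ => ?_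
      have := (hs0 i j).abs.const_mul (|(ρ i)⁻¹| * B * (|(ρ j)⁻¹| * B))
      rw [abs_zero, mul_zero] at this
      exact this
    simp only [Finset.sum_const_zero] at h2
    exact h2
  have hB' : ∀ᶠ N in atTop, ∀ i, |d i N| ≤ B := eventually_all.2 hB
  filter_upwards [hB', hE0.eventually_lt_const hη] with N h1 h2
  have h4 := M_sq g h (fun i => (ρ i)⁻¹ * d i N) N
  have h5 : ∀ i, |(ρ i)⁻¹ * d i N| ≤ |(ρ i)⁻¹| * B := fun i => by
    rw [abs_mul]
    exact mul_le_mul_of_nonneg_left (h1 i) (abs_nonneg _)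
  have h6 : ∑ i, ((ρ i)⁻¹ * d i N) * M (fun v => g i v * h v) N = ∑ i, (ρ i)⁻¹ * d i N ^ 2 := by
    refine Finset.sum_congr rfl fun i _ => ?_
    simp only [hd]
    ring
  have h7 : ∑ i, ∑ j, ((ρ i)⁻¹ * d i N) * ((ρ j)⁻¹ * d j N) * M (fun v => g i v * g j v) N =
      ∑ i, (ρ i)⁻¹ * d i N ^ 2 +
        ∑ i, ∑ j, ((ρ i)⁻¹ * d i N) * ((ρ j)⁻¹ * d j N) * s i j N := by
    have h8 : ∀ i j, ((ρ i)⁻¹ * d i N) * ((ρ j)⁻¹ * d j N) * M (fun v => g i v * g j v) N =
        (if i = j then ((ρ i)⁻¹ * d i N) * ((ρ j)⁻¹ * d j N) * ρ i else 0) +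
          ((ρ i)⁻¹ * d i N) * ((ρ j)⁻¹ * d j N) * s i j N := by
      intro i j
      simp only [hs]
      split_ifs <;> ring
    simp only [h8, Finset.sum_add_distrib]
    congr 1
    refine Finset.sum_congr rfl fun i _ => ?_
    rw [Finset.sum_ite_eq Finset.univ i]
    simp only [Finset.mem_univ, if_true]
    by_cases h0 : ρ i = 0
    · rw [h0]; simp
    · field_simp
  rw [h6, h7] at h4
  have h10 : ∑ i, ∑ j, ((ρ i)⁻¹ * d i N) * ((ρ j)⁻¹ * d j N) * s i j N ≤
      ∑ i, ∑ j, |(ρ i)⁻¹| * B * (|(ρ j)⁻¹| * B) * |s i j N| :=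
    Finset.sum_le_sum fun i _ => Finset.sum_le_sum fun j _ => (le_abs_self _).trans (by
      rw [abs_mul, abs_mul]
      exact mul_le_mul_of_nonneg_right (mul_le_mul (h5 i) (h5 j) (abs_nonneg _)
        ((abs_nonneg _).trans (h5 i))) (abs_nonneg _))
  have h11 : E N = ∑ i, ∑ j, |(ρ i)⁻¹| * B * (|(ρ j)⁻¹| * B) * |s i j N| := rfl
  have h12 : ∑ i, (ρ i)⁻¹ * M (fun v => g i v * h v) N ^ 2 = ∑ i, (ρ i)⁻¹ * d i N ^ 2 := rfl
  rw [h12]
  linarith

lemma M_bdd {a : ℕ → ℝ} {c : ℝ} (hc : 0 ≤ c) (h : ∀ p, |a p| ≤ c) :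
    ∀ᶠ N in atTop, |M a N| ≤ c + 1 := by
  have h1 := (M_one.const_mul c).eventually (gt_mem_nhds (show c * 1 < c + 1 by linarith))
  filter_upwards [h1] with N hN
  have h2 : M a N ≤ M (fun _ => c * 1) N := M_mono (fun p _ => by
    have := (abs_le.1 (h p)).2
    linarith) N
  have h3 : M (fun _ => (-c) * 1) N ≤ M a N := M_mono (fun p _ => by
    have := (abs_le.1 (h p)).1
    linarith) N
  rw [M_smul] at h2 h3
  rw [abs_le]
  constructor <;> linarith

section
variable (W : Subgroup ℚˣ) (k : ℕ)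

/-- the signed error -/
noncomputable def er (F : IntermediateField ℚ QA) [NumberField F] [IsGalois ℚ F]
    (C : Set Gal(F/ℚ)) (x : ℕ) : ℝ := dL F C W k - mS F C W k x

variable {W k}
variable {ι : Type} [Fintype ι] {F : ι → IntermediateField ℚ QA} [∀ i, NumberField (F i)]
  [∀ i, IsGalois ℚ (F i)] {C : ∀ i, Set Gal(F i/ℚ)}

/-- Bessel's inequality before the passage to the limit -/
lemma bessel_h (hC : ∀ i, ∀ σ ∈ C i, ∀ τ : Gal(F i/ℚ), τ * σ * τ⁻¹ ∈ C i)
    (hF : ∀ i j, i ≠ j → F i ⊓ F j = ⊥) (H : ℕ → Prop) (η : ℝ) (hη : 0 < η) :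
    ∀ᶠ x in atTop, M (ind H) x ^ 2 +
      ∑ i, (dens1 (F i) (C i) * (1 - dens1 (F i) (C i)))⁻¹ *
        (M (ind fun p => GF (F i) (C i) p ∧ H p) x - dens1 (F i) (C i) * M (ind H) x) ^ 2 ≤
      M (ind H) x + η := by
  classical
  set c : ι → ℝ := fun i => dens1 (F i) (C i) with hc
  let g : Option ι → ℕ → ℝ := fun o p => match o with
    | none => 1
    | some i => ind (fun p => GF (F i) (C i) p) p - c i
  let ρ : Option ι → ℝ := fun o => match o with
    | none => 1
    | some i => c i * (1 - c i)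
  have e1 : ∀ i p, g (some i) p = ind (fun p => GF (F i) (C i) p) p - c i := fun i p => rfl
  have e2 : ∀ A : ℕ → Prop, ∀ p, ind A p * ind A p = ind A p := by
    intro A p
    by_cases h : A p
    · rw [ind_pos h]; norm_num
    · rw [ind_neg h]; norm_num
  have e3 : ∀ (A B : ℕ → Prop) (p : ℕ), ind A p * ind B p = ind (fun p => A p ∧ B p) p := by
    intro A B p
    by_cases h : A p <;> by_cases h' : B p
    · rw [ind_pos h, ind_pos h', ind_pos (A := fun p => A p ∧ B p) ⟨h, h'⟩]; norm_num
    · rw [ind_pos h, ind_neg h', ind_neg (A := fun p => A p ∧ B p) (fun h2 => h' h2.2)]; norm_num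
    · rw [ind_neg h, ind_pos h', ind_neg (A := fun p => A p ∧ B p) (fun h2 => h h2.1)]; norm_num
    · rw [ind_neg h, ind_neg h', ind_neg (A := fun p => A p ∧ B p) (fun h2 => h h2.1)]; norm_num
  have hone : ∀ i, Tendsto (M (ind fun p => GF (F i) (C i) p)) atTop (𝓝 (c i)) :=
    fun i => single (hC i)
  have hM1 : ∀ (a : ℝ), Tendsto (M fun _ => a) atTop (𝓝 a) := by
    intro a
    have h1 := M_one.const_mul a
    rw [mul_one] at h1
    refine h1.congr fun x => ?_
    rw [← M_smul]
    simp
  have hbd : ∀ (o : Option ι) (p : ℕ), |g o p * ind H p| ≤ 1 + ∑ i, |c i| := by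
    intro o p
    have h0 : (0 : ℝ) ≤ ∑ i, |c i| := Finset.sum_nonneg fun i _ => abs_nonneg _
    have h1 : |ind H p| ≤ 1 := by
      by_cases h : H p
      · rw [ind_pos h]; norm_num
      · rw [ind_neg h]; norm_num
    have h2 : |g o p| ≤ 1 + ∑ i, |c i| := by
      match o with
      | none =>
        have : g none p = 1 := rfl
        rw [this, abs_one]
        linarith
      | some i =>
        rw [e1]
        have h3 : |ind (fun p => GF (F i) (C i) p) p| ≤ 1 := by
          by_cases h : GF (F i) (C i) p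
          · rw [ind_pos (A := fun p => GF (F i) (C i) p) h]; norm_num
          · rw [ind_neg (A := fun p => GF (F i) (C i) p) h]; norm_num
        have h4 : |c i| ≤ ∑ i, |c i| :=
          Finset.single_le_sum (fun i _ => abs_nonneg (c i)) (Finset.mem_univ i)
        have h5 := abs_sub (ind (fun p => GF (F i) (C i) p) p) (c i)
        linarith
    rw [abs_mul]
    calc |g o p| * |ind H p| ≤ (1 + ∑ i, |c i|) * 1 :=
          mul_le_mul h2 h1 (abs_nonneg _) (by linarith)
      _ = _ := mul_one _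
  have hbes := bessel g (ind H) ρ (1 + ∑ i, |c i| + 1)
    (fun o => M_bdd (by
      have h0 : (0 : ℝ) ≤ ∑ i, |c i| := Finset.sum_nonneg fun i _ => abs_nonneg _
      linarith) (hbd o)) ?_ ?_ η hη
  · filter_upwards [hbes] with x hx
    rw [Fintype.sum_option] at hx
    have f1 : M (fun v => g none v * ind H v) x = M (ind H) x := by
      congr 1
      funext v
      exact one_mul _
    have f2 : ρ none = 1 := rfl
    have f3 : M (fun v => ind H v * ind H v) x = M (ind H) x := by
      congr 1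
      funext v
      exact e2 H v
    have f4 : ∀ i, M (fun v => g (some i) v * ind H v) x =
        M (ind fun p => GF (F i) (C i) p ∧ H p) x - c i * M (ind H) x := by
      intro i
      rw [← M_smul, ← M_sub]
      congr 1
      funext v
      rw [e1, sub_mul, e3]
    rw [f1, f2, f3, inv_one, one_mul] at hx
    simp only [f4] at hx
    exact hx
  · intro o
    match o with
    | none =>
      refine (hM1 1).congr fun x => ?_
      congr 1
      funext v
      exact (one_mul _).symm
    | some i =>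
      have h1 := ((hone i).const_mul (1 - 2 * c i)).add (hM1 (c i * c i))
      have h2 : (1 - 2 * c i) * c i + c i * c i = c i * (1 - c i) := by ring
      rw [h2] at h1
      refine h1.congr fun x => ?_
      rw [← M_smul, ← M_add]
      congr 1
      funext v
      rw [e1]
      have := e2 (fun p => GF (F i) (C i) p) v
      linear_combination -this
  · intro o o' hoo
    match o, o', hoo with
    | none, none, h => exact absurd rfl h
    | none, some j, _ =>
      have h1 := (hone j).sub (hM1 (c j))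
      rw [sub_self] at h1
      refine h1.congr fun x => ?_
      rw [← M_sub]
      congr 1
      funext v
      rw [e1]
      exact (one_mul _).symm
    | some i, none, _ =>
      have h1 := (hone i).sub (hM1 (c i))
      rw [sub_self] at h1
      refine h1.congr fun x => ?_
      rw [← M_sub]
      congr 1
      funext v
      rw [e1]
      exact (mul_one _).symm
    | some i, some j, h =>
      have hij : i ≠ j := fun h' => h (by rw [h'])
      have h1 := ((joint (hC i) (hC j) (hF i j hij)).sub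
        (((hone i).const_mul (c j)).add ((hone j).const_mul (c i)))).add (hM1 (c i * c j))
      have h2 : dens1 (F i) (C i) * dens1 (F j) (C j) - (c j * c i + c i * c j) + c i * c j = 0 := by
        simp only [hc]
        ring
      rw [h2] at h1
      refine h1.congr fun x => ?_
      rw [← M_smul, ← M_smul, ← M_add, ← M_sub, ← M_add]
      congr 1
      funext v
      rw [e1, e1, ← e3]
      ring

end

end Pool.Agent.Helper644_LA
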