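import Pool.Agent.Helper644_LA.Bess

/-! # The inequality of Bessel for the errors, passage to the limit -/

set_option autoImplicit false
set_option linter.unusedSectionVars false

namespace Pool.Agent.Helper644_LA

open NumberField Filter Topology Finset IntermediateField
open Pool.Agent.W401.Cheb
open Pool.Agent.W171.LG
open Pool.Agent.H386R2.Artin (PP LC_pos)
open Pool.Agent.H981R3.LN (ql Sk mem_Sk mem_PP)

lemma M_eq_prime {a b : ℕ → ℝ} (h : ∀ p, p.Prime → a p = b p) (N : ℕ) : M a N = M b N :=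
  le_antisymm (M_mono (fun p hp => (h p hp).le) N) (M_mono (fun p hp => (h p hp).ge) N)

/-- elementary inequality -/
lemma sq_est {a b κ : ℝ} (h : |b - a| ≤ 4 * κ) (ha : |a| ≤ 2) (hκ : κ ≤ 1 / 5) :
    b ^ 2 ≤ a ^ 2 + 20 * κ := by
  have hκ0 : 0 ≤ κ := by
    have := (abs_nonneg _).trans h
    linarith
  have h1 : b ^ 2 = a ^ 2 + (b - a) * (2 * a + (b - a)) := by ring
  have h2 : (b - a) * (2 * a + (b - a)) ≤ |b - a| * |2 * a + (b - a)| := by
    rw [← abs_mul]
    exact le_abs_self _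
  have h3 : |2 * a + (b - a)| ≤ 5 := by
    have h4 : |2 * a + (b - a)| ≤ |2 * a| + |b - a| := abs_add_le _ _
    have h5 : |2 * a| = 2 * |a| := by rw [abs_mul, abs_of_pos (by norm_num : (0 : ℝ) < 2)]
    linarith
  have h6 : |b - a| * |2 * a + (b - a)| ≤ 4 * κ * 5 :=
    mul_le_mul h h3 (abs_nonneg _) (by linarith)
  linarith

lemma sub_est {m e κ : ℝ} (h : |m - e| ≤ 2 * κ) (hm0 : 0 ≤ m) (hm : m ≤ 2) (hκ : κ ≤ 1 / 5) :
    m - m ^ 2 ≤ e * (1 - e) + 12 * κ := by
  have hκ0 : 0 ≤ κ := by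
    have := (abs_nonneg _).trans h
    linarith
  have h1 : m - m ^ 2 = e * (1 - e) + (m - e) * (1 - m - e) := by ring
  have h2 : (m - e) * (1 - m - e) ≤ |m - e| * |1 - m - e| := by
    rw [← abs_mul]
    exact le_abs_self _
  have h7 := abs_le.1 h
  have h3 : |1 - m - e| ≤ 6 := by
    rw [abs_le]
    constructor <;> linarith
  have h6 : |m - e| * |1 - m - e| ≤ 2 * κ * 6 :=
    mul_le_mul h h3 (abs_nonneg _) (by linarith)
  linarith

section
variable {W : Subgroup ℚˣ} {k : ℕ}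
variable {ι : Type} [Fintype ι] {F : ι → IntermediateField ℚ QA} [∀ i, NumberField (F i)]
  [∀ i, IsGalois ℚ (F i)] {C : ∀ i, Set Gal(F i/ℚ)}

/-- the mean of the error set -/
lemma mean_H (hW : W.FG) (hk : k ≠ 0) (y x : ℕ) :
    M (ind fun p => G Q0 Set.univ W k y p ∧ ¬ LC Q0 Set.univ k W p) x =
      M (ind fun p => G Q0 Set.univ W k y p) x - mS Q0 Set.univ W k x := by
  rw [mS_ind, ← M_sub]
  refine M_eq_prime (fun p hp => ?_) x
  have : Fact p.Prime := ⟨hp⟩
  by_cases h : LC Q0 Set.univ k W p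
  · rw [ind_neg (A := fun p => G Q0 Set.univ W k y p ∧ ¬ LC Q0 Set.univ k W p) (fun h' => h'.2 h),
      ind_pos (A := fun p => G Q0 Set.univ W k y p) (G_of_LC hk y h),
      ind_pos (A := fun q => LC Q0 Set.univ k W q) h]
    norm_num
  · rw [ind_neg (A := fun q => LC Q0 Set.univ k W q) h, sub_zero]
    by_cases h' : G Q0 Set.univ W k y p
    · rw [ind_pos (A := fun p => G Q0 Set.univ W k y p) h',
        ind_pos (A := fun p => G Q0 Set.univ W k y p ∧ ¬ LC Q0 Set.univ k W p) ⟨h', h⟩]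
    · rw [ind_neg (A := fun p => G Q0 Set.univ W k y p) h',
        ind_neg (A := fun p => G Q0 Set.univ W k y p ∧ ¬ LC Q0 Set.univ k W p) (fun h2 => h' h2.1)]

/-- the mean of the error set in a Frobenius class -/
lemma mean_Hi (F : IntermediateField ℚ QA) [NumberField F] [IsGalois ℚ F] (C : Set Gal(F/ℚ))
    (hW : W.FG) (hk : k ≠ 0) (y : ℕ) :
    Tendsto (fun x => M (ind fun p => GF F C p ∧
        (G Q0 Set.univ W k y p ∧ ¬ LC Q0 Set.univ k W p)) x -
      (M (ind fun p => G F C W k y p) x - mS F C W k x)) atTop (𝓝 0) := by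
  obtain ⟨D, hD, hGF⟩ := GF_triv
  obtain ⟨D1, hD1, hU⟩ := exists_unW hW
  have h := M_congr_tendsto (a := ind fun p => GF F C p ∧
        (G Q0 Set.univ W k y p ∧ ¬ LC Q0 Set.univ k W p))
    (b := fun p => ind (fun p => G F C W k y p) p - ind (fun p => LC F C k W p) p)
    (D := D * D1) (Nat.mul_pos hD hD1) ?_
  · refine h.congr fun x => ?_
    rw [M_sub, mS_ind]
  · intro p hp hpD
    have : Fact p.Prime := ⟨hp⟩
    have h0 := hGF p hp fun h => hpD (h.mul_right _)
    have hUp : UnW W p := hU p fun h => hpD (h.mul_left _)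
    have hG0 : G Q0 Set.univ W k y p ↔ ∀ l ∈ PP y, ¬ PW W (ql k l) p :=
      ⟨fun h => h.2, fun h => ⟨h0, h⟩⟩
    have hG : G F C W k y p ↔ GF F C p ∧ ∀ l ∈ PP y, ¬ PW W (ql k l) p := Iff.rfl
    have hL0 : LC Q0 Set.univ k W p ↔ ∀ l : ℕ, l.Prime → ¬ PW W (ql k l) p := by
      rw [ql_dvd_iff hUp hk]
      exact ⟨fun h => h.2, fun h => ⟨h0, h⟩⟩
    have hL := ql_dvd_iff (F := F) (C := C) hUp hk
    by_cases h : LC F C k W p
    · have hL' := hL.1 h
      rw [ind_pos (A := fun p => LC F C k W p) h,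
        ind_pos (A := fun p => G F C W k y p) (G_of_LC hk y h),
        ind_neg (A := fun p => GF F C p ∧
          (G Q0 Set.univ W k y p ∧ ¬ LC Q0 Set.univ k W p)) (fun h' => h'.2.2 (hL0.2 hL'.2))]
      norm_num
    · rw [ind_neg (A := fun p => LC F C k W p) h, sub_zero]
      by_cases h' : G F C W k y p
      · rw [ind_pos (A := fun p => G F C W k y p) h',
          ind_pos (A := fun p => GF F C p ∧
            (G Q0 Set.univ W k y p ∧ ¬ LC Q0 Set.univ k W p))
            ⟨(hG.1 h').1, hG0.2 (hG.1 h').2, fun h2 => h (hL.2 ⟨(hG.1 h').1, hL0.1 h2⟩)⟩]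
      · rw [ind_neg (A := fun p => G F C W k y p) h',
          ind_neg (A := fun p => GF F C p ∧
            (G Q0 Set.univ W k y p ∧ ¬ LC Q0 Set.univ k W p))
            (fun h2 => h' (hG.2 ⟨h2.1, hG0.1 h2.2.1⟩))]

/-- the truncated densities as means of indicators -/
lemma trunc_ind (F : IntermediateField ℚ QA) [NumberField F] [IsGalois ℚ F] (C : Set Gal(F/ℚ))
    (hC : ∀ σ ∈ C, ∀ τ : Gal(F/ℚ), τ * σ * τ⁻¹ ∈ C) (hW : W.FG) (y : ℕ) :
    Tendsto (M (ind fun p => G F C W k y p)) atTop (𝓝 (dT F C W k y)) :=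
  trunc F C W k hC hW y

/-- **Bessel's inequality for the errors** -/
theorem bessel_er (hW : W.FG) (hP : Pos W) (hk : k ≠ 0)
    (hC : ∀ i, ∀ σ ∈ C i, ∀ τ : Gal(F i/ℚ), τ * σ * τ⁻¹ ∈ C i)
    (hF : ∀ i j, i ≠ j → F i ⊓ F j = ⊥)
    (hc : ∀ i, 0 < dens1 (F i) (C i) ∧ dens1 (F i) (C i) < 1) (η : ℝ) (hη : 0 < η) :
    ∀ᶠ x in atTop,
      ∑ i, (dens1 (F i) (C i) * (1 - dens1 (F i) (C i)))⁻¹ *
        (er W k (F i) (C i) x - dens1 (F i) (C i) * er W k Q0 Set.univ x) ^ 2 ≤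
      er W k Q0 Set.univ x * (1 - er W k Q0 Set.univ x) + η := by
  set c : ι → ℝ := fun i => dens1 (F i) (C i) with hcd
  set R : ℝ := ∑ i, (c i * (1 - c i))⁻¹ with hR
  have hρ : ∀ i, 0 < (c i * (1 - c i))⁻¹ := fun i => by
    have h1 := (hc i).1
    have h2 := (hc i).2
    have h3 : 0 < 1 - c i := by
      simp only [hcd]
      linarith
    exact inv_pos.2 (mul_pos h1 h3)
  have hR0 : 0 ≤ R := Finset.sum_nonneg fun i _ => (hρ i).le
  set κ : ℝ := min (1 / 5) (η / (13 + 20 * R)) with hκ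
  have hκ0 : 0 < κ := lt_min (by norm_num) (by positivity)
  have hκ1 : κ ≤ 1 / 5 := min_le_left _ _
  have hκ2 : κ * (13 + 20 * R) ≤ η := by
    have : κ ≤ η / (13 + 20 * R) := min_le_right _ _
    rwa [le_div_iff₀ (by positivity)] at this
  have hy0 : ∀ᶠ y in atTop, dT Q0 Set.univ W k y < dL Q0 Set.univ W k + κ :=
    (dT_tendsto Q0 Set.univ k hW hP).eventually (gt_mem_nhds (by
      show dL Q0 Set.univ W k < _
      linarith))
  have hyi : ∀ᶠ y in atTop, ∀ i, dT (F i) (C i) W k y < dL (F i) (C i) W k + κ :=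
    eventually_all.2 fun i => (dT_tendsto (F i) (C i) k hW hP).eventually (gt_mem_nhds (by
      show dL (F i) (C i) W k < _
      linarith))
  obtain ⟨y, hy0, hyi⟩ := (hy0.and hyi).exists
  have hb := bessel_h (F := F) (C := C) hC hF
    (fun p => G Q0 Set.univ W k y p ∧ ¬ LC Q0 Set.univ k W p) κ hκ0
  have t0 := (Metric.tendsto_nhds.1 (trunc_ind (k := k) Q0 Set.univ univ_conj hW y))
    (κ / 2) (by positivity)
  have ti : ∀ᶠ x in atTop, ∀ i, dist (M (ind fun p => G (F i) (C i) W k y p) x)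
      (dT (F i) (C i) W k y) < κ / 2 := eventually_all.2 fun i =>
    (Metric.tendsto_nhds.1 (trunc_ind (k := k) (F i) (C i) (hC i) hW y)) (κ / 2) (by positivity)
  have ui : ∀ᶠ x in atTop, ∀ i, dist (M (ind fun p => GF (F i) (C i) p ∧
        (G Q0 Set.univ W k y p ∧ ¬ LC Q0 Set.univ k W p)) x -
      (M (ind fun p => G (F i) (C i) W k y p) x - mS (F i) (C i) W k x)) 0 < κ / 2 :=
    eventually_all.2 fun i =>
      (Metric.tendsto_nhds.1 (mean_Hi (F i) (C i) hW hk y)) (κ / 2) (by positivity)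
  have hone := M_one.eventually (gt_mem_nhds (show (1 : ℝ) < 2 by norm_num))
  filter_upwards [hb, t0, ti, ui, hone] with x x1 x2 x3 x4 x5
  set m : ℝ := M (ind fun p => G Q0 Set.univ W k y p ∧ ¬ LC Q0 Set.univ k W p) x with hm
  have hm0 : 0 ≤ m := M_nonneg (fun p _ => ind_nonneg _ _) x
  have ind_le : ∀ (A : ℕ → Prop) (p : ℕ), ind A p ≤ 1 := by
    intro A p
    by_cases h : A p
    · rw [ind_pos h]
    · rw [ind_neg h]
      norm_num
  have hm2 : m ≤ 2 := (M_mono (fun p _ => ind_le _ p) x).trans x5.le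
  -- the error over `ℚ`
  set e : ℝ := er W k Q0 Set.univ x with he
  have hme : |m - e| ≤ 2 * κ := by
    have h1 := mean_H (W := W) (k := k) hW hk y x
    rw [← hm] at h1
    rw [Real.dist_eq, abs_lt] at x2
    have h2 := dL_le (F := Q0) (C := Set.univ) (k := k) univ_conj hW hP y
    rw [h1, he]
    unfold er
    rw [abs_le]
    constructor <;> linarith [x2.1, x2.2]
  -- the errors in the classes
  have hmi : ∀ i, |M (ind fun p => GF (F i) (C i) p ∧
      (G Q0 Set.univ W k y p ∧ ¬ LC Q0 Set.univ k W p)) x - er W k (F i) (C i) x| ≤ 2 * κ := by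
    intro i
    have h3 := x3 i
    have h4 := x4 i
    rw [Real.dist_eq, abs_lt] at h3
    rw [Real.dist_eq, sub_zero, abs_lt] at h4
    have h2 := dL_le (F := F i) (C := C i) (k := k) (hC i) hW hP y
    have h5 := hyi i
    unfold er
    rw [abs_le]
    constructor <;> linarith [h3.1, h3.2, h4.1, h4.2]
  have hmi0 : ∀ i, 0 ≤ M (ind fun p => GF (F i) (C i) p ∧
      (G Q0 Set.univ W k y p ∧ ¬ LC Q0 Set.univ k W p)) x :=
    fun i => M_nonneg (fun p _ => ind_nonneg _ _) x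
  have hmi2 : ∀ i, M (ind fun p => GF (F i) (C i) p ∧
      (G Q0 Set.univ W k y p ∧ ¬ LC Q0 Set.univ k W p)) x ≤ 2 :=
    fun i => (M_mono (fun p _ => ind_le _ p) x).trans x5.le
  have hterm : ∀ i, (c i * (1 - c i))⁻¹ *
      (er W k (F i) (C i) x - c i * e) ^ 2 ≤ (c i * (1 - c i))⁻¹ *
      (M (ind fun p => GF (F i) (C i) p ∧
      (G Q0 Set.univ W k y p ∧ ¬ LC Q0 Set.univ k W p)) x - c i * m) ^ 2 +
      20 * κ * (c i * (1 - c i))⁻¹ := by
    intro i
    have hc0 : 0 < c i := (hc i).1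
    have hc1 : c i < 1 := (hc i).2
    have h1 := abs_le.1 (hmi i)
    have h2 := abs_le.1 hme
    have h3 := hmi0 i
    have h4 := hmi2 i
    have h5 : |(er W k (F i) (C i) x - c i * e) - (M (ind fun p => GF (F i) (C i) p ∧
      (G Q0 Set.univ W k y p ∧ ¬ LC Q0 Set.univ k W p)) x - c i * m)| ≤ 4 * κ := by
      have h6 : |c i * (m - e)| ≤ 2 * κ := by
        rw [abs_mul, abs_of_pos hc0]
        calc c i * |m - e| ≤ 1 * (2 * κ) := mul_le_mul hc1.le hme (abs_nonneg _) (by norm_num)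
          _ = _ := one_mul _
      have h7 := abs_le.1 h6
      rw [abs_le]
      constructor <;> linarith [h7.1, h7.2, h1.1, h1.2]
    have h6 : |M (ind fun p => GF (F i) (C i) p ∧
      (G Q0 Set.univ W k y p ∧ ¬ LC Q0 Set.univ k W p)) x - c i * m| ≤ 2 := by
      have h8 : 0 ≤ c i * m := mul_nonneg hc0.le hm0
      have h9 : c i * m ≤ 2 := by
        calc c i * m ≤ 1 * 2 := mul_le_mul hc1.le hm2 hm0 (by norm_num)
          _ = 2 := by norm_num
      rw [abs_le]
      constructor <;> linarith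
    have h7 := sq_est h5 h6 hκ1
    have h8 := mul_le_mul_of_nonneg_left h7 (hρ i).le
    linarith
  have hsum := Finset.sum_le_sum fun i (_ : i ∈ (Finset.univ : Finset ι)) => hterm i
  rw [Finset.sum_add_distrib, ← Finset.mul_sum, ← hR] at hsum
  have hlast := sub_est hme hm0 hm2 hκ1
  have x1' : m ^ 2 + ∑ i, (c i * (1 - c i))⁻¹ *
      (M (ind fun p => GF (F i) (C i) p ∧
      (G Q0 Set.univ W k y p ∧ ¬ LC Q0 Set.univ k W p)) x - c i * m) ^ 2 ≤ m + κ := x1
  have hfin : ∑ i, (c i * (1 - c i))⁻¹ * (er W k (F i) (C i) x - c i * e) ^ 2 ≤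
      e * (1 - e) + η := by
    have h1 : 20 * κ * R + 13 * κ = κ * (13 + 20 * R) := by ring
    linarith
  exact hfin

end

end Pool.Agent.Helper644_LA
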