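import Pool.Agent.Helper644_LA.Cyclo

/-! # The densities in residue classes -/

set_option autoImplicit false
set_option linter.unusedSectionVars false

namespace Pool.Agent.Helper644_LA

open NumberField Filter Topology Finset IntermediateField
open Pool.Agent.W401.Cheb
open Pool.Agent.W171.LG
open Pool.Agent.H386R2.Artin (PP artinL artinC artinLim)
open Pool.Agent.H981R3.LN (ql mem_PP Qn SL)
open Pool.Agent.H730R2.AA.Euler (mu_eq_prod)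

variable {n n' : ℤ} {ℓ : ℕ} [NeZero ℓ] {a : ℕ}

lemma fin_mono {A B : IntermediateField ℚ QA} (hB : FiniteDimensional ℚ B) (h : A ≤ B) :
    Module.finrank ℚ A ≤ Module.finrank ℚ B :=
  Submodule.finrank_mono (s := A.toSubmodule) (t := B.toSubmodule) h

/-- the degree of the compositum -/
lemma fin_CF (h : Good n n') (hℓ : ℓ.Prime) (hℓn : ¬ (ℓ : ℤ) ∣ n') {m : ℕ} (hm : Squarefree m)
    (hℓm : ¬ ℓ ∣ m) :
    Module.finrank ℚ (CF ℓ ⊔ Lf QA (Subgroup.zpowers (un h.h0)) m : IntermediateField ℚ QA) =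
      Module.finrank ℚ (CF ℓ) *
        Module.finrank ℚ (Lf QA (Subgroup.zpowers (un h.h0)) m : IntermediateField ℚ QA) := by
  have hm0 : 0 < m := Nat.pos_of_ne_zero hm.ne_zero
  have : NeZero m := ⟨hm0.ne'⟩
  have hcop : Nat.Coprime ℓ m := (Nat.Prime.coprime_iff_not_dvd hℓ).2 hℓm
  have hN : 0 < ℓ * m := Nat.mul_pos hℓ.pos hm0
  have hfa : Module.finrank ℚ (CF ℓ) = Nat.totient ℓ :=
    adj_cyc_deg ℓ (NeZero.pos ℓ) (zt ℓ) (zt_prim ℓ)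
  have hWfg := zpow_fg (un h.h0)
  have hfE : FiniteDimensional ℚ (Lf QA (Subgroup.zpowers (un h.h0)) m) := Lf_fin hWfg hm0
  have hfin : FiniteDimensional ℚ
      (CF ℓ ⊔ Lf QA (Subgroup.zpowers (un h.h0)) m : IntermediateField ℚ QA) :=
    IntermediateField.finiteDimensional_sup _ _
  refine le_antisymm (IntermediateField.finrank_sup_le _ _) ?_
  have hprim : IsPrimitiveRoot (zt ℓ * zt m) (ℓ * m) := by
    have h1 := (Commute.all (zt ℓ) (zt m)).orderOf_mul_eq_mul_orderOf_of_coprime (by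
      rw [← (zt_prim ℓ).eq_orderOf, ← (zt_prim m).eq_orderOf]
      exact hcop)
    rw [← (zt_prim ℓ).eq_orderOf, ← (zt_prim m).eq_orderOf] at h1
    rw [← h1]
    exact IsPrimitiveRoot.orderOf _
  obtain ⟨α, hα⟩ := IsAlgClosed.exists_pow_nat_eq
    (algebraMap ℚ QA ((un h.h0 : ℚˣ) : ℚ)) hm0
  have hmem : zt ℓ * zt m ∈ CF ℓ ⊔ Lf QA (Subgroup.zpowers (un h.h0)) m :=
    mul_mem ((le_sup_left : CF ℓ ≤ _) (mem_adjoin_simple_self ℚ _))
      ((le_sup_right : Lf QA (Subgroup.zpowers (un h.h0)) m ≤ _)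
        (root_one_mem _ (zt_prim m).pow_eq_one))
  have hle : (adjoin ℚ {zt ℓ * zt m} ⊔ adjoin ℚ {α} : IntermediateField ℚ QA) ≤
      CF ℓ ⊔ Lf QA (Subgroup.zpowers (un h.h0)) m := by
    refine sup_le ?_ ?_
    · rw [adjoin_le_iff, Set.singleton_subset_iff]
      exact hmem
    · rw [adjoin_le_iff, Set.singleton_subset_iff]
      exact (le_sup_right : Lf QA (Subgroup.zpowers (un h.h0)) m ≤ _)
        (subset_adjoin ℚ _ ⟨un h.h0, Subgroup.mem_zpowers _, hα⟩)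
  refine le_trans ?_ (fin_mono hfin hle)
  rw [hfa]
  by_cases hA : ¬ 2 ∣ m ∨ ∃ q : ℕ, q.Prime ∧ (q : ℤ) ∣ n' ∧ ¬ q ∣ m
  · rw [deg_A h hm0 hA, deg_A' h hN (Dvd.intro_left ℓ rfl) hprim hα, Nat.totient_mul hcop]
    · rw [mul_assoc]
    · rcases hA with hA | ⟨q, hq, hqn, hqm⟩
      · exact Or.inl hA
      · refine Or.inr ⟨q, hq, hqn, fun h' => ?_⟩
        rcases (Nat.Prime.dvd_mul hq).1 h' with h2 | h2
        · rw [(Nat.prime_dvd_prime_iff_eq hq hℓ).1 h2] at hqn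
          exact hℓn hqn
        · exact hqm h2
  · push Not at hA
    obtain ⟨⟨e, he⟩, hB⟩ := hA
    subst he
    have he0 : 0 < e := Nat.pos_of_ne_zero (by
      rintro rfl
      omega)
    have he2 : ¬ 2 ∣ e := by
      rintro ⟨f, rfl⟩
      have := hm 2 ⟨f, by ring⟩
      exact absurd (Nat.isUnit_iff.1 this) (by norm_num)
    have hB' : ∀ q ∈ n'.natAbs.primeFactors, q ∣ 2 * e := fun q hq =>
      hB q (Nat.prime_of_mem_primeFactors hq) (Int.natCast_dvd.2 (Nat.dvd_of_mem_primeFactors hq))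
    rw [deg_B h he0 he2 hB', deg_B' h hN (Dvd.intro_left ℓ rfl) he2 hprim hα
      (fun q hq => (hB' q hq).mul_left ℓ), Nat.totient_mul hcop]
    rw [mul_assoc]

/-- the local count if `ℓ` divides the level -/
lemma cE_dvd (hℓ : ℓ.Prime) (ha : (a : ZMod ℓ) ≠ 1) {W : Subgroup ℚˣ} {m : ℕ} (h : ℓ ∣ m) :
    cE (CF ℓ) (ct ℓ a) (Lf QA W m) = 0 := by
  unfold cE
  rw [Nat.card_eq_zero]
  left
  refine ⟨fun x => ?_⟩
  obtain ⟨σ, hσ, hfix⟩ := x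
  have h1 : (zt ℓ) ^ m = 1 := by
    obtain ⟨t, rfl⟩ := h
    rw [pow_mul, (zt_prim ℓ).pow_eq_one, one_pow]
  have h2 := hfix (z ℓ) (root_one_mem W h1)
  have h3 : σ (z ℓ) = z ℓ ^ a := hσ
  rw [h2] at h3
  have h4 : z ℓ ^ 1 = z ℓ ^ a := by rw [pow_one]; exact h3
  rw [prim_pow_iff hℓ.pos (z_prim ℓ)] at h4
  exact ha (by rw [← h4]; simp)

/-- the local count if `ℓ` does not divide the level -/
lemma cE_ndvd (h : Good n n') (hℓ : ℓ.Prime) (hℓn : ¬ (ℓ : ℤ) ∣ n') (ha0 : (a : ZMod ℓ) ≠ 0)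
    {m : ℕ} (hm : Squarefree m) (hℓm : ¬ ℓ ∣ m) :
    cE (CF ℓ) (ct ℓ a) (Lf QA (Subgroup.zpowers (un h.h0)) m) = 1 := by
  have hm0 : 0 < m := Nat.pos_of_ne_zero hm.ne_zero
  have hfE : FiniteDimensional ℚ (Lf QA (Subgroup.zpowers (un h.h0)) m) :=
    Lf_fin (zpow_fg (un h.h0)) hm0
  have hinf : CF ℓ ⊓ Lf QA (Subgroup.zpowers (un h.h0)) m = ⊥ :=
    (IntermediateField.LinearDisjoint.of_finrank_sup (fin_CF h hℓ hℓn hm hℓm)).inf_eq_bot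
  have hcop : Nat.Coprime a ℓ := by
    rw [Nat.coprime_comm, Nat.Prime.coprime_iff_not_dvd hℓ]
    intro h'
    exact ha0 ((ZMod.natCast_eq_zero_iff a ℓ).2 h')
  rw [← ct_card ℓ hcop]
  unfold cE
  refine Nat.card_congr (Equiv.subtypeEquivRight fun σ => ⟨fun h' => h'.1, fun h' => ⟨h', ?_⟩⟩)
  intro y hy
  have h1 : (y : QA) ∈ CF ℓ ⊓ Lf QA (Subgroup.zpowers (un h.h0)) m := ⟨y.2, hy⟩
  rw [hinf, IntermediateField.mem_bot] at h1
  obtain ⟨q, hq⟩ := h1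
  have h2 : y = algebraMap ℚ (CF ℓ) q := by
    apply Subtype.ext
    rw [← hq]
    rfl
  rw [h2]
  exact σ.commutes q

lemma not_dvd_DD (h4 : n' % 4 = 1) (hℓ2 : ℓ ≠ 2) (hℓ : ℓ.Prime) (hℓn : ¬ (ℓ : ℤ) ∣ n') : ℓ ∉ DD n' := by
  unfold DD
  rw [Finset.mem_insert]
  rintro (h' | h')
  · exact hℓ2 h'
  · exact hℓn (Int.natCast_dvd.2 (Nat.dvd_of_mem_primeFactors h'))

/-- the truncated densities -/
lemma dT_class (h : Good n n') (hℓ : ℓ.Prime) (hℓ2 : ℓ ≠ 2) (hℓn : ¬ (ℓ : ℤ) ∣ n')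
    (ha0 : (a : ZMod ℓ) ≠ 0) (ha1 : (a : ZMod ℓ) ≠ 1) {y : ℕ} (hy : DD n' ⊆ PP y) (hℓy : ℓ ≤ y) :
    dT (CF ℓ) (ct ℓ a) (Subgroup.zpowers (un h.h0)) 1 y =
      artinL y * corr n' * ((ℓ : ℝ) / ((ℓ : ℝ) ^ 2 - ℓ - 1)) := by
  classical
  have hℓr : (2 : ℝ) ≤ ℓ := by exact_mod_cast hℓ.two_le
  have hfa : Module.finrank ℚ (CF ℓ) = Nat.totient ℓ :=
    adj_cyc_deg ℓ (NeZero.pos ℓ) (zt ℓ) (zt_prim ℓ)
  have e0 : dT (CF ℓ) (ct ℓ a) (Subgroup.zpowers (un h.h0)) 1 y = ∑ K ∈ (PP y).powerset,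
      (if ℓ ∈ K then 0 else (1 / ((ℓ : ℝ) - 1)) *
        (((-1 : ℝ) ^ #K * ∏ l ∈ K, al l) * (if DD n' ⊆ K then 2 else 1))) := by
    unfold dT SL
    rw [Finset.sum_image]
    · refine Finset.sum_congr rfl fun K hK => ?_
      rw [mem_powerset] at hK
      have hp : ∀ l ∈ K, l.Prime := fun l hl => (mem_PP.1 (hK hl)).2
      have h1 : (∏ l ∈ K, l).primeFactors = K := Nat.primeFactors_prod hp
      have hsq : Squarefree (∏ l ∈ K, l) := Pool.Agent.H771R4.AQ.sqf_prod K hp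
      have h2 : Qn 1 (∏ l ∈ K, l) = ∏ l ∈ K, l := by
        unfold Qn
        rw [h1]
        exact Finset.prod_congr rfl fun l _ => ql_one l
      unfold tW
      rw [mu_eq_prod _ hsq, h1, Finset.prod_const, h2]
      by_cases hℓK : ℓ ∈ K
      · rw [if_pos hℓK, cE_dvd hℓ ha1 (Finset.dvd_prod_of_mem (fun l => l) hℓK)]
        simp
      · rw [if_neg hℓK]
        have hℓm : ¬ ℓ ∣ ∏ l ∈ K, l := fun h' => hℓK (mem_of_dvd_prod hp hℓ h')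
        rw [cE_ndvd h hℓ hℓn ha0 hsq hℓm, fin_CF h hℓ hℓn hsq hℓm, hfa, Nat.totient_prime hℓ,
          mul_assoc ((-1 : ℝ) ^ #K), ← inv_deg h hp]
        push_cast
        rw [Nat.cast_sub hℓ.one_lt.le]
        push_cast
        rw [mul_one, ← div_div]
        ring
    · intro K hK K' hK' h
      simp only [Finset.coe_powerset, Set.mem_preimage, Set.mem_powerset_iff, Finset.coe_subset]
        at hK hK'
      have h1 : (∏ l ∈ K, l).primeFactors = K :=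
        Nat.primeFactors_prod fun l hl => (mem_PP.1 (hK hl)).2
      have h2 : (∏ l ∈ K', l).primeFactors = K' :=
        Nat.primeFactors_prod fun l hl => (mem_PP.1 (hK' hl)).2
      rw [← h1, ← h2]
      exact congrArg Nat.primeFactors h
  have hsub : ((PP y).erase ℓ).powerset ⊆ (PP y).powerset :=
    Finset.powerset_mono.2 (Finset.erase_subset _ _)
  have e1 : ∑ K ∈ (PP y).powerset,
      (if ℓ ∈ K then 0 else (1 / ((ℓ : ℝ) - 1)) *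
        (((-1 : ℝ) ^ #K * ∏ l ∈ K, al l) * (if DD n' ⊆ K then 2 else 1))) =
      ∑ K ∈ ((PP y).erase ℓ).powerset, (1 / ((ℓ : ℝ) - 1)) *
        (((-1 : ℝ) ^ #K * ∏ l ∈ K, al l) * (if DD n' ⊆ K then 2 else 1)) := by
    rw [← Finset.sum_subset hsub]
    · refine Finset.sum_congr rfl fun K hK => ?_
      rw [mem_powerset] at hK
      rw [if_neg fun h' => (Finset.notMem_erase ℓ (PP y)) (hK h')]
    · intro K hK hK2
      rw [mem_powerset] at hK hK2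
      have hℓK : ℓ ∈ K := by
        by_contra h'
        exact hK2 (Finset.subset_erase.2 ⟨hK, h'⟩)
      rw [if_pos hℓK]
  have hDD : DD n' ⊆ (PP y).erase ℓ := Finset.subset_erase.2 ⟨hy, not_dvd_DD h.h4 hℓ2 hℓ hℓn⟩
  have e2 : artinL y = (1 - al ℓ) * ∏ l ∈ (PP y).erase ℓ, (1 - al l) := by
    rw [Finset.mul_prod_erase (PP y) (fun l => 1 - al l) (mem_PP.2 ⟨hℓy, hℓ⟩)]
    rfl
  have h1 : (ℓ : ℝ) - 1 ≠ 0 := by
    have : 0 < (ℓ : ℝ) - 1 := by linarith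
    exact this.ne'
  have h2 : (ℓ : ℝ) ^ 2 - ℓ - 1 ≠ 0 := by
    have : 0 < (ℓ : ℝ) ^ 2 - ℓ - 1 := by nlinarith
    exact this.ne'
  have h0 : (ℓ : ℝ) ≠ 0 := by
    have : 0 < (ℓ : ℝ) := by linarith
    exact this.ne'
  have h3 : (1 : ℝ) - al ℓ = ((ℓ : ℝ) ^ 2 - ℓ - 1) / ((ℓ : ℝ) * ((ℓ : ℝ) - 1)) := by
    unfold al
    rw [eq_div_iff (mul_ne_zero h0 h1), sub_mul, one_div, inv_mul_cancel₀ (mul_ne_zero h0 h1)]
    ring
  rw [e0, e1, ← Finset.mul_sum, sum_formula h.h4 h.hsq hDD, e2, h3]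
  have h4 : ((ℓ : ℝ) ^ 2 - ℓ - 1) / ((ℓ : ℝ) * ((ℓ : ℝ) - 1)) * ((ℓ : ℝ) / ((ℓ : ℝ) ^ 2 - ℓ - 1)) =
      1 / ((ℓ : ℝ) - 1) := by
    rw [div_mul_div_comm, div_eq_div_iff (mul_ne_zero (mul_ne_zero h0 h1) h2) h1]
    ring
  rw [← h4]
  ring

/-- **the density in a residue class** -/
theorem dL_class (h : Good n n') (hℓ : ℓ.Prime) (hℓ2 : ℓ ≠ 2) (hℓn : ¬ (ℓ : ℤ) ∣ n')
    (ha0 : (a : ZMod ℓ) ≠ 0) (ha1 : (a : ZMod ℓ) ≠ 1) :
    dL (CF ℓ) (ct ℓ a) (Subgroup.zpowers (un h.h0)) 1 =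
      corr n' * artinC * ((ℓ : ℝ) / ((ℓ : ℝ) ^ 2 - ℓ - 1)) := by
  have h1 := dT_tendsto (CF ℓ) (ct ℓ a) 1 (W := Subgroup.zpowers (un h.h0))
    (zpow_fg (un h.h0)) (pos_n h)
  have h2 : Tendsto (dT (CF ℓ) (ct ℓ a) (Subgroup.zpowers (un h.h0)) 1) atTop
      (𝓝 (artinC * corr n' * ((ℓ : ℝ) / ((ℓ : ℝ) ^ 2 - ℓ - 1)))) := by
    refine ((artinLim.mul_const (corr n')).mul_const ((ℓ : ℝ) / ((ℓ : ℝ) ^ 2 - ℓ - 1))).congr' ?_
    filter_upwards [eventually_ge_atTop ((DD n').sup id), eventually_ge_atTop ℓ] with y hy hy2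
    refine (dT_class h hℓ hℓ2 hℓn ha0 ha1 (fun l hl => mem_PP.2 ⟨?_, DD_prime hl⟩) hy2).symm
    exact (Finset.le_sup (f := id) hl).trans hy
  have h3 := tendsto_nhds_unique h1 h2
  unfold dL
  rw [h3]
  ring

end Pool.Agent.Helper644_LA
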