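import Pool.Agent.Helper644_LA.ClassDens

/-! # Bessel's inequality for residue classes -/

set_option autoImplicit false
set_option linter.unusedSectionVars false

namespace Pool.Agent.Helper644_LA

open NumberField Filter Topology Finset IntermediateField
open Pool.Agent.W401.Cheb
open Pool.Agent.W171.LG
open Pool.Agent.H386R2.Artin (PP artinL artinC artinLim)

variable {n n' : ℤ}

/-- the proportion of the primes `p ≤ x` in a residue class for which `n` is a primitive root -/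
noncomputable def pcl (n : ℤ) (ℓ a x : ℕ) : ℝ :=
  M (ind fun p => p ≡ a [MOD ℓ] ∧ orderOf (n : ZMod p) = p - 1) x

/-- the expected density -/
noncomputable def ecl (n' : ℤ) (ℓ : ℕ) : ℝ := corr n' * artinC * ((ℓ : ℝ) / ((ℓ : ℝ) ^ 2 - ℓ - 1))

/-- the deficits -/
noncomputable def dcl (n n' : ℤ) (ℓ a x : ℕ) : ℝ := ecl n' ℓ - pcl n ℓ a x

/-- the deficit for all primes -/
noncomputable def d00 (n n' : ℤ) (x : ℕ) : ℝ :=
  corr n' * artinC - M (ind fun p => orderOf (n : ZMod p) = p - 1) x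

lemma d00_eq (h : Good n n') (x : ℕ) :
    d00 n n' x = er (Subgroup.zpowers (un h.h0)) 1 Q0 Set.univ x := by
  unfold d00 er
  rw [mS_PR0 h.h0, dL_eq h (pos_n h)]

/-- the conditions on the modulus and the class -/
def Adm (n' : ℤ) (ℓ a : ℕ) : Prop :=
  ℓ.Prime ∧ ℓ ≠ 2 ∧ ¬ (ℓ : ℤ) ∣ n' ∧ ¬ a ≡ 0 [MOD ℓ] ∧ ¬ a ≡ 1 [MOD ℓ]

lemma dcl_close (h : Good n n') {ℓ a : ℕ} [NeZero ℓ] (hA : Adm n' ℓ a) :
    Tendsto (fun x => dcl n n' ℓ a x -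
      er (Subgroup.zpowers (un h.h0)) 1 (CF ℓ) (ct ℓ a) x) atTop (𝓝 0) := by
  obtain ⟨hℓ, hℓ2, hℓn, ha0, ha1⟩ := hA
  have ha0' : (a : ZMod ℓ) ≠ 0 := by
    intro h'
    apply ha0
    rw [← ZMod.natCast_eq_natCast_iff, h']
    simp
  have ha1' : (a : ZMod ℓ) ≠ 1 := by
    intro h'
    apply ha1
    rw [← ZMod.natCast_eq_natCast_iff, h']
    simp
  obtain ⟨D, hD, hGF⟩ := GF_ct ℓ a
  have h1 : Tendsto (fun x => M (ind fun p => GF (CF ℓ) (ct ℓ a) p ∧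
      orderOf (n : ZMod p) = p - 1) x - pcl n ℓ a x) atTop (𝓝 0) := by
    refine M_congr_tendsto hD fun p hp hpD => ?_
    have h2 : GF (CF ℓ) (ct ℓ a) p ↔ p ≡ a [MOD ℓ] := by
      rw [hGF p hp hpD, ZMod.natCast_eq_natCast_iff]
    by_cases h3 : p ≡ a [MOD ℓ] ∧ orderOf (n : ZMod p) = p - 1
    · rw [ind_pos (A := fun p : ℕ => p ≡ a [MOD ℓ] ∧ orderOf (n : ZMod p) = p - 1) h3,
        ind_pos (A := fun p : ℕ => GF (CF ℓ) (ct ℓ a) p ∧ orderOf (n : ZMod p) = p - 1)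
          ⟨h2.2 h3.1, h3.2⟩]
    · rw [ind_neg (A := fun p : ℕ => p ≡ a [MOD ℓ] ∧ orderOf (n : ZMod p) = p - 1) h3,
        ind_neg (A := fun p : ℕ => GF (CF ℓ) (ct ℓ a) p ∧ orderOf (n : ZMod p) = p - 1)
          (fun h4 => h3 ⟨h2.1 h4.1, h4.2⟩)]
  refine h1.congr fun x => ?_
  unfold dcl er ecl
  rw [dL_class h hℓ hℓ2 hℓn ha0' ha1', mS_PR (CF ℓ) (ct ℓ a) h.h0]
  ring

lemma dens_class {ℓ a : ℕ} [NeZero ℓ] (hA : Adm n' ℓ a) :
    dens1 (CF ℓ) (ct ℓ a) = 1 / ((ℓ : ℝ) - 1) := by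
  obtain ⟨hℓ, hℓ2, hℓn, ha0, ha1⟩ := hA
  have hcop : Nat.Coprime a ℓ := by
    rw [Nat.coprime_comm, Nat.Prime.coprime_iff_not_dvd hℓ]
    intro h'
    exact ha0 ((Nat.modEq_zero_iff_dvd).2 h')
  unfold dens1
  rw [ct_card ℓ hcop, cf_card, Nat.totient_prime hℓ, Nat.cast_sub hℓ.one_lt.le]
  push_cast
  rfl

lemma two_lt {ℓ a : ℕ} (hA : Adm n' ℓ a) : (2 : ℝ) < ℓ := by
  have h1 := hA.1.two_le
  have h2 := hA.2.1
  have : 2 < ℓ := by omega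
  exact_mod_cast this

/-- elementary inequality -/
lemma sq_add {u v θ : ℝ} (hθ : 0 < θ) : (u + v) ^ 2 ≤ (1 + θ) * u ^ 2 + (1 + 1 / θ) * v ^ 2 := by
  have h1 : 0 ≤ (θ * u - v) ^ 2 / θ := div_nonneg (sq_nonneg _) hθ.le
  have h2 : (θ * u - v) ^ 2 / θ = θ * u ^ 2 - 2 * u * v + 1 / θ * v ^ 2 := by
    field_simp
    ring
  nlinarith

/-- **Bessel's inequality for residue classes** -/
theorem bessel_class (h : Good n n') (S : Finset ℕ) (a : ℕ → ℕ) (hS : ∀ ℓ ∈ S, Adm n' ℓ (a ℓ))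
    {ε : ℝ} (hε : 0 < ε) : ∀ᶠ x in atTop,
      ∑ ℓ ∈ S, (((ℓ : ℝ) - 1) * dcl n n' ℓ (a ℓ) x - d00 n n' x) ^ 2 / ((ℓ : ℝ) - 2) ≤
        d00 n n' x * (1 - d00 n n' x) + ε := by
  classical
  have hne : ∀ i : {ℓ // ℓ ∈ S}, NeZero i.1 := fun i => ⟨(hS i.1 i.2).1.ne_zero⟩
  set W := Subgroup.zpowers (un h.h0) with hW
  have hd : ∀ i : {ℓ // ℓ ∈ S}, dens1 (CF i.1) (ct i.1 (a i.1)) = 1 / ((i.1 : ℝ) - 1) :=
    fun i => dens_class (hS i.1 i.2)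
  have hb := bessel_wt (W := W) (k := 1) (F := fun i : {ℓ // ℓ ∈ S} => CF i.1)
    (C := fun i => ct i.1 (a i.1)) (zpow_fg _) (pos_n h) one_ne_zero
    (fun i => ct_conj i.1 (a i.1))
    (fun i j hij => inf_CF ((Nat.coprime_primes (hS i.1 i.2).1 (hS j.1 j.2).1).2
      fun h' => hij (Subtype.ext h')))
    (fun i => by
      have h2 := two_lt (hS i.1 i.2)
      rw [hd i]
      constructor
      · exact div_pos one_pos (by linarith)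
      · rw [div_lt_one (by linarith)]
        linarith) (ε / 4) (by positivity)
  set θ : ℝ := ε / (1 + ε) with hθd
  have hθ : 0 < θ := by positivity
  -- the perturbation
  have hv : Tendsto (fun x => (1 + 1 / θ) * ∑ i : {ℓ // ℓ ∈ S},
      (((i.1 : ℝ) - 1) * (dcl n n' i.1 (a i.1) x - er W 1 (CF i.1) (ct i.1 (a i.1)) x)) ^ 2 /
        ((i.1 : ℝ) - 2)) atTop (𝓝 0) := by
    have h1 : Tendsto (fun x => ∑ i : {ℓ // ℓ ∈ S},
      (((i.1 : ℝ) - 1) * (dcl n n' i.1 (a i.1) x - er W 1 (CF i.1) (ct i.1 (a i.1)) x)) ^ 2 /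
        ((i.1 : ℝ) - 2)) atTop (𝓝 (∑ i : {ℓ // ℓ ∈ S}, 0)) := by
      refine tendsto_finsetSum _ fun i _ => ?_
      have h2 := ((((dcl_close h (hS i.1 i.2)).const_mul ((i.1 : ℝ) - 1)).pow 2).div_const
        ((i.1 : ℝ) - 2))
      simpa using h2
    have h3 := h1.const_mul (1 + 1 / θ)
    simpa using h3
  filter_upwards [hb, hv.eventually (gt_mem_nhds (show (0 : ℝ) < ε / 4 by positivity))]
    with x x1 x2
  set e : ℝ := er W 1 Q0 Set.univ x with he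
  have hde : d00 n n' x = e := d00_eq h x
  rw [hde]
  have x1' : ∑ i : {ℓ // ℓ ∈ S}, (((i.1 : ℝ) - 1) * er W 1 (CF i.1) (ct i.1 (a i.1)) x - e) ^ 2 /
      ((i.1 : ℝ) - 2) ≤ e * (1 - e) + ε / 4 := by
    refine le_trans (le_of_eq ?_) x1
    refine Finset.sum_congr rfl fun i _ => ?_
    have h2 := two_lt (hS i.1 i.2)
    have h3 : (i.1 : ℝ) - 1 ≠ 0 := by linarith
    have h4 : (i.1 : ℝ) - 2 ≠ 0 := by linarith
    show _ = wt (dens1 (CF i.1) (ct i.1 (a i.1))) *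
      (er W 1 (CF i.1) (ct i.1 (a i.1)) x / dens1 (CF i.1) (ct i.1 (a i.1)) - e) ^ 2
    rw [hd i]
    have h5 : wt (1 / ((i.1 : ℝ) - 1)) = 1 / ((i.1 : ℝ) - 2) := by
      unfold wt
      have h6 : (1 : ℝ) - 1 / ((i.1 : ℝ) - 1) = ((i.1 : ℝ) - 2) / ((i.1 : ℝ) - 1) := by
        rw [eq_div_iff h3, sub_mul, one_div, inv_mul_cancel₀ h3]
        ring
      rw [h6, div_div_div_cancel_right₀ h3]
    rw [h5, div_div_eq_mul_div, div_one, mul_comm (er W 1 (CF i.1) (ct i.1 (a i.1)) x)]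
    ring
  rw [← Finset.sum_coe_sort S (fun ℓ => (((ℓ : ℝ) - 1) * dcl n n' ℓ (a ℓ) x - e) ^ 2 /
    ((ℓ : ℝ) - 2))]
  have hterm : ∀ i : {ℓ // ℓ ∈ S}, (((i.1 : ℝ) - 1) * dcl n n' i.1 (a i.1) x - e) ^ 2 /
      ((i.1 : ℝ) - 2) ≤ (1 + θ) * ((((i.1 : ℝ) - 1) * er W 1 (CF i.1) (ct i.1 (a i.1)) x - e) ^ 2 /
      ((i.1 : ℝ) - 2)) + (1 + 1 / θ) * ((((i.1 : ℝ) - 1) * (dcl n n' i.1 (a i.1) x -
        er W 1 (CF i.1) (ct i.1 (a i.1)) x)) ^ 2 / ((i.1 : ℝ) - 2)) := by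
    intro i
    have h2 := two_lt (hS i.1 i.2)
    have h4 : 0 < (i.1 : ℝ) - 2 := by linarith
    have h5 := sq_add (u := ((i.1 : ℝ) - 1) * er W 1 (CF i.1) (ct i.1 (a i.1)) x - e)
      (v := ((i.1 : ℝ) - 1) * (dcl n n' i.1 (a i.1) x - er W 1 (CF i.1) (ct i.1 (a i.1)) x)) hθ
    have h6 : ((i.1 : ℝ) - 1) * dcl n n' i.1 (a i.1) x - e =
      (((i.1 : ℝ) - 1) * er W 1 (CF i.1) (ct i.1 (a i.1)) x - e) +
      ((i.1 : ℝ) - 1) * (dcl n n' i.1 (a i.1) x - er W 1 (CF i.1) (ct i.1 (a i.1)) x) := by ring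
    rw [h6, mul_div_assoc', mul_div_assoc', ← add_div]
    exact div_le_div_of_nonneg_right h5 h4.le
  have hsum := Finset.sum_le_sum fun i (_ : i ∈ (Finset.univ : Finset {ℓ // ℓ ∈ S})) => hterm i
  rw [Finset.sum_add_distrib, ← Finset.mul_sum, ← Finset.mul_sum] at hsum
  set U : ℝ := ∑ i : {ℓ // ℓ ∈ S}, (((i.1 : ℝ) - 1) * er W 1 (CF i.1) (ct i.1 (a i.1)) x - e) ^ 2 /
      ((i.1 : ℝ) - 2) with hU
  have hU0 : θ * U ≤ ε / 4 := by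
    have h3 : U ≤ 1 / 4 + ε / 4 := by
      have h4 : e * (1 - e) ≤ 1 / 4 := by nlinarith [sq_nonneg (e - 1 / 2)]
      linarith
    calc θ * U ≤ θ * (1 / 4 + ε / 4) := mul_le_mul_of_nonneg_left h3 hθ.le
      _ = ε / 4 := by
        rw [hθd]
        field_simp
  have hfin : ∑ i : {ℓ // ℓ ∈ S}, (((i.1 : ℝ) - 1) * dcl n n' i.1 (a i.1) x - e) ^ 2 /
      ((i.1 : ℝ) - 2) ≤ e * (1 - e) + ε := by
    have h5 : (1 + θ) * U = U + θ * U := by ring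
    linarith
  exact hfin

/-- a law for all primes gives the law in residue classes -/
theorem class_of_law (h : Good n n') {ℓ a : ℕ} (hA : Adm n' ℓ a)
    (hl : Tendsto (d00 n n') atTop (𝓝 0)) : Tendsto (dcl n n' ℓ a) atTop (𝓝 0) := by
  have hne : NeZero ℓ := ⟨hA.1.ne_zero⟩
  set W := Subgroup.zpowers (un h.h0) with hW
  have h1 : Tendsto (er W 1 (CF ℓ) (ct ℓ a)) atTop (𝓝 0) := by
    rw [Metric.tendsto_nhds]
    intro ε hε
    have h2 := abs_mono (F := CF ℓ) (F' := Q0) (k := 1) (k' := 1) (ct_conj ℓ a) univ_conj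
      (zpow_fg (un h.h0)) (pos_n h) one_ne_zero dvd_rfl
      (Eventually.of_forall fun p hp _ => GF_all hp) (show 0 < ε / 2 by linarith)
    have h3 := (Metric.tendsto_nhds.1 hl) (ε / 2) (by linarith)
    filter_upwards [h2, h3] with x hx2 hx3
    rw [Real.dist_eq, sub_zero, d00_eq h] at hx3
    rw [Real.dist_eq, sub_zero]
    unfold er at hx3 ⊢
    rw [abs_sub_comm] at hx3 ⊢
    linarith
  have h2 := h1.add (dcl_close h hA)
  rw [add_zero] at h2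
  exact h2.congr fun x => by ring

/-- **descent from one residue class for each modulus** -/
theorem law_of_class (h : Good n n') (T : Set ℕ) (a : ℕ → ℕ) (hT : ∀ ℓ ∈ T, Adm n' ℓ (a ℓ))
    (hsum : ¬ Summable fun ℓ : T => 1 / ((ℓ : ℕ) : ℝ))
    (hl : ∀ ℓ ∈ T, Tendsto (dcl n n' ℓ (a ℓ)) atTop (𝓝 0)) :
    Tendsto (d00 n n') atTop (𝓝 0) := by
  classical
  rw [Metric.tendsto_nhds]
  intro ε hε
  obtain ⟨s, hs⟩ : ∃ s : Finset T, 8 / ε ^ 2 < ∑ ℓ ∈ s, 1 / ((ℓ : ℕ) : ℝ) := by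
    by_contra hcon
    push Not at hcon
    exact hsum (summable_of_sum_le (fun i => by positivity) hcon)
  set S : Finset ℕ := s.map (Function.Embedding.subtype _) with hS
  have hST : ∀ ℓ ∈ S, ℓ ∈ T := by
    intro ℓ hℓ
    rw [hS, Finset.mem_map] at hℓ
    obtain ⟨x, -, rfl⟩ := hℓ
    exact x.2
  have hSsum : 8 / ε ^ 2 < ∑ ℓ ∈ S, 1 / (ℓ : ℝ) := by
    rw [hS, Finset.sum_map]
    exact hs
  have hb := bessel_class h S a (fun ℓ hℓ => hT ℓ (hST ℓ hℓ)) one_pos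
  have hd : ∀ᶠ x in atTop, ∀ ℓ ∈ S, |((ℓ : ℝ) - 1) * dcl n n' ℓ (a ℓ) x| < ε / 2 := by
    rw [Finset.eventually_all]
    intro ℓ hℓ
    have h1 := (hl ℓ (hST ℓ hℓ)).const_mul ((ℓ : ℝ) - 1)
    rw [mul_zero] at h1
    have h2 := (Metric.tendsto_nhds.1 h1) (ε / 2) (by linarith)
    filter_upwards [h2] with x hx
    rwa [Real.dist_eq, sub_zero] at hx
  filter_upwards [hb, hd] with x x1 x2
  rw [Real.dist_eq, sub_zero]
  by_contra hcon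
  push Not at hcon
  set e := d00 n n' x with he
  have hterm : ∀ ℓ ∈ S, e ^ 2 / 4 * (1 / (ℓ : ℝ)) ≤
      (((ℓ : ℝ) - 1) * dcl n n' ℓ (a ℓ) x - e) ^ 2 / ((ℓ : ℝ) - 2) := by
    intro ℓ hℓ
    have h2 := two_lt (hT ℓ (hST ℓ hℓ))
    have h3 : 0 < (ℓ : ℝ) - 2 := by linarith
    have h4 := x2 ℓ hℓ
    have h5 : |e| / 2 ≤ |((ℓ : ℝ) - 1) * dcl n n' ℓ (a ℓ) x - e| := by
      have h6 := abs_sub_abs_le_abs_sub e (((ℓ : ℝ) - 1) * dcl n n' ℓ (a ℓ) x)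
      rw [abs_sub_comm] at h6
      linarith
    have h6 : e ^ 2 / 4 ≤ (((ℓ : ℝ) - 1) * dcl n n' ℓ (a ℓ) x - e) ^ 2 := by
      rw [← sq_abs (((ℓ : ℝ) - 1) * dcl n n' ℓ (a ℓ) x - e), ← sq_abs e]
      have h7 : (|e| / 2) ^ 2 ≤ |((ℓ : ℝ) - 1) * dcl n n' ℓ (a ℓ) x - e| ^ 2 :=
        pow_le_pow_left₀ (by positivity) h5 2
      linarith [h7, (by ring : (|e| / 2) ^ 2 = |e| ^ 2 / 4)]
    calc e ^ 2 / 4 * (1 / (ℓ : ℝ)) ≤ e ^ 2 / 4 * (1 / ((ℓ : ℝ) - 2)) := by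
          refine mul_le_mul_of_nonneg_left ?_ (by positivity)
          exact one_div_le_one_div_of_le h3 (by linarith)
      _ = (e ^ 2 / 4) / ((ℓ : ℝ) - 2) := by ring
      _ ≤ _ := div_le_div_of_nonneg_right h6 h3.le
  have hsum2 := Finset.sum_le_sum hterm
  rw [← Finset.mul_sum] at hsum2
  have h8 : e * (1 - e) + 1 ≤ 5 / 4 := by nlinarith [sq_nonneg (e - 1 / 2)]
  have h9 : e ^ 2 / 4 * (8 / ε ^ 2) ≤ e ^ 2 / 4 * ∑ ℓ ∈ S, 1 / (ℓ : ℝ) :=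
    mul_le_mul_of_nonneg_left hSsum.le (by positivity)
  have h10 : ε ^ 2 ≤ e ^ 2 := by
    rw [← sq_abs e]
    exact pow_le_pow_left₀ hε.le hcon 2
  have h11 : (2 : ℝ) ≤ e ^ 2 / 4 * (8 / ε ^ 2) := by
    have h12 : e ^ 2 / 4 * (8 / ε ^ 2) = 2 * (e ^ 2 / ε ^ 2) := by
      field_simp
      ring
    rw [h12]
    have h13 : 1 ≤ e ^ 2 / ε ^ 2 := by
      rw [one_le_div (by positivity)]
      exact h10
    linarith
  linarith

end Pool.Agent.Helper644_LA
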