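import Pool.Agent.Helper644_LA.Trunc

/-! # Comparison of the errors in Lenstra's problem -/

set_option autoImplicit false
set_option linter.unusedSectionVars false

namespace Pool.Agent.Helper644_LA

open NumberField Filter Topology Finset IntermediateField
open Pool.Agent.W401.Cheb
open Pool.Agent.W171.LG
open Pool.Agent.H386R2.Artin (PP LC_pos)
open Pool.Agent.H981R3.LN (ql Sk mem_Sk mem_PP Sk_dvd Sk_prime Qn Qn_dvd Qn_pos SL mem_SL prod_ql_pos)

open Classical in
/-- indicator function -/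
noncomputable def ind (A : ℕ → Prop) (p : ℕ) : ℝ := if A p then 1 else 0

lemma ind_pos {A : ℕ → Prop} {p : ℕ} (h : A p) : ind A p = 1 := if_pos h

lemma ind_neg {A : ℕ → Prop} {p : ℕ} (h : ¬ A p) : ind A p = 0 := if_neg h

lemma ind_nonneg (A : ℕ → Prop) (p : ℕ) : 0 ≤ ind A p := by
  by_cases h : A p
  · rw [ind_pos h]
    norm_num
  · rw [ind_neg h]

section
variable (F : IntermediateField ℚ QA) [NumberField F] [IsGalois ℚ F] (C : Set Gal(F/ℚ))
  (W : Subgroup ℚˣ) (k : ℕ)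

open Classical in
/-- the proportion of the primes `≤ x` which lie in the set of the problem -/
noncomputable def mS (x : ℕ) : ℝ := M (fun p => if LC F C k W p then 1 else 0) x

/-- Lenstra's density -/
noncomputable def dL : ℝ := ∑' n : ℕ, tW F C W k n

lemma mS_eq (x : ℕ) : mS F C W k x = (Sc F C W k x : ℝ) / (Nat.primeCounting x : ℝ) := by
  classical
  unfold mS M
  rw [Sc_eq]
  congr 1
  rw [Finset.sum_boole]
  congr 2
  ext p
  rw [Finset.mem_filter, Finset.mem_filter, mem_pr, Finset.mem_range, Nat.lt_succ_iff, and_assoc]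

lemma mS_nonneg (x : ℕ) : 0 ≤ mS F C W k x := by
  classical
  unfold mS
  refine M_nonneg (fun p _ => ?_) x
  split_ifs <;> norm_num

variable {F C W k}

lemma ql_dvd_iff {p : ℕ} [Fact p.Prime] (hU : UnW W p) (hk : k ≠ 0) :
    LC F C k W p ↔ GF F C p ∧ ∀ l : ℕ, l.Prime → ¬ PW W (ql k l) p := by
  have hp1 : p - 1 ≠ 0 := (LC_pos (p := p)).ne'
  unfold LC
  rw [← unW_iff]
  constructor
  · rintro ⟨h1, -, h3⟩
    refine ⟨h1, fun l hl hPW => ?_⟩
    exact (idx_iff hU hk).1 h3 l ((mem_Sk hp1).2 ⟨hl, hPW.1⟩) hPW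
  · rintro ⟨h1, h2⟩
    exact ⟨h1, hU, (idx_iff hU hk).2 fun l hl => h2 l (Sk_prime hl)⟩

lemma unW_of_LC {p : ℕ} [Fact p.Prime] (h : LC F C k W p) : UnW W p :=
  (unW_iff W).2 h.2.1

lemma G_of_LC {p : ℕ} [Fact p.Prime] (hk : k ≠ 0) (y : ℕ) (h : LC F C k W p) : G F C W k y p := by
  have h1 := (ql_dvd_iff (unW_of_LC h) hk).1 h
  exact ⟨h1.1, fun l hl => h1.2 l (mem_PP.1 hl).2⟩

lemma G_anti {p : ℕ} {y y' : ℕ} (h : y ≤ y') (hG : G F C W k y' p) : G F C W k y p :=
  ⟨hG.1, fun l hl => hG.2 l (mem_PP.2 ⟨(mem_PP.1 hl).1.trans h, (mem_PP.1 hl).2⟩)⟩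

lemma dT_anti (hC : ∀ σ ∈ C, ∀ τ : Gal(F/ℚ), τ * σ * τ⁻¹ ∈ C) (hW : W.FG) {y y' : ℕ}
    (h : y ≤ y') : dT F C W k y' ≤ dT F C W k y := by
  classical
  refine le_of_tendsto_of_tendsto' (trunc F C W k hC hW y') (trunc F C W k hC hW y) fun x => ?_
  refine M_mono (fun p _ => ?_) x
  by_cases h1 : G F C W k y' p
  · rw [if_pos h1, if_pos (G_anti h h1)]
  · rw [if_neg h1]
    split_ifs <;> norm_num

lemma dL_le (hC : ∀ σ ∈ C, ∀ τ : Gal(F/ℚ), τ * σ * τ⁻¹ ∈ C) (hW : W.FG) (hP : Pos W) (y : ℕ) :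
    dL F C W k ≤ dT F C W k y := by
  refine le_of_tendsto (dT_tendsto F C k hW hP) ?_
  filter_upwards [eventually_ge_atTop y] with y' hy
  exact dT_anti hC hW hy

/-- the upper bound -/
theorem up (hC : ∀ σ ∈ C, ∀ τ : Gal(F/ℚ), τ * σ * τ⁻¹ ∈ C) (hW : W.FG) (hP : Pos W) (hk : k ≠ 0)
    {ε : ℝ} (hε : 0 < ε) : ∀ᶠ x in atTop, mS F C W k x ≤ dL F C W k + ε := by
  classical
  have h1 : ∀ᶠ y in atTop, dT F C W k y < dL F C W k + ε / 2 :=
    (dT_tendsto F C k hW hP).eventually (gt_mem_nhds (by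
      show dL F C W k < _
      linarith))
  obtain ⟨y, hy⟩ := h1.exists
  have h2 := (trunc F C W k hC hW y).eventually (gt_mem_nhds (show dT F C W k y <
    dT F C W k y + ε / 2 by linarith))
  filter_upwards [h2] with x hx
  have h3 : mS F C W k x ≤ M (fun p => if G F C W k y p then 1 else 0) x := by
    unfold mS
    refine M_mono (fun p hp => ?_) x
    have : Fact p.Prime := ⟨hp⟩
    by_cases h4 : LC F C k W p
    · rw [if_pos h4, if_pos (G_of_LC hk y h4)]
    · rw [if_neg h4]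
      split_ifs <;> norm_num
  linarith

open Classical in
/-- the means of finite sets of primes -/
lemma M_fin {D : ℕ} (hD : 0 < D) : Tendsto (M fun p => if p ∣ D then 1 else 0) atTop (𝓝 0) := by
  refine M_congr hD (b := fun _ => 0) (fun p _ hp => if_neg hp) ?_
  refine tendsto_const_nhds.congr fun x => ?_
  unfold M
  simp

open Classical in
/-- the lower bound -/
theorem comp (hC : ∀ σ ∈ C, ∀ τ : Gal(F/ℚ), τ * σ * τ⁻¹ ∈ C) (hW : W.FG) (hP : Pos W)
    {A : ℕ → Prop} (y : ℕ) {D : ℕ} (hD : 0 < D)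
    (h : ∀ p : ℕ, p.Prime → ¬ p ∣ D → G F C W k y p → ¬ LC F C k W p → A p)
    {ε : ℝ} (hε : 0 < ε) : ∀ᶠ x in atTop,
      dL F C W k - mS F C W k x ≤ M (ind A) x + ε := by
  have h1 := (trunc F C W k hC hW y).eventually (lt_mem_nhds (show dT F C W k y - ε / 2 <
    dT F C W k y by linarith))
  have h2 := (M_fin hD).eventually (gt_mem_nhds (show (0 : ℝ) < ε / 2 by linarith))
  have h0 := dL_le (k := k) hC hW hP y
  filter_upwards [h1, h2] with x hx1 hx2
  have h3 : M (fun p => if G F C W k y p then 1 else 0) x ≤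
      M (fun p => ((if LC F C k W p then 1 else 0) + ind A p) +
        (if p ∣ D then 1 else 0)) x := by
    refine M_mono (fun p hp => ?_) x
    by_cases h4 : G F C W k y p
    · rw [if_pos h4]
      by_cases h5 : p ∣ D
      · rw [if_pos h5]
        have a1 : (0 : ℝ) ≤ if LC F C k W p then 1 else 0 := by split_ifs <;> norm_num
        have a2 := ind_nonneg A p
        linarith
      · rw [if_neg h5, add_zero]
        by_cases h6 : LC F C k W p
        · rw [if_pos h6]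
          have a2 := ind_nonneg A p
          linarith
        · rw [if_neg h6, ind_pos (h p hp h5 h4 h6)]
          norm_num
    · rw [if_neg h4]
      have a1 : (0 : ℝ) ≤ if LC F C k W p then 1 else 0 := by split_ifs <;> norm_num
      have a2 := ind_nonneg A p
      have a3 : (0 : ℝ) ≤ if p ∣ D then 1 else 0 := by split_ifs <;> norm_num
      linarith
  rw [M_add, M_add] at h3
  have h4 : M (fun p => if LC F C k W p then 1 else 0) x = mS F C W k x := rfl
  rw [h4] at h3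
  linarith

lemma PW_of_dvd {q q' p : ℕ} [Fact p.Prime] (hq : q' ∣ q) (h : PW W q p) : PW W q' p := by
  have hp1 : p - 1 ≠ 0 := (LC_pos (p := p)).ne'
  obtain ⟨t, rfl⟩ := hq
  obtain ⟨⟨s, hs⟩, h2⟩ := h
  have hq' : 0 < q' := Nat.pos_of_ne_zero (by
    rintro rfl
    rw [zero_mul, zero_mul] at hs
    exact hp1 hs)
  have ht : 0 < t := Nat.pos_of_ne_zero (by
    rintro rfl
    rw [mul_zero, zero_mul] at hs
    exact hp1 hs)
  refine ⟨⟨t * s, by rw [hs]; ring⟩, fun w hw => ?_⟩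
  have e1 : (p - 1) / (q' * t) = s := by
    rw [hs]
    exact Nat.mul_div_cancel_left s (Nat.mul_pos hq' ht)
  have e2 : (p - 1) / q' = s * t := by
    rw [hs, mul_assoc, Nat.mul_div_cancel_left _ hq']
    ring
  have h3 := h2 w hw
  rw [e1] at h3
  rw [e2, pow_mul, h3, one_pow]

lemma ql_of_lt {k l : ℕ} (hk : k ≠ 0) (h : k < l) : ql k l = l := by
  unfold ql
  rw [Nat.factorization_eq_zero_of_not_dvd (fun h1 => by
    have := Nat.le_of_dvd (Nat.pos_of_ne_zero hk) h1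
    omega)]
  simp

lemma ql_dvd_ql {k k' : ℕ} (hk : k ≠ 0) (h : k' ∣ k) (l : ℕ) : ql k' l ∣ ql k l := by
  unfold ql
  have hk' : k' ≠ 0 := by
    rintro rfl
    exact hk (Nat.eq_zero_of_zero_dvd h)
  refine pow_dvd_pow l ?_
  have := (Nat.factorization_le_iff_dvd hk' hk).2 h l
  omega

end

section
variable {F F' : IntermediateField ℚ QA} [NumberField F] [IsGalois ℚ F] [NumberField F']
  [IsGalois ℚ F'] {C : Set Gal(F/ℚ)} {C' : Set Gal(F'/ℚ)} {W : Subgroup ℚˣ} {k k' : ℕ}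

/-- the error grows with the Frobenius condition and with `k` -/
theorem mono_err (hC : ∀ σ ∈ C, ∀ τ : Gal(F/ℚ), τ * σ * τ⁻¹ ∈ C)
    (hC' : ∀ σ ∈ C', ∀ τ : Gal(F'/ℚ), τ * σ * τ⁻¹ ∈ C') (hW : W.FG) (hP : Pos W)
    (hk : k ≠ 0) (hkk : k' ∣ k) {D : ℕ} (hD : 0 < D)
    (hF : ∀ p : ℕ, p.Prime → ¬ p ∣ D → GF F C p → GF F' C' p) {ε : ℝ} (hε : 0 < ε) :
    ∀ᶠ x in atTop, dL F C W k' - mS F C W k' x ≤ dL F' C' W k - mS F' C' W k x + ε := by
  classical
  have hk' : k' ≠ 0 := by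
    rintro rfl
    exact hk (Nat.eq_zero_of_zero_dvd hkk)
  have h1 : ∀ᶠ y in atTop, dT F' C' W k y < dL F' C' W k + ε / 3 :=
    (dT_tendsto F' C' k hW hP).eventually (gt_mem_nhds (by
      show dL F' C' W k < _
      linarith))
  obtain ⟨y, hy, hyk⟩ := (h1.and (eventually_ge_atTop k)).exists
  obtain ⟨D1, hD1, hU⟩ := exists_unW hW
  have h2 := comp (A := fun p => G F' C' W k y p ∧ ¬ LC F' C' k W p) (k := k') hC hW hP y
    (D := D * D1) (Nat.mul_pos hD hD1) (by
      intro p hp hpD hG hL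
      have : Fact p.Prime := ⟨hp⟩
      have hUp : UnW W p := hU p fun h => hpD (h.mul_left _)
      have hG' : GF F' C' p := hF p hp (fun h => hpD (h.mul_right _)) hG.1
      rw [ql_dvd_iff hUp hk'] at hL
      push Not at hL
      obtain ⟨l, hl, hPW⟩ := hL hG.1
      have hly : y < l := by
        by_contra hcon
        exact hG.2 l (mem_PP.2 ⟨not_lt.1 hcon, hl⟩) hPW
      have hkl : k < l := lt_of_le_of_lt hyk hly
      have hkl' : k' < l := lt_of_le_of_lt (Nat.le_of_dvd (Nat.pos_of_ne_zero hk) hkk) hkl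
      refine ⟨⟨hG', fun l' hl' hPW' => hG.2 l' hl' (PW_of_dvd (ql_dvd_ql hk hkk l') hPW')⟩, ?_⟩
      rw [ql_dvd_iff hUp hk]
      rintro ⟨-, h3⟩
      refine h3 l hl ?_
      rw [ql_of_lt hk hkl]
      rwa [ql_of_lt hk' hkl'] at hPW) (show 0 < ε / 3 by linarith)
  have h3 := (trunc F' C' W k hC' hW y).eventually (gt_mem_nhds (show dT F' C' W k y <
    dT F' C' W k y + ε / 3 by linarith))
  filter_upwards [h2, h3] with x hx2 hx3
  have h4 : M (fun p => ind (fun p => G F' C' W k y p ∧ ¬ LC F' C' k W p) p +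
      (if LC F' C' k W p then 1 else 0)) x ≤ M (fun p => if G F' C' W k y p then 1 else 0) x := by
    refine M_mono (fun p hp => ?_) x
    have : Fact p.Prime := ⟨hp⟩
    by_cases h5 : LC F' C' k W p
    · rw [if_pos h5, ind_neg (fun h => h.2 h5), if_pos (G_of_LC hk y h5)]
      norm_num
    · rw [if_neg h5, add_zero]
      by_cases h6 : G F' C' W k y p
      · rw [ind_pos ⟨h6, h5⟩, if_pos h6]
      · rw [if_neg h6, ind_neg (fun h => h6 h.1)]
  rw [M_add] at h4
  have h5 : M (fun p => if LC F' C' k W p then 1 else 0) x = mS F' C' W k x := rfl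
  rw [h5] at h4
  linarith

end

section
variable {F : IntermediateField ℚ QA} [NumberField F] [IsGalois ℚ F]
  {C : Set Gal(F/ℚ)} {W W' : Subgroup ℚˣ} {k k' : ℕ}

lemma rd_pow {p : ℕ} [Fact p.Prime] {w : ℚˣ} (h : Un p (w : ℚ)) (n : ℕ) :
    Un p (((w ^ n : ℚˣ)) : ℚ) ∧ rd p (((w ^ n : ℚˣ)) : ℚ) = rd p (w : ℚ) ^ n := by
  induction n with
  | zero =>
    rw [pow_zero, pow_zero, Units.val_one]
    exact ⟨by rw [un_iff one_ne_zero]; simp, rd_one⟩
  | succ n ih =>
    have h1 : Un p (((w ^ (n + 1) : ℚˣ)) : ℚ) := by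
      rw [pow_succ, Units.val_mul]
      exact un_mul ih.1 h
    refine ⟨h1, ?_⟩
    have h2 : (((w ^ (n + 1) : ℚˣ)) : ℚ) = ((w ^ n : ℚˣ) : ℚ) * (w : ℚ) := by
      rw [pow_succ, Units.val_mul]
    rw [h2] at h1 ⊢
    rw [rd_mul ih.1 h h1, ih.2, pow_succ]

/-- the error is at most the proportion of the primes for which the index is large -/
theorem tail_err (hC : ∀ σ ∈ C, ∀ τ : Gal(F/ℚ), τ * σ * τ⁻¹ ∈ C) (hW : W.FG) (hW' : W'.FG)
    (hP' : Pos W') {m : ℕ} (hm : m ≠ 0) (hWW : ∀ w ∈ W, w ^ m ∈ W') (hk : k ≠ 0) (hk' : k' ≠ 0)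
    {ε : ℝ} (hε : 0 < ε) :
    ∀ᶠ x in atTop, dL F C W' k' - mS F C W' k' x ≤ 1 - mS Q0 Set.univ W k x + ε := by
  classical
  obtain ⟨D1, hD1, hU⟩ := exists_unW hW
  obtain ⟨D2, hD2, hU'⟩ := exists_unW hW'
  have h2 := comp (A := fun p => ¬ LC Q0 Set.univ k W p) (k := k') hC hW' hP' (max (max k k') m)
    (D := D1 * D2) (Nat.mul_pos hD1 hD2) (by
      intro p hp hpD hG hL
      have : Fact p.Prime := ⟨hp⟩
      have hUp : UnW W p := hU p fun h => hpD (h.mul_right _)
      have hUp' : UnW W' p := hU' p fun h => hpD (h.mul_left _)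
      rw [ql_dvd_iff hUp' hk'] at hL
      push Not at hL
      obtain ⟨l, hl, hPW⟩ := hL hG.1
      have hly : max (max k k') m < l := by
        by_contra hcon
        exact hG.2 l (mem_PP.2 ⟨not_lt.1 hcon, hl⟩) hPW
      have hkl : k < l := lt_of_le_of_lt ((le_max_left _ _).trans (le_max_left _ _)) hly
      have hkl' : k' < l := lt_of_le_of_lt ((le_max_right _ _).trans (le_max_left _ _)) hly
      have hml : m < l := lt_of_le_of_lt (le_max_right _ _) hly
      rw [ql_of_lt hk' hkl'] at hPW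
      rw [ql_dvd_iff hUp hk]
      rintro ⟨-, h3⟩
      refine h3 l hl ?_
      rw [ql_of_lt hk hkl]
      refine ⟨hPW.1, fun w hw => ?_⟩
      have h4 := hPW.2 _ (hWW w hw)
      rw [(rd_pow (hUp w hw) m).2, ← pow_mul, mul_comm, pow_mul] at h4
      have h5 : (rd p (w : ℚ) ^ ((p - 1) / l)) ^ l = 1 := by
        rw [← pow_mul, Nat.div_mul_cancel hPW.1]
        exact ZMod.pow_card_sub_one_eq_one (rd_ne (hUp w hw))
      have hcop : Nat.Coprime m l := by
        rw [Nat.coprime_comm, hl.coprime_iff_not_dvd]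
        intro h6
        have := Nat.le_of_dvd (Nat.pos_of_ne_zero hm) h6
        omega
      have h6 : orderOf (rd p (w : ℚ) ^ ((p - 1) / l)) ∣ Nat.gcd m l :=
        Nat.dvd_gcd (orderOf_dvd_of_pow_eq_one h4) (orderOf_dvd_of_pow_eq_one h5)
      rw [hcop, Nat.dvd_one, orderOf_eq_one_iff] at h6
      exact h6) (show 0 < ε / 2 by linarith)
  have h3 := M_one.eventually (gt_mem_nhds (show (1 : ℝ) < 1 + ε / 2 by linarith))
  filter_upwards [h2, h3] with x hx2 hx3
  have h4 : M (fun p => ind (fun p => ¬ LC Q0 Set.univ k W p) p +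
      (if LC Q0 Set.univ k W p then 1 else 0)) x = M (fun _ => 1) x := by
    congr 1
    funext p
    by_cases h5 : LC Q0 Set.univ k W p
    · rw [if_pos h5, ind_neg (not_not.2 h5)]
      norm_num
    · rw [if_neg h5, ind_pos h5]
      norm_num
  rw [M_add] at h4
  have h5 : M (fun p => if LC Q0 Set.univ k W p then 1 else 0) x = mS Q0 Set.univ W k x := rfl
  rw [h5] at h4
  linarith

end

end Pool.Agent.Helper644_LA
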