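import Pool.Agent.Helper644_LA.Deg
import Pool.Agent.Helper644_LA.Comp
import Pool.Agent.H386R2.Artin.ArtinLim

/-! # Artin's constant with the correction factor -/

set_option autoImplicit false
set_option linter.unusedSectionVars false

namespace Pool.Agent.Helper644_LA

open NumberField IntermediateField Finset Filter Topology
open Pool.Agent.W171.LG
open Pool.Agent.H386R2.Artin (PP artinL artinC artinLim)
open Pool.Agent.H981R3.LN (ql mem_PP Qn SL)
open Pool.Agent.H730R2.AA.Euler (mu_eq_prod)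

variable {n n' : ℤ}

/-- the primes dividing `2 n'` -/
def DD (n' : ℤ) : Finset ℕ := insert 2 n'.natAbs.primeFactors

lemma DD_prime {l : ℕ} (hl : l ∈ DD n') : l.Prime := by
  unfold DD at hl
  rw [Finset.mem_insert] at hl
  rcases hl with rfl | hl
  · exact Nat.prime_two
  · exact Nat.prime_of_mem_primeFactors hl

lemma mem_of_dvd_prod {K : Finset ℕ} (hK : ∀ l ∈ K, l.Prime) {q : ℕ} (hq : q.Prime)
    (h : q ∣ ∏ l ∈ K, l) : q ∈ K := by
  rw [hq.prime.dvd_finsetProd_iff] at h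
  obtain ⟨l, hl, hql⟩ := h
  rwa [(Nat.prime_dvd_prime_iff_eq hq (hK l hl)).1 hql]

lemma tot_prod : ∀ S : Finset ℕ, (∀ l ∈ S, l.Prime) →
    ((Nat.totient (∏ l ∈ S, l) : ℕ) : ℝ) = ∏ l ∈ S, ((l : ℝ) - 1) := by
  intro S
  induction S using Finset.induction_on with
  | empty => intro _; simp
  | insert l S hl ih =>
    intro h
    rw [Finset.prod_insert hl, Finset.prod_insert hl, Nat.totient_mul]
    · push_cast
      rw [ih fun x hx => h x (mem_insert_of_mem hx), Nat.totient_prime (h l (mem_insert_self _ _)),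
        Nat.cast_sub (h l (mem_insert_self _ _)).one_lt.le]
      simp
    · apply Nat.Coprime.prod_right
      intro x hx
      rw [Nat.coprime_primes (h l (mem_insert_self _ _)) (h x (mem_insert_of_mem hx))]
      rintro rfl
      exact hl hx

/-- the local factors -/
noncomputable def al (l : ℕ) : ℝ := 1 / ((l : ℝ) * ((l : ℝ) - 1))

open Classical in
lemma inv_deg (h : Good n n') {K : Finset ℕ} (hK : ∀ l ∈ K, l.Prime) :
    1 / (Module.finrank ℚ (Lf QA (Subgroup.zpowers (un h.h0)) (∏ l ∈ K, l) :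
      IntermediateField ℚ QA) : ℝ) = (∏ l ∈ K, al l) * (if DD n' ⊆ K then 2 else 1) := by
  have hd : 0 < ∏ l ∈ K, l := Finset.prod_pos fun l hl => (hK l hl).pos
  have hprod : ∏ l ∈ K, al l =
      1 / (((∏ l ∈ K, l : ℕ) : ℝ) * (Nat.totient (∏ l ∈ K, l) : ℝ)) := by
    rw [tot_prod K hK]
    unfold al
    push_cast
    rw [Finset.prod_div_distrib, Finset.prod_const_one, Finset.prod_mul_distrib]
  by_cases hD : DD n' ⊆ K
  · rw [if_pos hD]
    have h2 : 2 ∈ K := hD (Finset.mem_insert_self _ _)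
    have he : ∏ l ∈ K, l = 2 * ∏ l ∈ K.erase 2, l := (Finset.mul_prod_erase K _ h2).symm
    set e := ∏ l ∈ K.erase 2, l with hed
    have he0 : 0 < e := Finset.prod_pos fun l hl => (hK l (Finset.mem_of_mem_erase hl)).pos
    have he2 : ¬ 2 ∣ e := fun h' => by
      have := mem_of_dvd_prod (fun l hl => hK l (Finset.mem_of_mem_erase hl)) Nat.prime_two h'
      exact (Finset.notMem_erase 2 K) this
    have hB : ∀ q ∈ n'.natAbs.primeFactors, q ∣ 2 * e := by
      intro q hq
      rw [← he]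
      exact Finset.dvd_prod_of_mem _ (hD (Finset.mem_insert_of_mem hq))
    rw [hprod, he, deg_B h he0 he2 hB]
    have h3 : (0 : ℝ) < e := by exact_mod_cast he0
    have h4 : (0 : ℝ) < Nat.totient (2 * e) := by
      exact_mod_cast Nat.totient_pos.2 (by omega : 0 < 2 * e)
    push_cast
    field_simp
  · rw [if_neg hD, mul_one, hprod]
    have hA : ¬ 2 ∣ ∏ l ∈ K, l ∨ ∃ q : ℕ, q.Prime ∧ (q : ℤ) ∣ n' ∧ ¬ q ∣ ∏ l ∈ K, l := by
      rw [Finset.not_subset] at hD
      obtain ⟨q, hq, hqK⟩ := hD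
      unfold DD at hq
      rw [Finset.mem_insert] at hq
      rcases hq with rfl | hq
      · exact Or.inl fun h' => hqK (mem_of_dvd_prod hK Nat.prime_two h')
      · exact Or.inr ⟨q, Nat.prime_of_mem_primeFactors hq,
          Int.natCast_dvd.2 (Nat.dvd_of_mem_primeFactors hq),
          fun h' => hqK (mem_of_dvd_prod hK (Nat.prime_of_mem_primeFactors hq) h')⟩
    rw [deg_A h hd hA]
    push_cast
    rw [mul_comm]

/-- the constant of Q1 -/
noncomputable def corr (n' : ℤ) : ℝ :=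
  1 - ((ArithmeticFunction.moebius n'.natAbs : ℤ) : ℝ) *
    ∏ q ∈ n'.natAbs.primeFactors, (1 / ((q : ℝ) ^ 2 - (q : ℝ) - 1))

lemma dT_eq (h : Good n n') {y : ℕ} (hy : DD n' ⊆ PP y) :
    dT Q0 Set.univ (Subgroup.zpowers (un h.h0)) 1 y = artinL y * corr n' := by
  classical
  have e0 : dT Q0 Set.univ (Subgroup.zpowers (un h.h0)) 1 y = ∑ K ∈ (PP y).powerset,
      ((-1 : ℝ) ^ #K * ∏ l ∈ K, al l) * (if DD n' ⊆ K then 2 else 1) := by
    unfold dT SL
    rw [Finset.sum_image]
    · refine Finset.sum_congr rfl fun K hK => ?_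
      rw [mem_powerset] at hK
      have hp : ∀ l ∈ K, l.Prime := fun l hl => (mem_PP.1 (hK hl)).2
      have h1 : (∏ l ∈ K, l).primeFactors = K := Nat.primeFactors_prod hp
      have hsq : Squarefree (∏ l ∈ K, l) := Pool.Agent.H771R4.AQ.sqf_prod K hp
      have h2 : Qn 1 (∏ l ∈ K, l) = ∏ l ∈ K, l := by
        unfold Qn
        rw [h1]
        exact Finset.prod_congr rfl fun l _ => ql_one l
      unfold tW
      rw [mu_eq_prod _ hsq, h1, Finset.prod_const, h2, cE_triv, Nat.cast_one, mul_one, bot_sup_eq,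
        mul_assoc, ← inv_deg h hp, mul_one_div]
    · intro K hK K' hK' h
      simp only [Finset.coe_powerset, Set.mem_preimage, Set.mem_powerset_iff, Finset.coe_subset]
        at hK hK'
      have h1 : (∏ l ∈ K, l).primeFactors = K :=
        Nat.primeFactors_prod fun l hl => (mem_PP.1 (hK hl)).2
      have h2 : (∏ l ∈ K', l).primeFactors = K' :=
        Nat.primeFactors_prod fun l hl => (mem_PP.1 (hK' hl)).2
      rw [← h1, ← h2]
      exact congrArg Nat.primeFactors h
  have e1 : artinL y = ∑ K ∈ (PP y).powerset, (-1 : ℝ) ^ #K * ∏ l ∈ K, al l := by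
    unfold artinL
    have h1 : ∏ l ∈ PP y, (1 - 1 / ((l : ℝ) * ((l : ℝ) - 1))) = ∏ l ∈ PP y, (-al l + 1) :=
      Finset.prod_congr rfl fun l _ => by
        unfold al
        ring
    rw [h1, Finset.prod_add]
    refine Finset.sum_congr rfl fun K _ => ?_
    rw [Finset.prod_const_one, mul_one, Finset.prod_neg]
  have e2 : ∏ l ∈ PP y, (-al l + (if l ∈ DD n' then 0 else 1)) =
      ∑ K ∈ (PP y).powerset, ((-1 : ℝ) ^ #K * ∏ l ∈ K, al l) * (if DD n' ⊆ K then 1 else 0) := by
    rw [Finset.prod_add]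
    refine Finset.sum_congr rfl fun K hK => ?_
    rw [mem_powerset] at hK
    rw [Finset.prod_neg]
    congr 1
    by_cases hD : DD n' ⊆ K
    · rw [if_pos hD]
      refine Finset.prod_eq_one fun l hl => ?_
      rw [Finset.mem_sdiff] at hl
      rw [if_neg fun h' => hl.2 (hD h')]
    · rw [if_neg hD]
      rw [Finset.not_subset] at hD
      obtain ⟨q, hq, hqK⟩ := hD
      exact Finset.prod_eq_zero (Finset.mem_sdiff.2 ⟨hy hq, hqK⟩) (if_pos hq)
  have e3 : ∏ l ∈ PP y, (-al l + (if l ∈ DD n' then 0 else 1)) =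
      artinL y * ∏ l ∈ DD n', (-(1 / ((l : ℝ) ^ 2 - (l : ℝ) - 1))) := by
    unfold artinL
    rw [← Finset.prod_sdiff hy, ← Finset.prod_sdiff hy (f := fun l : ℕ =>
      (1 - 1 / ((l : ℝ) * ((l : ℝ) - 1)))), mul_assoc]
    congr 1
    · refine Finset.prod_congr rfl fun l hl => ?_
      rw [Finset.mem_sdiff] at hl
      rw [if_neg hl.2]
      unfold al
      ring
    · rw [← Finset.prod_mul_distrib]
      refine Finset.prod_congr rfl fun l hl => ?_
      rw [if_pos hl, add_zero]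
      unfold al
      have hl2 : (2 : ℝ) ≤ l := by exact_mod_cast (DD_prime hl).two_le
      have h1 : (l : ℝ) * ((l : ℝ) - 1) ≠ 0 := by
        have : 0 < (l : ℝ) * ((l : ℝ) - 1) := mul_pos (by linarith) (by linarith)
        exact this.ne'
      have h2 : (l : ℝ) ^ 2 - (l : ℝ) - 1 ≠ 0 := by
        have : 0 < (l : ℝ) ^ 2 - (l : ℝ) - 1 := by nlinarith
        exact this.ne'
      have h3 : (1 : ℝ) - 1 / ((l : ℝ) * ((l : ℝ) - 1)) =
          ((l : ℝ) ^ 2 - (l : ℝ) - 1) / ((l : ℝ) * ((l : ℝ) - 1)) := by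
        rw [eq_div_iff h1, sub_mul, one_div, inv_mul_cancel₀ h1]
        ring
      have h5 : ((l : ℝ) ^ 2 - (l : ℝ) - 1) / ((l : ℝ) * ((l : ℝ) - 1)) *
          (-(1 / ((l : ℝ) ^ 2 - (l : ℝ) - 1))) = -(1 / ((l : ℝ) * ((l : ℝ) - 1))) := by
        rw [mul_neg, div_mul_div_comm, mul_one,
          mul_comm ((l : ℝ) * ((l : ℝ) - 1)) ((l : ℝ) ^ 2 - (l : ℝ) - 1), ← div_div, div_self h2]
      rw [h3, h5]
  have hmu : ∏ l ∈ DD n', (-(1 / ((l : ℝ) ^ 2 - (l : ℝ) - 1))) =
      -(((ArithmeticFunction.moebius n'.natAbs : ℤ) : ℝ) *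
        ∏ q ∈ n'.natAbs.primeFactors, (1 / ((q : ℝ) ^ 2 - (q : ℝ) - 1))) := by
    have h2 : 2 ∉ n'.natAbs.primeFactors := by
      intro h'
      have h1 : (2 : ℤ) ∣ n' := Int.natCast_dvd.2 (Nat.dvd_of_mem_primeFactors h')
      have := h.h4
      omega
    unfold DD
    rw [Finset.prod_insert h2, mu_eq_prod _ (Int.squarefree_natAbs.2 h.hsq), Finset.prod_neg,
      Finset.prod_const]
    norm_num
  have hsum : ∑ K ∈ (PP y).powerset,
      ((-1 : ℝ) ^ #K * ∏ l ∈ K, al l) * (if DD n' ⊆ K then 2 else 1) =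
      (∑ K ∈ (PP y).powerset, (-1 : ℝ) ^ #K * ∏ l ∈ K, al l) +
      ∑ K ∈ (PP y).powerset, ((-1 : ℝ) ^ #K * ∏ l ∈ K, al l) * (if DD n' ⊆ K then 1 else 0) := by
    rw [← Finset.sum_add_distrib]
    refine Finset.sum_congr rfl fun K _ => ?_
    split_ifs <;> ring
  rw [e0, hsum, ← e1, ← e2, e3, hmu]
  unfold corr
  ring

/-- **the value of Lenstra's density** -/
theorem dL_eq (h : Good n n') (hP : Pos (Subgroup.zpowers (un h.h0))) :
    dL Q0 Set.univ (Subgroup.zpowers (un h.h0)) 1 = corr n' * artinC := by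
  have h1 := dT_tendsto Q0 Set.univ 1
    (W := Subgroup.zpowers (un h.h0)) ⟨{un h.h0}, by simp [Subgroup.zpowers_eq_closure]⟩ hP
  have h2 : Tendsto (dT Q0 Set.univ (Subgroup.zpowers (un h.h0)) 1) atTop
      (𝓝 (artinC * corr n')) := by
    refine (artinLim.mul_const (corr n')).congr' ?_
    filter_upwards [eventually_ge_atTop ((DD n').sup id)] with y hy
    refine (dT_eq h fun l hl => mem_PP.2 ⟨?_, DD_prime hl⟩).symm
    exact (Finset.le_sup (f := id) hl).trans hy
  have h3 := tendsto_nhds_unique h1 h2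
  unfold dL
  rw [h3, mul_comm]

end Pool.Agent.Helper644_LA
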