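import Pool.Agent.Helper644_LA.Desc

/-! # Primitive roots -/

set_option autoImplicit false
set_option linter.unusedSectionVars false

namespace Pool.Agent.Helper644_LA

open NumberField Filter Topology Finset IntermediateField
open Pool.Agent.W401.Cheb
open Pool.Agent.W171.LG
open Pool.Agent.H386R2.Artin (PP LC_pos)
open Pool.Agent.H981R3.LN (ql Sk mem_Sk mem_PP Sk_dvd Sk_prime Qn index_iff)

lemma ord_iff {p : ℕ} [Fact p.Prime] (a : ZMod p) : orderOf a = p - 1 ↔
    a ≠ 0 ∧ ∀ l ∈ Sk 1 (p - 1), a ^ ((p - 1) / ql 1 l) ≠ 1 := by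
  have hp1 : 0 < p - 1 := LC_pos
  rw [← index_iff one_ne_zero, Nat.dvd_one]
  constructor
  · intro h
    rw [h, Nat.div_self hp1]
  · intro h
    have ha : a ≠ 0 := by
      rintro rfl
      have h0 : orderOf (0 : ZMod p) = 0 := by
        rw [orderOf_eq_zero_iff']
        intro n hn h1
        rw [zero_pow hn.ne'] at h1
        exact zero_ne_one h1
      rw [h0, Nat.div_zero] at h
      exact zero_ne_one h
    have hm : orderOf a ∣ p - 1 := orderOf_dvd_of_pow_eq_one (ZMod.pow_card_sub_one_eq_one ha)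
    have := Nat.div_mul_cancel hm
    rw [h, one_mul] at this
    exact this

/-- the Frobenius condition over `ℚ` is no condition -/
lemma GF_all {p : ℕ} (hp : p.Prime) : GF Q0 Set.univ p := by
  obtain ⟨P, hP, hl⟩ := exists_over (K := Q0) hp
  have : Fact p.Prime := ⟨hp⟩
  have hover : P.comap (algebraMap ℤ (𝓞 Q0)) = Ideal.span {(p : ℤ)} := hl.over.symm
  refine ⟨1, Set.mem_univ _, P, hP, hover, ?_⟩
  intro a b hab
  have h1 : b = a := by
    apply RingOfIntegers.coe_injective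
    exact hab
  subst h1
  obtain ⟨q, hq⟩ : ∃ q : ℚ, algebraMap ℚ QA q = ((b : Q0) : QA) := by
    have := (b : Q0).2
    rw [IntermediateField.mem_bot] at this
    exact this
  have hint : IsIntegral ℤ q := by
    have h2 : IsIntegral ℤ ((b : Q0) : QA) := (RingOfIntegers.isIntegral_coe b).map
      (Q0.val.restrictScalars ℤ)
    rw [← hq] at h2
    exact (isIntegral_algebraMap_iff (algebraMap ℚ QA).injective).1 h2
  obtain ⟨z, hz⟩ := IsIntegrallyClosed.isIntegral_iff.1 hint
  have hbz : b = algebraMap ℤ (𝓞 Q0) z := by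
    apply RingOfIntegers.coe_injective
    apply Subtype.ext
    rw [← hq, ← hz]
    simp
  have h3 : (p : ℤ) ∣ z - z ^ p := by
    rw [← ZMod.intCast_zmod_eq_zero_iff_dvd]
    push_cast
    rw [ZMod.pow_card, sub_self]
  rw [hbz, ← map_pow, ← map_sub]
  have h4 : z - z ^ p ∈ P.comap (algebraMap ℤ (𝓞 Q0)) := by
    rw [hover, Ideal.mem_span_singleton]
    exact h3
  exact h4

variable {n n' : ℤ}

lemma un_int {p : ℕ} [Fact p.Prime] (h : n ≠ 0) :
    Un p ((un h : ℚˣ) : ℚ) ↔ (n : ZMod p) ≠ 0 := by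
  rw [un_val]
  unfold Un
  rw [Rat.num_intCast, Rat.den_intCast]
  simp

lemma rd_int {p : ℕ} [Fact p.Prime] (h : n ≠ 0) :
    rd p ((un h : ℚˣ) : ℚ) = (n : ZMod p) := by
  rw [un_val]
  unfold rd
  rw [Rat.num_intCast, Rat.den_intCast]
  simp

lemma PW_un {p : ℕ} [Fact p.Prime] (h : n ≠ 0) (hn : (n : ZMod p) ≠ 0) (q : ℕ) :
    PW (Subgroup.zpowers (un h)) q p ↔ q ∣ p - 1 ∧ (n : ZMod p) ^ ((p - 1) / q) = 1 := by
  rw [Subgroup.zpowers_eq_closure, PW_closure]
  · constructor
    · rintro ⟨h1, h2⟩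
      refine ⟨h1, ?_⟩
      have := h2 (un h) (Set.mem_singleton _)
      rwa [rd_int] at this
    · rintro ⟨h1, h2⟩
      refine ⟨h1, ?_⟩
      intro w hw
      rw [Set.mem_singleton_iff] at hw
      rw [hw, rd_int]
      exact h2
  · intro w hw
    rw [Set.mem_singleton_iff] at hw
    rw [hw, un_int]
    exact hn

/-- the set of the problem for `⟨n⟩` and `k = 1` -/
lemma LC_PR (F : IntermediateField ℚ QA) [NumberField F] [IsGalois ℚ F] (C : Set Gal(F/ℚ))
    (h : n ≠ 0) {p : ℕ} (hp : p.Prime) :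
    LC F C 1 (Subgroup.zpowers (un h)) p ↔ GF F C p ∧ orderOf (n : ZMod p) = p - 1 := by
  have : Fact p.Prime := ⟨hp⟩
  have hp1 : p - 1 ≠ 0 := (LC_pos (p := p)).ne'
  rw [ord_iff]
  by_cases hn : (n : ZMod p) = 0
  · constructor
    · intro hL
      exfalso
      have hU := unW_of_LC hL
      have := hU (un h) (Subgroup.mem_zpowers _)
      rw [un_int] at this
      exact this hn
    · rintro ⟨-, h2, -⟩
      exact absurd hn h2
  · have hU : UnW (Subgroup.zpowers (un h)) p := by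
      rw [Subgroup.zpowers_eq_closure]
      refine unW_closure fun w hw => ?_
      rw [Set.mem_singleton_iff] at hw
      rw [hw, un_int]
      exact hn
    rw [ql_dvd_iff hU one_ne_zero]
    refine and_congr_right fun _ => ?_
    constructor
    · intro h1
      refine ⟨hn, fun l hl h2 => h1 l (Sk_prime hl) ?_⟩
      rw [PW_un h hn]
      exact ⟨Sk_dvd hl, h2⟩
    · rintro ⟨-, h1⟩ l hl hPW
      rw [PW_un h hn] at hPW
      exact h1 l ((mem_Sk hp1).2 ⟨hl, hPW.1⟩) hPW.2

/-- the field of `m`-th roots of `1` and `n` -/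
noncomputable def Lr (n : ℤ) (m : ℕ) : IntermediateField ℚ (AlgebraicClosure ℚ) :=
  IntermediateField.adjoin ℚ {z : AlgebraicClosure ℚ | z ^ m = 1 ∨ z ^ m = (n : AlgebraicClosure ℚ)}

lemma Lr_eq (h : n ≠ 0) {m : ℕ} (hm : 0 < m) : Lf QA (Subgroup.zpowers (un h)) m = Lr n m := by
  have hval : algebraMap ℚ QA ((un h : ℚˣ) : ℚ) = (n : QA) := by
    rw [un_val]
    simp
  apply le_antisymm
  · unfold Lf
    rw [adjoin_le_iff]
    rintro z ⟨w, hw, hz⟩
    rw [Subgroup.zpowers_eq_closure] at hw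
    refine root_mem {un h} hm (Lr n m) ?_ ?_ hw z hz
    · intro z hz
      exact subset_adjoin _ _ (Or.inl hz)
    · intro w hw z hz
      rw [Set.mem_singleton_iff] at hw
      rw [hw, hval] at hz
      exact subset_adjoin _ _ (Or.inr hz)
  · unfold Lr
    rw [adjoin_le_iff]
    rintro z (hz | hz)
    · exact subset_adjoin _ _ ⟨1, one_mem _, by rw [hz]; simp⟩
    · exact subset_adjoin _ _ ⟨un h, Subgroup.mem_zpowers _, by rw [hz, hval]⟩

/-- Lenstra's density for `⟨n⟩`, `k = 1` -/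
lemma dL_Lr (F : IntermediateField ℚ QA) [NumberField F] [IsGalois ℚ F] (C : Set Gal(F/ℚ))
    (h : n ≠ 0) : dL F C (Subgroup.zpowers (un h)) 1 =
    ∑' m : ℕ, ((ArithmeticFunction.moebius m : ℤ) : ℝ) * (cE F C (Lr n m) : ℝ) /
      (Module.finrank ℚ (F ⊔ Lr n m : IntermediateField ℚ QA) : ℝ) := by
  unfold dL
  congr 1
  funext m
  by_cases hs : Squarefree m
  · have hm : 0 < m := Nat.pos_of_ne_zero hs.ne_zero
    have h1 : Qn 1 m = m := by
      unfold Qn
      conv_rhs => rw [← Nat.prod_primeFactors_of_squarefree hs]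
      exact Finset.prod_congr rfl fun l _ => ql_one l
    unfold tW
    rw [h1, Lr_eq h hm]
  · unfold tW
    rw [ArithmeticFunction.moebius_eq_zero_of_not_squarefree hs]
    simp

lemma mS_PR (F : IntermediateField ℚ QA) [NumberField F] [IsGalois ℚ F] (C : Set Gal(F/ℚ))
    (h : n ≠ 0) (x : ℕ) : mS F C (Subgroup.zpowers (un h)) 1 x =
      M (ind fun p => GF F C p ∧ orderOf (n : ZMod p) = p - 1) x := by
  rw [mS_ind]
  refine M_eq_prime (fun p hp => ?_) x
  by_cases h' : GF F C p ∧ orderOf (n : ZMod p) = p - 1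
  · rw [ind_pos (A := fun p : ℕ => GF F C p ∧ orderOf (n : ZMod p) = p - 1) h',
      ind_pos (A := fun q => LC F C 1 (Subgroup.zpowers (un h)) q) ((LC_PR F C h hp).2 h')]
  · rw [ind_neg (A := fun p : ℕ => GF F C p ∧ orderOf (n : ZMod p) = p - 1) h',
      ind_neg (A := fun q => LC F C 1 (Subgroup.zpowers (un h)) q)
        (fun h2 => h' ((LC_PR F C h hp).1 h2))]

lemma mS_PR0 (h : n ≠ 0) (x : ℕ) : mS Q0 Set.univ (Subgroup.zpowers (un h)) 1 x =
      M (ind fun p => orderOf (n : ZMod p) = p - 1) x := by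
  rw [mS_PR Q0 Set.univ h]
  refine M_eq_prime (fun p hp => ?_) x
  by_cases h' : orderOf (n : ZMod p) = p - 1
  · rw [ind_pos (A := fun p : ℕ => orderOf (n : ZMod p) = p - 1) h',
      ind_pos (A := fun p : ℕ => GF Q0 Set.univ p ∧ orderOf (n : ZMod p) = p - 1)
        ⟨GF_all hp, h'⟩]
  · rw [ind_neg (A := fun p : ℕ => orderOf (n : ZMod p) = p - 1) h',
      ind_neg (A := fun p : ℕ => GF Q0 Set.univ p ∧ orderOf (n : ZMod p) = p - 1)
        (fun h2 => h' h2.2)]

lemma pos_n (h : Good n n') : Pos (Subgroup.zpowers (un h.h0)) := by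
  refine ⟨un h.h0, Subgroup.mem_zpowers _, fun h1 => ?_⟩
  rw [un_val] at h1
  have h2 : |n| = 1 := by exact_mod_cast h1
  rcases (abs_eq (by norm_num)).1 h2 with h3 | h3
  · exact h.hpow ⟨1, 2, by norm_num, by rw [h3]; norm_num⟩
  · exact h.hpow ⟨-1, 3, by norm_num, by rw [h3]; norm_num⟩

end Pool.Agent.Helper644_LA
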