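import Pool.Agent.Helper644_LA.Deg2
import Pool.Agent.Helper644_LA.Link2

/-! # Residue classes as Frobenius conditions in cyclotomic fields -/

set_option autoImplicit false
set_option linter.unusedSectionVars false

namespace Pool.Agent.Helper644_LA

open NumberField Filter Topology Finset IntermediateField
open Pool.Agent.W401.Cheb
open Pool.Agent.W171.LG

lemma prim_pow_iff {R : Type*} [Field R] {ζ : R} {N : ℕ} (hN : 0 < N) (h : IsPrimitiveRoot ζ N)
    (i j : ℕ) : ζ ^ i = ζ ^ j ↔ (i : ZMod N) = (j : ZMod N) := by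
  have h0 : ζ ≠ 0 := h.ne_zero hN.ne'
  have h1 : ζ ^ i = ζ ^ j ↔ ζ ^ ((j : ℤ) - (i : ℤ)) = 1 := by
    rw [zpow_sub₀ h0, zpow_natCast, zpow_natCast, div_eq_one_iff_eq (pow_ne_zero _ h0)]
    exact eq_comm
  rw [h1, h.zpow_eq_one_iff_dvd]
  have h2 := ZMod.intCast_eq_intCast_iff_dvd_sub (i : ℤ) (j : ℤ) N
  rw [← h2]
  push_cast
  rfl

section
variable (N : ℕ) [NeZero N]

/-- a primitive `N`-th root of unity -/
noncomputable def zt : QA := (HasEnoughRootsOfUnity.exists_primitiveRoot QA N).choose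

lemma zt_prim : IsPrimitiveRoot (zt N) N :=
  (HasEnoughRootsOfUnity.exists_primitiveRoot QA N).choose_spec

/-- the cyclotomic field -/
noncomputable def CF : IntermediateField ℚ QA := adjoin ℚ {zt N}

lemma cf_cyc : IsCyclotomicExtension {N} ℚ (CF N) :=
  (IntermediateField.isCyclotomicExtension_singleton_iff_eq_adjoin N ℚ QA (CF N) (zt_prim N)).2 rfl

instance : FiniteDimensional ℚ (CF N) :=
  have := cf_cyc N
  IsCyclotomicExtension.finite_of_singleton N ℚ (CF N)

instance : NumberField (CF N) := { to_charZero := inferInstance, to_finiteDimensional :=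
  (have := cf_cyc N
   IsCyclotomicExtension.finite_of_singleton N ℚ (CF N)) }

instance : IsGalois ℚ (CF N) :=
  have := cf_cyc N
  IsCyclotomicExtension.isGalois {N} ℚ (CF N)

/-- the root of unity in the cyclotomic field -/
noncomputable def z : CF N := ⟨zt N, mem_adjoin_simple_self ℚ (zt N)⟩

lemma z_prim : IsPrimitiveRoot (z N) N := by
  refine IsPrimitiveRoot.of_map_of_injective (f := (CF N).val) ?_ (CF N).val.injective
  exact zt_prim N

/-- the automorphism `ζ ↦ ζ ^ a` -/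
def ct (a : ℕ) : Set Gal(CF N/ℚ) := {σ | σ (z N) = z N ^ a}

lemma sig_pow (σ : Gal(CF N/ℚ)) : ∃ j : ℕ, σ (z N) = z N ^ j := by
  have h1 : (σ (z N)) ^ N = 1 := by
    rw [← map_pow, (z_prim N).pow_eq_one, map_one]
  obtain ⟨j, _, hj⟩ := (z_prim N).eq_pow_of_pow_eq_one h1
  exact ⟨j, hj.symm⟩

lemma ct_conj (a : ℕ) : ∀ σ ∈ ct N a, ∀ τ : Gal(CF N/ℚ), τ * σ * τ⁻¹ ∈ ct N a := by
  intro σ hσ τ
  have hσ' : σ (z N) = z N ^ a := hσ
  show (τ * σ * τ⁻¹) (z N) = z N ^ a
  obtain ⟨j, hj⟩ := sig_pow N τ⁻¹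
  rw [AlgEquiv.mul_apply, AlgEquiv.mul_apply, hj, map_pow, hσ', ← pow_mul, mul_comm, pow_mul,
    map_pow, map_pow, ← map_pow, ← hj]
  have h2 : τ (τ⁻¹ (z N)) = z N := τ.apply_symm_apply (z N)
  rw [h2]

lemma cf_card : Nat.card Gal(CF N/ℚ) = Nat.totient N := by
  have h1 : Nat.card Gal(CF N/ℚ) = Module.finrank ℚ (CF N) :=
    IsGalois.card_aut_eq_finrank ℚ (CF N)
  rw [h1]
  exact adj_cyc_deg N (NeZero.pos N) (zt N) (zt_prim N)

lemma ct_card {a : ℕ} (ha : Nat.Coprime a N) : Nat.card (ct N a) = 1 := by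
  have hcyc := cf_cyc N
  set f := (z_prim N).autToPow ℚ with hf
  have hinj : Function.Injective f := IsPrimitiveRoot.autToPow_injective ℚ (z_prim N)
  have hcard : Nat.card (ZMod N)ˣ ≤ Nat.card Gal(CF N/ℚ) := by
    rw [cf_card, Nat.card_eq_fintype_card, ZMod.card_units_eq_totient]
  have hbij : Function.Bijective f := hinj.bijective_of_nat_card_le hcard
  obtain ⟨σ, hσ⟩ := hbij.2 (ZMod.unitOfCoprime a ha)
  have hval : ∀ τ : Gal(CF N/ℚ), τ ∈ ct N a ↔ f τ = ZMod.unitOfCoprime a ha := by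
    intro τ
    have h1 := (z_prim N).autToPow_spec ℚ τ
    have h2 : τ ∈ ct N a ↔ z N ^ ((f τ : ZMod N)).val = z N ^ a := by
      rw [hf, h1]
      rfl
    rw [h2, prim_pow_iff (NeZero.pos N) (z_prim N), ZMod.natCast_zmod_val]
    constructor
    · intro h
      apply Units.ext
      rw [h, ZMod.coe_unitOfCoprime]
    · intro h
      rw [h, ZMod.coe_unitOfCoprime]
  rw [Nat.card_eq_one_iff_unique]
  constructor
  · refine ⟨fun x y => Subtype.ext (hbij.1 ?_)⟩
    rw [(hval _).1 x.2, (hval _).1 y.2]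
  · exact ⟨⟨σ, (hval σ).2 hσ⟩⟩

/-- the Frobenius condition -/
lemma GF_ct (a : ℕ) : ∃ D : ℕ, 0 < D ∧ ∀ p : ℕ, p.Prime → ¬ p ∣ D →
    (GF (CF N) (ct N a) p ↔ (p : ZMod N) = (a : ZMod N)) := by
  obtain ⟨D, hD, hT⟩ := torsor (CF N)
  refine ⟨D * N, Nat.mul_pos hD (NeZero.pos N), fun p hp hpD => ?_⟩
  have : Fact p.Prime := ⟨hp⟩
  have hTp := hT p fun h => hpD (h.mul_right _)
  have hpN : ¬ p ∣ N := fun h => hpD (h.mul_left _)
  obtain ⟨φ⟩ := nonempty_hom hTp
  obtain ⟨τ, hτ⟩ := exists_frob hTp φ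
  rw [GF_iff _ hp, fi_iff hTp (ct_conj N a) hτ]
  have hNk : ((N : ℕ) : AlgebraicClosure (ZMod p)) ≠ 0 := by
    intro h
    apply hpN
    rw [← ZMod.natCast_eq_zero_iff]
    apply (algebraMap (ZMod p) (AlgebraicClosure (ZMod p))).injective
    rw [map_natCast, map_zero, h]
  set zi : 𝓞 (CF N) := (z_prim N).toInteger with hzi
  have hzip : IsPrimitiveRoot zi N := (z_prim N).toInteger_isPrimitiveRoot
  have hw := prim_map φ (NeZero.pos N) hNk hzip
  obtain ⟨j, hj⟩ := sig_pow N τ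
  have h1 : τ • zi = zi ^ j := by
    apply RingOfIntegers.coe_injective
    rw [map_pow]
    exact hj
  have h2 := hτ zi
  rw [h1, map_pow] at h2
  have h3 : (j : ZMod N) = (p : ZMod N) := (prim_pow_iff (NeZero.pos N) hw j p).1 h2
  rw [← h3]
  have h4 : τ ∈ ct N a ↔ z N ^ j = z N ^ a := by
    rw [← hj]
    rfl
  rw [h4, prim_pow_iff (NeZero.pos N) (z_prim N)]

end

/-- linear disjointness of cyclotomic fields -/
lemma inf_CF {a b : ℕ} [NeZero a] [NeZero b] (hab : Nat.Coprime a b) : CF a ⊓ CF b = ⊥ := by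
  have hfa : Module.finrank ℚ (CF a) = Nat.totient a :=
    adj_cyc_deg a (NeZero.pos a) (zt a) (zt_prim a)
  have hfb : Module.finrank ℚ (CF b) = Nat.totient b :=
    adj_cyc_deg b (NeZero.pos b) (zt b) (zt_prim b)
  have hN : 0 < a * b := Nat.mul_pos (NeZero.pos a) (NeZero.pos b)
  have hprim : IsPrimitiveRoot (zt a * zt b) (a * b) := by
    have h1 := (Commute.all (zt a) (zt b)).orderOf_mul_eq_mul_orderOf_of_coprime (by
      rw [← (zt_prim a).eq_orderOf, ← (zt_prim b).eq_orderOf]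
      exact hab)
    rw [← (zt_prim a).eq_orderOf, ← (zt_prim b).eq_orderOf] at h1
    rw [← h1]
    exact IsPrimitiveRoot.orderOf _
  have hmem : zt a * zt b ∈ CF a ⊔ CF b :=
    mul_mem ((le_sup_left : CF a ≤ _) (mem_adjoin_simple_self ℚ _))
      ((le_sup_right : CF b ≤ _) (mem_adjoin_simple_self ℚ _))
  have hfin : FiniteDimensional ℚ (CF a ⊔ CF b : IntermediateField ℚ QA) :=
    IntermediateField.finiteDimensional_sup _ _
  have hlow := totient_le_finrank hN hprim hmem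
  rw [Nat.totient_mul hab] at hlow
  have hup : Module.finrank ℚ (CF a ⊔ CF b : IntermediateField ℚ QA) ≤
      Module.finrank ℚ (CF a) * Module.finrank ℚ (CF b) := IntermediateField.finrank_sup_le _ _
  rw [hfa, hfb] at hup
  refine (IntermediateField.LinearDisjoint.of_finrank_sup ?_).inf_eq_bot
  rw [hfa, hfb]
  exact le_antisymm hup hlow

end Pool.Agent.Helper644_LA
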