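import Pool.Agent.Helper644_LA.Gauss
import Pool.Agent.W171.LG.Two

/-! # The degrees of the fields of roots of a fixed integer -/

set_option autoImplicit false
set_option linter.unusedSectionVars false

namespace Pool.Agent.Helper644_LA

open NumberField IntermediateField
open Pool.Agent.W171.LG

/-- the hypotheses of Q1 of MP_991e92_nt -/
structure Good (n n' : ℤ) : Prop where
  h0 : n ≠ 0
  hpow : ¬ ∃ m : ℤ, ∃ r : ℕ, 1 < r ∧ n = m ^ r
  hsq : Squarefree n'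
  hm : ∃ m : ℤ, n = n' * m ^ 2
  h4 : n' % 4 = 1

/-- `n` as a unit of `ℚ` -/
noncomputable def un {n : ℤ} (h : n ≠ 0) : ℚˣ := Units.mk0 (n : ℚ) (by exact_mod_cast h)

lemma un_val {n : ℤ} (h : n ≠ 0) : ((un h : ℚˣ) : ℚ) = n := rfl

variable {n n' : ℤ}

/-- not a perfect power in `ℚ` -/
lemma not_pow (h : Good n n') {r : ℕ} (hr : 1 < r) (c : ℚ) : c ^ r ≠ ((un h.h0 : ℚˣ) : ℚ) := by
  intro hc
  rw [un_val] at hc
  have h1 : c.den = 1 := by
    have h2 : (c ^ r).den = 1 := by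
      rw [hc]
      exact Rat.den_intCast n
    rw [Rat.den_pow] at h2
    exact (Nat.pow_eq_one.1 h2).resolve_right (by omega)
  apply h.hpow
  refine ⟨c.num, r, hr, ?_⟩
  have h3 : (c.num : ℚ) = c := Rat.coe_int_num_of_den_eq_one h1
  have h4 : ((c.num ^ r : ℤ) : ℚ) = (n : ℚ) := by
    push_cast
    rw [h3, hc]
  exact_mod_cast h4.symm

lemma adj_cyc_deg (m : ℕ) (hm : 0 < m) (ξ : QA) (hξ : IsPrimitiveRoot ξ m) :
    Module.finrank ℚ (adjoin ℚ {ξ} : IntermediateField ℚ QA) = Nat.totient m := by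
  have hint : IsIntegral ℚ ξ := by
    have h1 : IsIntegral ℤ ξ := hξ.isIntegral hm
    exact h1.tower_top
  rw [adjoin.finrank hint, ← Polynomial.cyclotomic_eq_minpoly_rat hξ hm,
    Polynomial.natDegree_cyclotomic]

/-- odd roots -/
lemma no_odd (h : Good n n') {d : ℕ} (hd : 0 < d) {ζ : QA} (hζ : IsPrimitiveRoot ζ d) {r : ℕ}
    (hr : r.Prime) (hr2 : r ≠ 2) {b : QA} (hb : b ∈ (adjoin ℚ {ζ} : IntermediateField ℚ QA)) :
    b ^ r ≠ algebraMap ℚ QA ((un h.h0 : ℚˣ) : ℚ) := by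
  have : NeZero d := ⟨hd.ne'⟩
  have hab := cyc_ab (k := ℚ) hζ
  refine ab_no_root (adjoin ℚ {ζ} : IntermediateField ℚ QA) hr (fun ξ hξ hdv => ?_)
    (fun c => not_pow h hr.one_lt c) hb
  rw [adj_cyc_deg r hr.pos ξ hξ, Nat.totient_prime hr] at hdv
  have hr3 : 3 ≤ r := by
    have := hr.two_le
    omega
  obtain ⟨t, ht⟩ := hdv
  rcases Nat.lt_or_ge t 2 with h3 | h3
  · have : t = 0 ∨ t = 1 := by omega
    rcases this with rfl | rfl <;> omega
  · have : (r - 1) * 2 ≤ (r - 1) * t := Nat.mul_le_mul_left _ h3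
    omega

lemma Lf_two (h : n ≠ 0) {d : ℕ} (hd : 0 < d) {ζ α : QA} (hζ : IsPrimitiveRoot ζ d)
    (hα : α ^ d = algebraMap ℚ QA ((un h : ℚˣ) : ℚ)) :
    Lf QA (Subgroup.zpowers (un h)) d = adjoin ℚ {ζ} ⊔ adjoin ℚ {α} := by
  have h1 := Lf_zpowers (Ω := QA) (un h) hd one_pos (Nat.coprime_one_right d)
    (ζ := ζ) (by rwa [mul_one]) hα
  rw [Lf_bot_one, sup_bot_eq] at h1
  exact h1

/-- the generic degree -/
theorem deg_A (h : Good n n') {d : ℕ} (hd : 0 < d)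
    (hA : ¬ 2 ∣ d ∨ ∃ q : ℕ, q.Prime ∧ (q : ℤ) ∣ n' ∧ ¬ q ∣ d) :
    Module.finrank ℚ (Lf QA (Subgroup.zpowers (un h.h0)) d : IntermediateField ℚ QA) =
      Nat.totient d * d := by
  have : NeZero d := ⟨hd.ne'⟩
  obtain ⟨ζ, hζ⟩ := HasEnoughRootsOfUnity.exists_primitiveRoot QA d
  obtain ⟨α, hα⟩ := IsAlgClosed.exists_pow_nat_eq
    (algebraMap ℚ QA ((un h.h0 : ℚˣ) : ℚ)) hd
  rw [Lf_two h.h0 hd hζ hα]
  set K0 : IntermediateField ℚ QA := adjoin ℚ {ζ} with hK0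
  have hζ' : IsPrimitiveRoot (⟨ζ, mem_adjoin_simple_self ℚ ζ⟩ : K0) d := by
    refine IsPrimitiveRoot.of_map_of_injective (f := K0.val) ?_ K0.val.injective
    exact hζ
  have hcyc : IsCyclotomicExtension {d} ℚ K0 :=
    (IntermediateField.isCyclotomicExtension_singleton_iff_eq_adjoin d ℚ QA K0 hζ).2 rfl
  have hfin : FiniteDimensional ℚ K0 := IsCyclotomicExtension.finite_of_singleton d ℚ K0
  have : NumberField K0 := { to_charZero := inferInstance, to_finiteDimensional := hfin }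
  rw [finrank_radical K0 hd hζ' (un h.h0).ne_zero hα, adj_cyc_deg d hd ζ hζ]
  intro r hr hrd b hb
  by_cases hr2 : r = 2
  · subst hr2
    obtain ⟨q, hq, hqn, hqd⟩ := hA.resolve_left (fun h' => h' hrd)
    obtain ⟨m, hm⟩ := h.hm
    have hm0 : m ≠ 0 := by
      rintro rfl
      apply h.h0
      rw [hm]
      ring
    have hmK : ((m : ℤ) : K0) ≠ 0 := by exact_mod_cast hm0
    refine no_sqrt h.hsq hq hqn hd hqd (K := K0) (b / ((m : ℤ) : K0)) ?_
    rw [div_pow, hb, div_eq_iff (pow_ne_zero _ hmK), un_val, hm]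
    push_cast
    simp
  · refine no_odd h hd hζ hr hr2 b.2 ?_
    have := congrArg (fun z : K0 => (z : QA)) hb
    exact this

/-- the degree in the exceptional case -/
theorem deg_B (h : Good n n') {e : ℕ} (he : 0 < e) (he2 : ¬ 2 ∣ e)
    (hB : ∀ q ∈ n'.natAbs.primeFactors, q ∣ 2 * e) :
    Module.finrank ℚ (Lf QA (Subgroup.zpowers (un h.h0)) (2 * e) : IntermediateField ℚ QA) =
      Nat.totient (2 * e) * e := by
  set d := 2 * e with hd'
  have hd : 0 < d := by omega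
  have : NeZero d := ⟨hd.ne'⟩
  obtain ⟨ζ, hζ⟩ := HasEnoughRootsOfUnity.exists_primitiveRoot QA d
  obtain ⟨α, hα⟩ := IsAlgClosed.exists_pow_nat_eq
    (algebraMap ℚ QA ((un h.h0 : ℚˣ) : ℚ)) hd
  rw [Lf_two h.h0 hd hζ hα]
  set K0 : IntermediateField ℚ QA := adjoin ℚ {ζ} with hK0
  have hζK : ζ ∈ K0 := mem_adjoin_simple_self ℚ ζ
  have hζ' : IsPrimitiveRoot (⟨ζ, hζK⟩ : K0) d := by
    refine IsPrimitiveRoot.of_map_of_injective (f := K0.val) ?_ K0.val.injective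
    exact hζ
  obtain ⟨s, hs, hs2⟩ := sqrt_mem h.hsq h.h4 hd hB hζ hζK
  obtain ⟨m, hm⟩ := h.hm
  have hn : algebraMap ℚ QA ((un h.h0 : ℚˣ) : ℚ) = ((n : ℤ) : QA) := by
    rw [un_val]
    simp
  have h1 : (α ^ e) ^ 2 = (s * ((m : ℤ) : QA)) ^ 2 := by
    rw [← pow_mul, mul_comm e 2, ← hd', hα, hn, mul_pow, hs2, hm]
    push_cast
    ring
  obtain ⟨v, hv, hve⟩ : ∃ v ∈ K0, α ^ e = v := by
    have hsm : s * ((m : ℤ) : QA) ∈ K0 := mul_mem hs (intCast_mem K0 m)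
    rcases sq_eq_sq_iff_eq_or_eq_neg.1 h1 with h2 | h2
    · exact ⟨_, hsm, h2⟩
    · exact ⟨_, neg_mem hsm, h2⟩
  have hv2 : v ^ 2 = algebraMap ℚ QA ((un h.h0 : ℚˣ) : ℚ) := by
    rw [← hve, ← pow_mul, mul_comm e 2, ← hd', hα]
  have hv0 : v ≠ 0 := by
    rintro rfl
    rw [zero_pow (by norm_num)] at hv2
    exact (un h.h0).ne_zero ((map_eq_zero _).1 hv2.symm)
  have hint : IsIntegral K0 α := by
    refine IsIntegral.of_pow he ?_
    rw [hve]
    exact isIntegral_algebraMap (R := K0) (A := QA) (x := ⟨v, hv⟩)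
  have hζe : IsPrimitiveRoot ((⟨ζ, hζK⟩ : K0) ^ 2) e := hζ'.pow hd hd'
  have hdeg := deg_root he hζe (u := (⟨v, hv⟩ : K0)) (α := α) (by
      intro h2
      exact hv0 (congrArg (fun z : K0 => (z : QA)) h2)) hve (by
      intro r hr hre b hb
      have hr2 : r ≠ 2 := by
        rintro rfl
        exact he2 hre
      refine no_odd h hd hζ hr hr2 (b := ((b ^ 2 : K0) : QA)) (b ^ 2 : K0).2 ?_
      have h3 : ((b ^ 2 : K0) : QA) ^ r = ((b ^ r : K0) : QA) ^ 2 := by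
        push_cast
        ring
      rw [h3, hb]
      exact hv2)
  rw [finrank_sup_adjoin K0 α hint, hdeg, adj_cyc_deg d hd ζ hζ]

end Pool.Agent.Helper644_LA
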