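import Pool.Agent.Helper644_LA.Const

/-! # Degrees over larger cyclotomic fields -/

set_option autoImplicit false
set_option linter.unusedSectionVars false

namespace Pool.Agent.Helper644_LA

open NumberField IntermediateField Finset
open Pool.Agent.W171.LG

variable {n n' : ℤ}

/-- the generic degree -/
theorem deg_A' (h : Good n n') {d N : ℕ} (hN : 0 < N) (hdN : d ∣ N) {ζ α : QA}
    (hζ : IsPrimitiveRoot ζ N) (hα : α ^ d = algebraMap ℚ QA ((un h.h0 : ℚˣ) : ℚ))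
    (hA : ¬ 2 ∣ d ∨ ∃ q : ℕ, q.Prime ∧ (q : ℤ) ∣ n' ∧ ¬ q ∣ N) :
    Module.finrank ℚ (adjoin ℚ {ζ} ⊔ adjoin ℚ {α} : IntermediateField ℚ QA) =
      Nat.totient N * d := by
  have : NeZero N := ⟨hN.ne'⟩
  obtain ⟨t, ht⟩ := hdN
  have hd : 0 < d := Nat.pos_of_ne_zero (by
    rintro rfl
    omega)
  set K0 : IntermediateField ℚ QA := adjoin ℚ {ζ} with hK0
  have hζ' : IsPrimitiveRoot (⟨ζ, mem_adjoin_simple_self ℚ ζ⟩ : K0) N := by
    refine IsPrimitiveRoot.of_map_of_injective (f := K0.val) ?_ K0.val.injective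
    exact hζ
  have hζd : IsPrimitiveRoot ((⟨ζ, mem_adjoin_simple_self ℚ ζ⟩ : K0) ^ t) d :=
    hζ'.pow hN (by rw [ht]; ring)
  have hcyc : IsCyclotomicExtension {N} ℚ K0 :=
    (IntermediateField.isCyclotomicExtension_singleton_iff_eq_adjoin N ℚ QA K0 hζ).2 rfl
  have hfin : FiniteDimensional ℚ K0 := IsCyclotomicExtension.finite_of_singleton N ℚ K0
  have : NumberField K0 := { to_charZero := inferInstance, to_finiteDimensional := hfin }
  rw [finrank_radical K0 hd hζd (un h.h0).ne_zero hα, adj_cyc_deg N hN ζ hζ]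
  intro r hr hrd b hb
  by_cases hr2 : r = 2
  · subst hr2
    obtain ⟨q, hq, hqn, hqd⟩ := hA.resolve_left (fun h' => h' hrd)
    obtain ⟨m, hm⟩ := h.hm
    have hm0 : m ≠ 0 := by
      rintro rfl
      apply h.h0
      rw [hm]
      ring
    have hmK : ((m : ℤ) : K0) ≠ 0 := by exact_mod_cast hm0
    refine no_sqrt h.hsq hq hqn hN hqd (K := K0) (b / ((m : ℤ) : K0)) ?_
    rw [div_pow, hb, div_eq_iff (pow_ne_zero _ hmK), un_val, hm]
    push_cast
    simp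
  · refine no_odd h hN hζ hr hr2 b.2 ?_
    have := congrArg (fun z : K0 => (z : QA)) hb
    exact this

/-- the degree in the exceptional case -/
theorem deg_B' (h : Good n n') {e N : ℕ} (hN : 0 < N) (hdN : 2 * e ∣ N) (he2 : ¬ 2 ∣ e) {ζ α : QA}
    (hζ : IsPrimitiveRoot ζ N) (hα : α ^ (2 * e) = algebraMap ℚ QA ((un h.h0 : ℚˣ) : ℚ))
    (hB : ∀ q ∈ n'.natAbs.primeFactors, q ∣ N) :
    Module.finrank ℚ (adjoin ℚ {ζ} ⊔ adjoin ℚ {α} : IntermediateField ℚ QA) =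
      Nat.totient N * e := by
  have : NeZero N := ⟨hN.ne'⟩
  obtain ⟨t, ht⟩ := hdN
  have he : 0 < e := Nat.pos_of_ne_zero (by
    rintro rfl
    omega)
  set K0 : IntermediateField ℚ QA := adjoin ℚ {ζ} with hK0
  have hζK : ζ ∈ K0 := mem_adjoin_simple_self ℚ ζ
  have hζ' : IsPrimitiveRoot (⟨ζ, hζK⟩ : K0) N := by
    refine IsPrimitiveRoot.of_map_of_injective (f := K0.val) ?_ K0.val.injective
    exact hζ
  obtain ⟨s, hs, hs2⟩ := sqrt_mem h.hsq h.h4 hN hB hζ hζK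
  obtain ⟨m, hm⟩ := h.hm
  have hn : algebraMap ℚ QA ((un h.h0 : ℚˣ) : ℚ) = ((n : ℤ) : QA) := by
    rw [un_val]
    simp
  have h1 : (α ^ e) ^ 2 = (s * ((m : ℤ) : QA)) ^ 2 := by
    rw [← pow_mul, mul_comm e 2, hα, hn, mul_pow, hs2, hm]
    push_cast
    ring
  obtain ⟨v, hv, hve⟩ : ∃ v ∈ K0, α ^ e = v := by
    have hsm : s * ((m : ℤ) : QA) ∈ K0 := mul_mem hs (intCast_mem K0 m)
    rcases sq_eq_sq_iff_eq_or_eq_neg.1 h1 with h2 | h2
    · exact ⟨_, hsm, h2⟩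
    · exact ⟨_, neg_mem hsm, h2⟩
  have hv2 : v ^ 2 = algebraMap ℚ QA ((un h.h0 : ℚˣ) : ℚ) := by
    rw [← hve, ← pow_mul, mul_comm e 2, hα]
  have hv0 : v ≠ 0 := by
    rintro rfl
    rw [zero_pow (by norm_num)] at hv2
    exact (un h.h0).ne_zero ((map_eq_zero _).1 hv2.symm)
  have hint : IsIntegral K0 α := by
    refine IsIntegral.of_pow he ?_
    rw [hve]
    exact isIntegral_algebraMap (R := K0) (A := QA) (x := ⟨v, hv⟩)
  have hζe : IsPrimitiveRoot ((⟨ζ, hζK⟩ : K0) ^ (2 * t)) e := hζ'.pow hN (by rw [ht]; ring)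
  have hdeg := deg_root he hζe (u := (⟨v, hv⟩ : K0)) (α := α) (by
      intro h2
      exact hv0 (congrArg (fun z : K0 => (z : QA)) h2)) hve (by
      intro r hr hre b hb
      have hr2 : r ≠ 2 := by
        rintro rfl
        exact he2 hre
      refine no_odd h hN hζ hr hr2 (b := ((b ^ 2 : K0) : QA)) (b ^ 2 : K0).2 ?_
      have h3 : ((b ^ 2 : K0) : QA) ^ r = ((b ^ r : K0) : QA) ^ 2 := by
        push_cast
        ring
      rw [h3, hb]
      exact hv2)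
  rw [finrank_sup_adjoin K0 α hint, hdeg, adj_cyc_deg N hN ζ hζ]

/-- the sum over the squarefree numbers composed of primes in `P` -/
lemma sum_formula (h4 : n' % 4 = 1) (hsq : Squarefree n') {P : Finset ℕ} (hy : DD n' ⊆ P) :
    by classical exact ∑ K ∈ P.powerset, ((-1 : ℝ) ^ #K * ∏ l ∈ K, al l) *
      (if DD n' ⊆ K then 2 else 1) = (∏ l ∈ P, (1 - al l)) * corr n' := by
  classical
  have e1 : ∏ l ∈ P, (1 - al l) = ∑ K ∈ P.powerset, (-1 : ℝ) ^ #K * ∏ l ∈ K, al l := by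
    have h1 : ∏ l ∈ P, (1 - al l) = ∏ l ∈ P, (-al l + 1) :=
      Finset.prod_congr rfl fun l _ => by ring
    rw [h1, Finset.prod_add]
    refine Finset.sum_congr rfl fun K _ => ?_
    rw [Finset.prod_const_one, mul_one, Finset.prod_neg]
  have e2 : ∏ l ∈ P, (-al l + (if l ∈ DD n' then 0 else 1)) =
      ∑ K ∈ P.powerset, ((-1 : ℝ) ^ #K * ∏ l ∈ K, al l) * (if DD n' ⊆ K then 1 else 0) := by
    rw [Finset.prod_add]
    refine Finset.sum_congr rfl fun K hK => ?_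
    rw [mem_powerset] at hK
    rw [Finset.prod_neg]
    congr 1
    by_cases hD : DD n' ⊆ K
    · rw [if_pos hD]
      refine Finset.prod_eq_one fun l hl => ?_
      rw [Finset.mem_sdiff] at hl
      rw [if_neg fun h' => hl.2 (hD h')]
    · rw [if_neg hD]
      rw [Finset.not_subset] at hD
      obtain ⟨q, hq, hqK⟩ := hD
      exact Finset.prod_eq_zero (Finset.mem_sdiff.2 ⟨hy hq, hqK⟩) (if_pos hq)
  have e3 : ∏ l ∈ P, (-al l + (if l ∈ DD n' then 0 else 1)) =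
      (∏ l ∈ P, (1 - al l)) * ∏ l ∈ DD n', (-(1 / ((l : ℝ) ^ 2 - (l : ℝ) - 1))) := by
    rw [← Finset.prod_sdiff hy, ← Finset.prod_sdiff hy (f := fun l : ℕ => (1 - al l)), mul_assoc]
    congr 1
    · refine Finset.prod_congr rfl fun l hl => ?_
      rw [Finset.mem_sdiff] at hl
      rw [if_neg hl.2]
      ring
    · rw [← Finset.prod_mul_distrib]
      refine Finset.prod_congr rfl fun l hl => ?_
      rw [if_pos hl, add_zero]
      unfold al
      have hl2 : (2 : ℝ) ≤ l := by exact_mod_cast (DD_prime hl).two_le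
      have h1 : (l : ℝ) * ((l : ℝ) - 1) ≠ 0 := by
        have : 0 < (l : ℝ) * ((l : ℝ) - 1) := mul_pos (by linarith) (by linarith)
        exact this.ne'
      have h2 : (l : ℝ) ^ 2 - (l : ℝ) - 1 ≠ 0 := by
        have : 0 < (l : ℝ) ^ 2 - (l : ℝ) - 1 := by nlinarith
        exact this.ne'
      have h3 : (1 : ℝ) - 1 / ((l : ℝ) * ((l : ℝ) - 1)) =
          ((l : ℝ) ^ 2 - (l : ℝ) - 1) / ((l : ℝ) * ((l : ℝ) - 1)) := by
        rw [eq_div_iff h1, sub_mul, one_div, inv_mul_cancel₀ h1]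
        ring
      have h5 : ((l : ℝ) ^ 2 - (l : ℝ) - 1) / ((l : ℝ) * ((l : ℝ) - 1)) *
          (-(1 / ((l : ℝ) ^ 2 - (l : ℝ) - 1))) = -(1 / ((l : ℝ) * ((l : ℝ) - 1))) := by
        rw [mul_neg, div_mul_div_comm, mul_one,
          mul_comm ((l : ℝ) * ((l : ℝ) - 1)) ((l : ℝ) ^ 2 - (l : ℝ) - 1), ← div_div, div_self h2]
      rw [h3, h5]
  have hmu : ∏ l ∈ DD n', (-(1 / ((l : ℝ) ^ 2 - (l : ℝ) - 1))) =
      -(((ArithmeticFunction.moebius n'.natAbs : ℤ) : ℝ) *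
        ∏ q ∈ n'.natAbs.primeFactors, (1 / ((q : ℝ) ^ 2 - (q : ℝ) - 1))) := by
    have h2 : 2 ∉ n'.natAbs.primeFactors := by
      intro h'
      have h1 : (2 : ℤ) ∣ n' := Int.natCast_dvd.2 (Nat.dvd_of_mem_primeFactors h')
      omega
    unfold DD
    rw [Finset.prod_insert h2, Pool.Agent.H730R2.AA.Euler.mu_eq_prod _ (Int.squarefree_natAbs.2 hsq),
      Finset.prod_neg, Finset.prod_const]
    norm_num
  have hsum : ∑ K ∈ P.powerset,
      ((-1 : ℝ) ^ #K * ∏ l ∈ K, al l) * (if DD n' ⊆ K then 2 else 1) =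
      (∑ K ∈ P.powerset, (-1 : ℝ) ^ #K * ∏ l ∈ K, al l) +
      ∑ K ∈ P.powerset, ((-1 : ℝ) ^ #K * ∏ l ∈ K, al l) * (if DD n' ⊆ K then 1 else 0) := by
    rw [← Finset.sum_add_distrib]
    refine Finset.sum_congr rfl fun K _ => ?_
    split_ifs <;> ring
  rw [hsum, ← e1, ← e2, e3, hmu]
  unfold corr
  ring

end Pool.Agent.Helper644_LA
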