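import Pool.Agent.Helper644_LA.Bess2
import Pool.Agent.Helper644_LA.Const

/-! # Descent from infinitely many Frobenius classes -/

set_option autoImplicit false
set_option linter.unusedSectionVars false

namespace Pool.Agent.Helper644_LA

open NumberField Filter Topology Finset IntermediateField
open Pool.Agent.W401.Cheb
open Pool.Agent.W171.LG
open Pool.Agent.H386R2.Artin (PP LC_pos)
open Pool.Agent.H981R3.LN (ql Sk mem_Sk mem_PP)

/-- the weight of a class -/
noncomputable def wt (c : ℝ) : ℝ := c / (1 - c)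

lemma wt_eq {c a e : ℝ} (h0 : 0 < c) (h1 : c < 1) :
    (c * (1 - c))⁻¹ * (a - c * e) ^ 2 = wt c * (a / c - e) ^ 2 := by
  have h2 : 1 - c ≠ 0 := by linarith
  have h3 : a / c - e = (a - c * e) / c := by
    field_simp
  unfold wt
  rw [h3, div_pow]
  field_simp

section
variable {W : Subgroup ℚˣ} {k : ℕ}

/-- **Bessel's inequality for the errors** -/
theorem bessel_wt {ι : Type} [Fintype ι] {F : ι → IntermediateField ℚ QA} [∀ i, NumberField (F i)]
    [∀ i, IsGalois ℚ (F i)] {C : ∀ i, Set Gal(F i/ℚ)} (hW : W.FG) (hP : Pos W) (hk : k ≠ 0)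
    (hC : ∀ i, ∀ σ ∈ C i, ∀ τ : Gal(F i/ℚ), τ * σ * τ⁻¹ ∈ C i)
    (hF : ∀ i j, i ≠ j → F i ⊓ F j = ⊥)
    (hc : ∀ i, 0 < dens1 (F i) (C i) ∧ dens1 (F i) (C i) < 1) (η : ℝ) (hη : 0 < η) :
    ∀ᶠ x in atTop,
      ∑ i, wt (dens1 (F i) (C i)) *
        (er W k (F i) (C i) x / dens1 (F i) (C i) - er W k Q0 Set.univ x) ^ 2 ≤
      er W k Q0 Set.univ x * (1 - er W k Q0 Set.univ x) + η := by
  filter_upwards [bessel_er hW hP hk hC hF hc η hη] with x hx
  refine le_trans (le_of_eq ?_) hx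
  exact Finset.sum_congr rfl fun i _ => (wt_eq (hc i).1 (hc i).2).symm

lemma wt_pos {c : ℝ} (h0 : 0 < c) (h1 : c < 1) : 0 < wt c := div_pos h0 (by linarith)

/-- **descent** -/
theorem descend {F : ℕ → IntermediateField ℚ QA} [∀ i, NumberField (F i)]
    [∀ i, IsGalois ℚ (F i)] {C : ∀ i, Set Gal(F i/ℚ)} (hW : W.FG) (hP : Pos W) (hk : k ≠ 0)
    (hC : ∀ i, ∀ σ ∈ C i, ∀ τ : Gal(F i/ℚ), τ * σ * τ⁻¹ ∈ C i)
    (hF : ∀ i j, i ≠ j → F i ⊓ F j = ⊥)
    (hc : ∀ i, 0 < dens1 (F i) (C i) ∧ dens1 (F i) (C i) < 1)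
    (hw : Tendsto (fun m => ∑ i ∈ range m, wt (dens1 (F i) (C i))) atTop atTop)
    (h : ∀ η : ℝ, 0 < η → ∀ᶠ m in atTop, ∀ᶠ x in atTop,
      ∑ i ∈ range m, wt (dens1 (F i) (C i)) * (|er W k (F i) (C i) x| / dens1 (F i) (C i)) ≤
        η * ∑ i ∈ range m, wt (dens1 (F i) (C i))) :
    Law Q0 Set.univ W k := by
  refine law_of univ_conj hW hP hk fun ε hε => ?_
  obtain ⟨m, hm1, hm2⟩ := ((h (ε / 2) (by linarith)).and
    (hw.eventually (eventually_gt_atTop (2 / ε ^ 2)))).exists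
  set Wm : ℝ := ∑ i ∈ range m, wt (dens1 (F i) (C i)) with hWm
  have hb := bessel_wt (ι := Fin m) (F := fun i => F i) (C := fun i => C i) hW hP hk
    (fun i => hC i) (fun i j hij => hF i j fun h' => hij (Fin.ext h')) (fun i => hc i)
    (1 / 4) (by norm_num)
  filter_upwards [hm1, hb] with x h1 h2
  set e : ℝ := er W k Q0 Set.univ x with he
  show e ≤ ε
  by_contra hcon
  push Not at hcon
  have h2' : ∑ i ∈ range m, wt (dens1 (F i) (C i)) *
      (er W k (F i) (C i) x / dens1 (F i) (C i) - e) ^ 2 ≤ 1 / 2 := by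
    rw [Finset.sum_range]
    have h3 : e * (1 - e) ≤ 1 / 4 := by nlinarith [sq_nonneg (e - 1 / 2)]
    linarith
  have hWm0 : 0 < Wm := lt_trans (by positivity) hm2
  have h3 : e * Wm ≤ ∑ i ∈ range m, wt (dens1 (F i) (C i)) *
      |er W k (F i) (C i) x / dens1 (F i) (C i) - e| + ε / 2 * Wm := by
    rw [hWm, Finset.mul_sum]
    refine le_trans ?_ (add_le_add le_rfl h1)
    rw [← Finset.sum_add_distrib]
    refine Finset.sum_le_sum fun i _ => ?_
    have hw0 := wt_pos (hc i).1 (hc i).2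
    have h4 : e ≤ |er W k (F i) (C i) x / dens1 (F i) (C i) - e| +
        |er W k (F i) (C i) x| / dens1 (F i) (C i) := by
      have h5 : |er W k (F i) (C i) x| / dens1 (F i) (C i) =
          |er W k (F i) (C i) x / dens1 (F i) (C i)| := by
        rw [abs_div, abs_of_pos (hc i).1]
      rw [h5]
      have h6 := neg_abs_le (er W k (F i) (C i) x / dens1 (F i) (C i) - e)
      have h7 := le_abs_self (er W k (F i) (C i) x / dens1 (F i) (C i))
      linarith
    calc e * wt (dens1 (F i) (C i)) ≤ (|er W k (F i) (C i) x / dens1 (F i) (C i) - e| +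
        |er W k (F i) (C i) x| / dens1 (F i) (C i)) * wt (dens1 (F i) (C i)) :=
          mul_le_mul_of_nonneg_right h4 hw0.le
      _ = _ := by ring
  have hcs : (∑ i ∈ range m, wt (dens1 (F i) (C i)) *
      |er W k (F i) (C i) x / dens1 (F i) (C i) - e|) ^ 2 ≤ Wm * (1 / 2) := by
    have h4 := Finset.sum_mul_sq_le_sq_mul_sq (range m)
      (fun i => Real.sqrt (wt (dens1 (F i) (C i))))
      (fun i => Real.sqrt (wt (dens1 (F i) (C i))) *
        |er W k (F i) (C i) x / dens1 (F i) (C i) - e|)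
    have h5 : ∀ i, Real.sqrt (wt (dens1 (F i) (C i))) * (Real.sqrt (wt (dens1 (F i) (C i))) *
        |er W k (F i) (C i) x / dens1 (F i) (C i) - e|) = wt (dens1 (F i) (C i)) *
        |er W k (F i) (C i) x / dens1 (F i) (C i) - e| := fun i => by
      rw [← mul_assoc, Real.mul_self_sqrt (wt_pos (hc i).1 (hc i).2).le]
    have h6 : ∀ i, Real.sqrt (wt (dens1 (F i) (C i))) ^ 2 = wt (dens1 (F i) (C i)) := fun i =>
      Real.sq_sqrt (wt_pos (hc i).1 (hc i).2).le
    have h7 : ∀ i, (Real.sqrt (wt (dens1 (F i) (C i))) *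
        |er W k (F i) (C i) x / dens1 (F i) (C i) - e|) ^ 2 = wt (dens1 (F i) (C i)) *
        (er W k (F i) (C i) x / dens1 (F i) (C i) - e) ^ 2 := fun i => by
      rw [mul_pow, h6, sq_abs]
    simp only [h5, h6, h7] at h4
    refine h4.trans ?_
    exact mul_le_mul_of_nonneg_left h2' hWm0.le
  set A : ℝ := ∑ i ∈ range m, wt (dens1 (F i) (C i)) *
      |er W k (F i) (C i) x / dens1 (F i) (C i) - e| with hA
  have h8 : ε / 2 * Wm ≤ A := by nlinarith
  have h9 : (ε / 2 * Wm) ^ 2 ≤ A ^ 2 := pow_le_pow_left₀ (by positivity) h8 2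
  have h10 : (ε / 2 * Wm) ^ 2 ≤ Wm * (1 / 2) := h9.trans hcs
  have h11 : Wm * ε ^ 2 ≤ 2 := by
    have h12 : Wm * (Wm * ε ^ 2) ≤ Wm * 2 := by nlinarith
    exact le_of_mul_le_mul_left h12 hWm0
  have h13 : 2 < Wm * ε ^ 2 := by
    rwa [div_lt_iff₀ (by positivity)] at hm2
  linarith

/-- a law over `ℚ` gives the hypothesis of `descend` -/
theorem avg_of_law {F : ℕ → IntermediateField ℚ QA} [∀ i, NumberField (F i)]
    [∀ i, IsGalois ℚ (F i)] {C : ∀ i, Set Gal(F i/ℚ)}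
    (hc : ∀ i, 0 < dens1 (F i) (C i) ∧ dens1 (F i) (C i) < 1)
    (hl : ∀ i, Law (F i) (C i) W k) (η : ℝ) (hη : 0 < η) :
    ∀ᶠ m in atTop, ∀ᶠ x in atTop,
      ∑ i ∈ range m, wt (dens1 (F i) (C i)) * (|er W k (F i) (C i) x| / dens1 (F i) (C i)) ≤
        η * ∑ i ∈ range m, wt (dens1 (F i) (C i)) := by
  filter_upwards [eventually_ge_atTop 1] with m hm
  have h0 : Tendsto (fun x => ∑ i ∈ range m, wt (dens1 (F i) (C i)) *
      (|er W k (F i) (C i) x| / dens1 (F i) (C i))) atTop (𝓝 0) := by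
    have h1 : Tendsto (fun x => ∑ i ∈ range m, wt (dens1 (F i) (C i)) *
      (|er W k (F i) (C i) x| / dens1 (F i) (C i))) atTop (𝓝 (∑ i ∈ range m, 0)) := by
      refine tendsto_finsetSum _ fun i _ => ?_
      have h2 : Tendsto (fun x => er W k (F i) (C i) x) atTop (𝓝 0) := by
        have h3 : Tendsto (fun x => dL (F i) (C i) W k - mS (F i) (C i) W k x) atTop
          (𝓝 (dL (F i) (C i) W k - dL (F i) (C i) W k)) := tendsto_const_nhds.sub (hl i)
        rwa [sub_self] at h3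
      have h4 := (h2.abs.div_const (dens1 (F i) (C i))).const_mul (wt (dens1 (F i) (C i)))
      rwa [abs_zero, zero_div, mul_zero] at h4
    rwa [Finset.sum_const_zero] at h1
  have hpos : 0 < η * ∑ i ∈ range m, wt (dens1 (F i) (C i)) := by
    refine mul_pos hη ?_
    refine Finset.sum_pos (fun i _ => wt_pos (hc i).1 (hc i).2) ⟨0, ?_⟩
    rw [Finset.mem_range]
    omega
  filter_upwards [h0.eventually (gt_mem_nhds hpos)] with x hx
  exact hx.le

end

end Pool.Agent.Helper644_LA
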