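import Pool.Agent.Helper644_LA.Trunc

/-! # Square roots in cyclotomic fields -/

set_option autoImplicit false
set_option linter.unusedSectionVars false

namespace Pool.Agent.Helper644_LA

open NumberField IntermediateField
open Pool.Agent.W171.LG

/-- the number `q* = ± q ≡ 1 mod 4` -/
def qs (q : ℕ) : ℤ := ZMod.χ₄ (q : ZMod 4) * q

lemma qs_val {q : ℕ} (hq : q.Prime) (hq2 : q ≠ 2) : qs q % 4 = 1 ∧ (qs q).natAbs = q := by
  have h1 : q % 2 = 1 := (hq.eq_two_or_odd).resolve_left hq2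
  unfold qs
  rw [ZMod.χ₄_nat_eq_if_mod_four]
  rw [if_neg (by omega)]
  split_ifs with h
  · constructor
    · rw [one_mul]
      omega
    · simp
  · constructor
    · rw [neg_one_mul]
      omega
    · simp

lemma gauss_root {q : ℕ} (hq : q.Prime) (hq2 : q ≠ 2) {E : IntermediateField ℚ QA} {ζ : QA}
    (hζ : IsPrimitiveRoot ζ q) (hE : ζ ∈ E) : ∃ s ∈ E, s ^ 2 = ((qs q : ℤ) : QA) := by
  have : Fact q.Prime := ⟨hq⟩
  have hF : ringChar (ZMod q) ≠ 2 := by
    rw [ZMod.ringChar_zmod_n]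
    exact hq2
  let χ : MulChar (ZMod q) QA := (quadraticChar (ZMod q)).ringHomComp (Int.castRingHom QA)
  have hχ₁ : χ ≠ 1 := by
    obtain ⟨a, ha⟩ := quadraticChar_exists_neg_one' hF
    refine MulChar.ne_one_iff.mpr ⟨a, ?_⟩
    have h1 : χ a = -1 := by
      change Int.castRingHom QA (quadraticChar (ZMod q) a) = -1
      rw [ha]
      simp
    rw [h1]
    norm_num
  have hχ₂ : χ.IsQuadratic := (quadraticChar_isQuadratic (ZMod q)).comp _
  set ψ := AddChar.zmodChar q ((IsPrimitiveRoot.iff_def ζ q).mp hζ).left with hψ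
  have hprim : ψ.IsPrimitive := AddChar.zmodChar_primitive_of_primitive_root q hζ
  have hsq := gaussSum_sq hχ₁ hχ₂ hprim
  refine ⟨gaussSum χ ψ, ?_, ?_⟩
  · unfold gaussSum
    refine sum_mem fun a _ => mul_mem ?_ ?_
    · change Int.castRingHom QA (quadraticChar (ZMod q) a) ∈ E
      rw [eq_intCast]
      exact intCast_mem E _
    · rw [hψ, AddChar.zmodChar_apply]
      exact pow_mem hE _
  · rw [hsq]
    have h1 : χ (-1) = ((quadraticChar (ZMod q) (-1) : ℤ) : QA) := rfl
    rw [h1, quadraticChar_neg_one hF, ZMod.card]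
    unfold qs
    push_cast
    ring

lemma prod_qs {n' : ℤ} (hn' : Squarefree n') (h4 : n' % 4 = 1) :
    ∏ q ∈ n'.natAbs.primeFactors, qs q = n' := by
  have hodd : ∀ q ∈ n'.natAbs.primeFactors, q.Prime ∧ q ≠ 2 := by
    intro q hq
    refine ⟨Nat.prime_of_mem_primeFactors hq, ?_⟩
    rintro rfl
    have h1 : (2 : ℤ) ∣ n' := Int.natCast_dvd.2 (Nat.dvd_of_mem_primeFactors hq)
    omega
  have hsq : Squarefree n'.natAbs := Int.squarefree_natAbs.2 hn'
  have h1 : (∏ q ∈ n'.natAbs.primeFactors, qs q).natAbs = n'.natAbs := by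
    have h0 : (∏ q ∈ n'.natAbs.primeFactors, qs q).natAbs =
        ∏ q ∈ n'.natAbs.primeFactors, (qs q).natAbs := map_prod Int.natAbsHom qs _
    rw [h0]
    conv_rhs => rw [← Nat.prod_primeFactors_of_squarefree hsq]
    exact Finset.prod_congr rfl fun q hq => (qs_val (hodd q hq).1 (hodd q hq).2).2
  have h2 : (∏ q ∈ n'.natAbs.primeFactors, qs q) % 4 = 1 := by
    have key : ∀ S : Finset ℕ, (∀ q ∈ S, q.Prime ∧ q ≠ 2) → (∏ q ∈ S, qs q) % 4 = 1 := by
      intro S
      induction S using Finset.induction_on with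
      | empty => intro _; simp
      | insert q S hq ih =>
        intro h
        rw [Finset.prod_insert hq, Int.mul_emod,
          (qs_val (h q (Finset.mem_insert_self _ _)).1 (h q (Finset.mem_insert_self _ _)).2).1,
          ih fun x hx => h x (Finset.mem_insert_of_mem hx)]
        norm_num
    exact key _ hodd
  rcases Int.natAbs_eq_natAbs_iff.1 h1 with h | h
  · exact h
  · rw [h] at h2
    omega

/-- a square root of `n'` in a cyclotomic field -/
lemma sqrt_mem {n' : ℤ} (hn' : Squarefree n') (h4 : n' % 4 = 1) {d : ℕ} (hd : 0 < d)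
    (hdiv : ∀ q ∈ n'.natAbs.primeFactors, q ∣ d) {E : IntermediateField ℚ QA} {ζ : QA}
    (hζ : IsPrimitiveRoot ζ d) (hE : ζ ∈ E) : ∃ s ∈ E, s ^ 2 = ((n' : ℤ) : QA) := by
  have h1 : ∀ q ∈ n'.natAbs.primeFactors, ∃ s ∈ E, s ^ 2 = ((qs q : ℤ) : QA) := by
    intro q hq
    obtain ⟨t, ht⟩ := hdiv q hq
    refine gauss_root (Nat.prime_of_mem_primeFactors hq) ?_ (ζ := ζ ^ t) ?_ (pow_mem hE _)
    · rintro rfl
      have h1 : (2 : ℤ) ∣ n' := Int.natCast_dvd.2 (Nat.dvd_of_mem_primeFactors hq)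
      omega
    · exact hζ.pow hd (by rw [ht]; ring)
  choose! s hs hs2 using h1
  refine ⟨∏ q ∈ n'.natAbs.primeFactors, s q, prod_mem hs, ?_⟩
  rw [← Finset.prod_pow, Finset.prod_congr rfl hs2]
  conv_rhs => rw [← prod_qs hn' h4]
  push_cast
  rfl

/-- there is no square root of `n'` in a cyclotomic field which is unramified at some prime
dividing `n'` -/
lemma no_sqrt {n' : ℤ} (hn' : Squarefree n') {q d : ℕ} (hq : q.Prime) (hqn : (q : ℤ) ∣ n')
    (hd : 0 < d) (hqd : ¬ q ∣ d) {K : Type} [Field K] [NumberField K]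
    [IsCyclotomicExtension {d} ℚ K] (b : K) : b ^ 2 ≠ ((n' : ℤ) : K) := by
  have : Fact q.Prime := ⟨hq⟩
  have : NeZero d := ⟨hd.ne'⟩
  obtain ⟨P, hP, hl⟩ := exists_over (K := K) hq
  have hram : Ideal.ramificationIdx P ℤ = 1 :=
    IsCyclotomicExtension.Rat.ramificationIdx_eq_of_not_dvd q K P (m := d) hqd
  refine no_root (t := 1) hq (by norm_num) P hram (by simpa using hqn) ?_ (by norm_num) b
  intro h
  have h1 : (q : ℤ) * q ∣ n' := by
    have : (q : ℤ) ^ (1 + 1) = (q : ℤ) * q := by ring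
    rwa [this] at h
  have h2 := hn' _ h1
  rw [Int.isUnit_iff] at h2
  have := hq.two_le
  omega

end Pool.Agent.Helper644_LA
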