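import Pool.Agent.Helper644_LA.Comp

/-! # Joint densities of Frobenius conditions in linearly disjoint fields -/

set_option autoImplicit false
set_option linter.unusedSectionVars false

namespace Pool.Agent.Helper644_LA

open NumberField Filter Topology Finset IntermediateField
open Pool.Agent.W401.Cheb
open Pool.Agent.W171.LG

section gen
variable {k Ω : Type*} [Field k] [Field Ω] [Algebra k Ω] (F E : IntermediateField k Ω)

lemma gal_sup [CharZero k] [Normal k F] [Normal k E] :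
    IsGalois k (F ⊔ E : IntermediateField k Ω) := by
  have : Normal k (F ⊔ E : IntermediateField k Ω) := IntermediateField.normal_sup k Ω F E
  exact ⟨⟩

lemma finrank_sup' [IsGalois k F] [FiniteDimensional k F] [FiniteDimensional k E]
    (h : F ⊓ E = ⊥) : Module.finrank k (F ⊔ E : IntermediateField k Ω) =
      Module.finrank k F * Module.finrank k E :=
  (IntermediateField.LinearDisjoint.of_inf_eq_bot h).finrank_sup

/-- restriction of automorphisms of `F ⊔ E` to `E` -/
noncomputable def resE [Normal k E] : ((F ⊔ E : IntermediateField k Ω) ≃ₐ[k]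
    (F ⊔ E : IntermediateField k Ω)) →* (E ≃ₐ[k] E) :=
  letI : Algebra E (F ⊔ E : IntermediateField k Ω) := (inclusion le_sup_right).toRingHom.toAlgebra
  haveI : IsScalarTower k E (F ⊔ E : IntermediateField k Ω) :=
    IsScalarTower.of_algebraMap_eq fun x => ((inclusion le_sup_right).commutes x).symm
  AlgEquiv.restrictNormalHom E

lemma resE_spec [Normal k E] (τ : ((F ⊔ E : IntermediateField k Ω) ≃ₐ[k]
    (F ⊔ E : IntermediateField k Ω))) (y : E) :
    ((resE F E τ y : E) : Ω) = (τ (inclusion le_sup_right y) : Ω) := by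
  let : Algebra E (F ⊔ E : IntermediateField k Ω) := (inclusion le_sup_right).toRingHom.toAlgebra
  have : IsScalarTower k E (F ⊔ E : IntermediateField k Ω) :=
    IsScalarTower.of_algebraMap_eq fun x => ((inclusion le_sup_right).commutes x).symm
  have h := AlgEquiv.restrictNormal_commutes τ E y
  exact congrArg (fun z : (F ⊔ E : IntermediateField k Ω) => (z : Ω)) h

lemma res_injE [Normal k F] [Normal k E] :
    Function.Injective (fun τ : ((F ⊔ E : IntermediateField k Ω) ≃ₐ[k]
      (F ⊔ E : IntermediateField k Ω)) => (res F E τ, resE F E τ)) := by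
  intro τ τ' h
  rw [Prod.mk.injEq] at h
  have h3 : τ'⁻¹ * τ = 1 := by
    apply eq_one_of_fix
    · intro y hy
      have h4 : τ y = τ' y := by
        apply Subtype.ext
        have h5 := res_spec F E τ ⟨y, hy⟩
        have h6 := res_spec F E τ' ⟨y, hy⟩
        rw [h.1] at h5
        exact (h5.symm.trans h6)
      rw [AlgEquiv.mul_apply, h4]
      exact τ'.symm_apply_apply y
    · intro y hy
      have h4 : τ y = τ' y := by
        apply Subtype.ext
        have h5 := resE_spec F E τ ⟨y, hy⟩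
        have h6 := resE_spec F E τ' ⟨y, hy⟩
        rw [h.2] at h5
        exact (h5.symm.trans h6)
      rw [AlgEquiv.mul_apply, h4]
      exact τ'.symm_apply_apply y
  exact (inv_mul_eq_one.1 h3).symm

end gen

section
variable (F E : IntermediateField ℚ QA) [NumberField F] [IsGalois ℚ F] [NumberField E]
  [IsGalois ℚ E]

/-- restriction to the second field -/
noncomputable def resR : Gal((F ⊔ E : IntermediateField ℚ QA)/ℚ) →* Gal(E/ℚ) :=
  @resE ℚ QA _ _ _ F E (inferInstance : Normal ℚ E)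

lemma resR_spec (τ : Gal((F ⊔ E : IntermediateField ℚ QA)/ℚ)) (y : E) :
    ((resR F E τ y : E) : QA) = (τ (inclusion le_sup_right y) : QA) :=
  @resE_spec ℚ QA _ _ _ F E (inferInstance : Normal ℚ E) τ y

lemma frob_resR {p : ℕ} [Fact p.Prime] [NumberField (F ⊔ E : IntermediateField ℚ QA)]
    [IsGalois ℚ (F ⊔ E : IntermediateField ℚ QA)]
    {φ : 𝓞 (F ⊔ E : IntermediateField ℚ QA) →+* AlgebraicClosure (ZMod p)}
    {τ : Gal((F ⊔ E : IntermediateField ℚ QA)/ℚ)} (hτ : HasFrob p φ τ) :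
    ∃ ψ : 𝓞 E →+* AlgebraicClosure (ZMod p), HasFrob p ψ (resR F E τ) := by
  let : Algebra E (F ⊔ E : IntermediateField ℚ QA) := (inclusion le_sup_right).toRingHom.toAlgebra
  refine ⟨rs φ, hasFrob_rs (L := E) (L' := (F ⊔ E : IntermediateField ℚ QA)) (resR F E) ?_ hτ⟩
  intro σ x
  apply Subtype.ext
  exact resR_spec F E σ x

lemma sup_nf : NumberField (F ⊔ E : IntermediateField ℚ QA) :=
  have : FiniteDimensional ℚ F := NumberField.to_finiteDimensional
  have : FiniteDimensional ℚ E := NumberField.to_finiteDimensional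
  { to_charZero := inferInstance
    to_finiteDimensional := IntermediateField.finiteDimensional_sup _ _ }

lemma sup_gal : IsGalois ℚ (F ⊔ E : IntermediateField ℚ QA) :=
  have hF : Normal ℚ F := inferInstance
  have hE : Normal ℚ E := inferInstance
  @gal_sup ℚ QA _ _ _ F E inferInstance hF hE

/-- the pair of restrictions -/
lemma res_inj : Function.Injective (fun τ : Gal((F ⊔ E : IntermediateField ℚ QA)/ℚ) =>
    (resQ F E τ, resR F E τ)) :=
  @res_injE ℚ QA _ _ _ F E (inferInstance : Normal ℚ F) (inferInstance : Normal ℚ E)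

lemma fr_sup (h : F ⊓ E = ⊥) : Module.finrank ℚ (F ⊔ E : IntermediateField ℚ QA) =
    Module.finrank ℚ F * Module.finrank ℚ E :=
  have iF : FiniteDimensional ℚ F := NumberField.to_finiteDimensional
  have iE : FiniteDimensional ℚ E := NumberField.to_finiteDimensional
  @finrank_sup' ℚ QA _ _ _ F E (inferInstance : IsGalois ℚ F) iF iE h

/-- the density of a Frobenius condition -/
noncomputable def dens1 (F : IntermediateField ℚ QA) (C : Set Gal(F/ℚ)) : ℝ :=
  (Nat.card C : ℝ) / (Nat.card Gal(F/ℚ) : ℝ)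

variable {F E}

lemma single {C : Set Gal(F/ℚ)} (hC : ∀ σ ∈ C, ∀ τ : Gal(F/ℚ), τ * σ * τ⁻¹ ∈ C) :
    Tendsto (M (ind fun p => GF F C p)) atTop (𝓝 (dens1 F C)) := by
  classical
  refine M_congr (D := 1) one_pos ?_ (mean_FI hC)
  intro p hp _
  by_cases h : GF F C p
  · rw [ind_pos (A := fun p => GF F C p) h, if_pos ((GF_iff C hp).1 h)]
  · rw [ind_neg (A := fun p => GF F C p) h, if_neg (fun h' => h ((GF_iff C hp).2 h'))]

/-- **independence** -/
theorem joint {C : Set Gal(F/ℚ)} {D : Set Gal(E/ℚ)}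
    (hC : ∀ σ ∈ C, ∀ τ : Gal(F/ℚ), τ * σ * τ⁻¹ ∈ C)
    (hD : ∀ σ ∈ D, ∀ τ : Gal(E/ℚ), τ * σ * τ⁻¹ ∈ D) (h : F ⊓ E = ⊥) :
    Tendsto (M (ind fun p => GF F C p ∧ GF E D p)) atTop (𝓝 (dens1 F C * dens1 E D)) := by
  classical
  have iF : FiniteDimensional ℚ F := NumberField.to_finiteDimensional
  have iE : FiniteDimensional ℚ E := NumberField.to_finiteDimensional
  have i1 : NumberField (F ⊔ E : IntermediateField ℚ QA) := sup_nf F E
  have i2 : IsGalois ℚ (F ⊔ E : IntermediateField ℚ QA) := sup_gal F E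
  let X : Set Gal((F ⊔ E : IntermediateField ℚ QA)/ℚ) := {τ | resQ F E τ ∈ C ∧ resR F E τ ∈ D}
  have hX : ∀ σ ∈ X, ∀ τ, τ * σ * τ⁻¹ ∈ X := by
    rintro σ ⟨h1, h2⟩ τ
    refine ⟨?_, ?_⟩
    · have := hC _ h1 (resQ F E τ)
      rwa [← map_mul, ← map_inv, ← map_mul] at this
    · have := hD _ h2 (resR F E τ)
      rwa [← map_mul, ← map_inv, ← map_mul] at this
  have hfr := fr_sup F E h
  have hcard : Nat.card Gal((F ⊔ E : IntermediateField ℚ QA)/ℚ) =
      Nat.card (Gal(F/ℚ) × Gal(E/ℚ)) := by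
    rw [Nat.card_prod, IsGalois.card_aut_eq_finrank, IsGalois.card_aut_eq_finrank,
      IsGalois.card_aut_eq_finrank, hfr]
  have hbij : Function.Bijective (fun τ : Gal((F ⊔ E : IntermediateField ℚ QA)/ℚ) =>
      (resQ F E τ, resR F E τ)) :=
    (res_inj F E).bijective_of_nat_card_le hcard.ge
  have hcX : Nat.card X = Nat.card C * Nat.card D := by
    rw [← Nat.card_prod]
    refine Nat.card_congr (Equiv.ofBijective (fun τ : X => ((⟨resQ F E τ.1, τ.2.1⟩ : C),
      (⟨resR F E τ.1, τ.2.2⟩ : D))) ⟨?_, ?_⟩)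
    · intro a b hab
      rw [Prod.mk.injEq, Subtype.mk.injEq, Subtype.mk.injEq] at hab
      apply Subtype.ext
      exact hbij.1 (Prod.ext hab.1 hab.2)
    · rintro ⟨⟨c, hc⟩, ⟨d, hd⟩⟩
      obtain ⟨τ, hτ⟩ := hbij.2 (c, d)
      rw [Prod.mk.injEq] at hτ
      refine ⟨⟨τ, by rw [hτ.1]; exact hc, by rw [hτ.2]; exact hd⟩, ?_⟩
      rw [Prod.mk.injEq, Subtype.mk.injEq, Subtype.mk.injEq]
      exact hτ
  have hm := mean_FI hX
  rw [hcX, hcard, Nat.card_prod, Nat.cast_mul, Nat.cast_mul, mul_div_mul_comm] at hm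
  obtain ⟨D1, hD1, hT1⟩ := torsor (F ⊔ E : IntermediateField ℚ QA)
  obtain ⟨D2, hD2, hT2⟩ := torsor F
  obtain ⟨D3, hD3, hT3⟩ := torsor E
  refine M_congr (D := D1 * D2 * D3) (by positivity) ?_ hm
  intro p hp hpD
  have : Fact p.Prime := ⟨hp⟩
  have hTK := hT1 p fun h => hpD (by
    rw [mul_assoc]
    exact Dvd.dvd.mul_right h _)
  have hTF := hT2 p fun h => hpD (Dvd.dvd.mul_right (Dvd.dvd.mul_left h _) _)
  have hTE := hT3 p fun h => hpD (Dvd.dvd.mul_left h _)
  obtain ⟨φ⟩ := nonempty_hom hTK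
  obtain ⟨τ, hτ⟩ := exists_frob hTK φ
  obtain ⟨ψ1, hψ1⟩ := frob_res F E hτ
  obtain ⟨ψ2, hψ2⟩ := frob_resR F E hτ
  have key : FI (F ⊔ E : IntermediateField ℚ QA) X p ↔ (GF F C p ∧ GF E D p) := by
    rw [fi_iff hTK hX hτ, GF_iff C hp, GF_iff D hp, fi_iff hTF hC hψ1, fi_iff hTE hD hψ2]
    rfl
  by_cases h' : GF F C p ∧ GF E D p
  · rw [ind_pos (A := fun p => GF F C p ∧ GF E D p) h', if_pos (key.2 h')]
  · rw [ind_neg (A := fun p => GF F C p ∧ GF E D p) h', if_neg (fun h'' => h' (key.1 h''))]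

end

end Pool.Agent.Helper644_LA
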