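import Pool.Agent.Helper644_LA.Final

/-! # Roots of rational numbers -/

set_option autoImplicit false

namespace Pool.Agent.Helper644_LA

open Pool.Agent.W171.LG
open Pool.Agent.W401.Cheb

lemma exists_val {u : ℚˣ} (hu : |((u : ℚˣ) : ℚ)| ≠ 1) :
    ∃ p : ℕ, p.Prime ∧ padicValRat p (u : ℚ) ≠ 0 := by
  by_contra hcon
  push Not at hcon
  apply hu
  have hnum : (u : ℚ).num ≠ 0 := Rat.num_ne_zero.2 u.ne_zero
  have h1 : ∀ p : ℕ, p.Prime → ¬ p ∣ (u : ℚ).num.natAbs ∧ ¬ p ∣ (u : ℚ).den := by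
    intro p hp
    have : Fact p.Prime := ⟨hp⟩
    have h2 := (un_iff (p := p) u.ne_zero).2 (hcon p hp)
    unfold Un at h2
    rw [Ne, Ne, ZMod.intCast_zmod_eq_zero_iff_dvd, ZMod.natCast_eq_zero_iff] at h2
    exact ⟨fun h => h2.1 (Int.natCast_dvd.2 h), h2.2⟩
  have h3 : (u : ℚ).num.natAbs = 1 := by
    by_contra h
    obtain ⟨p, hp, hd⟩ := Nat.exists_prime_and_dvd h
    exact (h1 p hp).1 hd
  have h4 : (u : ℚ).den = 1 := by
    by_contra h
    obtain ⟨p, hp, hd⟩ := Nat.exists_prime_and_dvd h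
    exact (h1 p hp).2 hd
  have h5 : (u : ℚ) = (u : ℚ).num := by
    conv_lhs => rw [← Rat.num_div_den (u : ℚ)]
    rw [h4]
    simp
  rw [h5, ← Int.cast_abs, Int.abs_eq_natAbs, h3]
  simp

/-- a positive power of a number `> 1` which is not a perfect power -/
lemma exists_root {v : ℚˣ} (hv : 1 < (v : ℚ)) : ∃ b : ℚˣ, 1 < (b : ℚ) ∧
    (∀ (c : ℚ) (r : ℕ), 1 < r → c ^ r ≠ (b : ℚ)) ∧ ∃ m : ℕ, m ≠ 0 ∧ b ^ m = v := by
  classical
  have hv1 : |((v : ℚˣ) : ℚ)| ≠ 1 := by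
    rw [abs_of_pos (by linarith)]
    exact hv.ne'
  obtain ⟨p, hp, hval⟩ := exists_val hv1
  have : Fact p.Prime := ⟨hp⟩
  set N := (padicValRat p (v : ℚ)).natAbs with hN
  have hN0 : 0 < N := Int.natAbs_pos.2 hval
  let P : ℕ → Prop := fun m => ∃ b : ℚ, 0 < b ∧ b ^ m = (v : ℚ)
  have hbd : ∀ m, P m → m ≤ N := by
    rintro m ⟨b, hb, h⟩
    have h1 : (m : ℤ) ∣ padicValRat p (v : ℚ) := by
      rw [← h, padicValRat.pow]
      exact Dvd.intro _ rfl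
    exact Nat.le_of_dvd hN0 (Int.natCast_dvd.1 h1)
  have hP1 : P 1 := ⟨v, by linarith, pow_one _⟩
  have hsp : P (Nat.findGreatest P N) := Nat.findGreatest_spec hN0 hP1
  set m := Nat.findGreatest P N with hm
  have hm1 : 1 ≤ m := Nat.le_findGreatest hN0 hP1
  obtain ⟨b, hb0, hb⟩ := hsp
  have hb1 : 1 < b := by
    by_contra hcon
    have := pow_le_one₀ hb0.le (not_lt.1 hcon) (n := m)
    linarith
  refine ⟨Units.mk0 b hb0.ne', hb1, ?_, m, by omega, ?_⟩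
  · intro c r hr hc
    rw [Units.val_mk0] at hc
    have hc0 : c ≠ 0 := by
      rintro rfl
      rw [zero_pow (by omega)] at hc
      linarith
    have h1 : P (r * m) := by
      refine ⟨|c|, abs_pos.2 hc0, ?_⟩
      rw [pow_mul, ← abs_pow, hc, abs_of_pos hb0, hb]
    have h2 := Nat.le_findGreatest (hbd _ h1) h1
    rw [← hm] at h2
    nlinarith
  · apply Units.ext
    rw [Units.val_pow_eq_pow_val, Units.val_mk0, hb]

/-- a group which contains a number of infinite order contains a power of a number `> 1` which is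
not a perfect power -/
lemma exists_base {W : Subgroup ℚˣ} (hP : Pos W) : ∃ b : ℚˣ, 1 < (b : ℚ) ∧
    (∀ (c : ℚ) (r : ℕ), 1 < r → c ^ r ≠ (b : ℚ)) ∧
    ∃ m : ℕ, m ≠ 0 ∧ ∀ w ∈ Subgroup.zpowers b, w ^ m ∈ W := by
  obtain ⟨u, hu, hu1⟩ := hP
  obtain ⟨v, hv, hvW⟩ : ∃ v : ℚˣ, 1 < (v : ℚ) ∧ v ∈ W := by
    have h0 : 0 < |((u : ℚˣ) : ℚ)| := abs_pos.2 u.ne_zero
    rcases lt_or_gt_of_ne hu1 with h | h
    · refine ⟨(u ^ 2)⁻¹, ?_, W.inv_mem (W.pow_mem hu 2)⟩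
      rw [Units.val_inv_eq_inv_val, Units.val_pow_eq_pow_val, ← sq_abs]
      refine (one_lt_inv₀ (by positivity)).2 ?_
      exact pow_lt_one₀ h0.le h (by norm_num)
    · refine ⟨u ^ 2, ?_, W.pow_mem hu 2⟩
      rw [Units.val_pow_eq_pow_val, ← sq_abs]
      exact one_lt_pow₀ h (by norm_num)
  obtain ⟨b, hb1, hb2, m, hm, hbm⟩ := exists_root hv
  refine ⟨b, hb1, hb2, m, hm, ?_⟩
  intro w hw
  obtain ⟨i, rfl⟩ := Subgroup.mem_zpowers_iff.1 hw
  have h1 : (b ^ i) ^ m = v ^ i := by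
    rw [← hbm, ← zpow_natCast, ← zpow_natCast, zpow_comm]
  rw [h1]
  exact W.zpow_mem hvW i

end Pool.Agent.Helper644_LA
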