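import Pool.Agent.Helper644_LA.Comp

/-! # Lenstra's density and tightness of the index -/

set_option autoImplicit false
set_option linter.unusedSectionVars false

namespace Pool.Agent.Helper644_LA

open NumberField Filter Topology Finset IntermediateField
open Pool.Agent.W401.Cheb
open Pool.Agent.W171.LG
open Pool.Agent.H386R2.Artin (PP LC_pos)
open Pool.Agent.H981R3.LN (ql Sk mem_Sk mem_PP Sk_dvd Sk_prime Qn Qn_dvd Qn_pos SL mem_SL prod_ql_pos)
open Pool.Agent.H730R2.AA.Euler (mu_eq_prod summable_bound sqrt_le_totient)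

lemma Lf_one (W : Subgroup ℚˣ) : Lf QA W 1 = ⊥ := by
  unfold Lf
  rw [adjoin_eq_bot_iff]
  rintro z ⟨w, hw, hz⟩
  rw [pow_one] at hz
  rw [hz]
  exact IntermediateField.algebraMap_mem _ _

section
variable {W : Subgroup ℚˣ}

lemma tW_one (k : ℕ) : tW Q0 Set.univ W k 1 = 1 := by
  unfold tW
  have h1 : Qn k 1 = 1 := by
    unfold Qn
    simp
  rw [h1, cE_triv, Lf_one, bot_sup_eq, ArithmeticFunction.moebius_apply_one]
  have : Module.finrank ℚ (⊥ : IntermediateField ℚ QA) = 1 := IntermediateField.finrank_bot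
  rw [this]
  norm_num

/-- the numbers `(K!) ^ K` -/
def kK (K : ℕ) : ℕ := K.factorial ^ K

lemma kK_ne (K : ℕ) : kK K ≠ 0 := pow_ne_zero _ (Nat.factorial_ne_zero K)

lemma le_Qn {n K : ℕ} (hn : 1 < n) (hK : n ≤ K) : K ≤ Qn (kK K) n := by
  obtain ⟨l, hl, hln⟩ := Nat.exists_prime_and_dvd (by omega : n ≠ 1)
  have hlK : l ≤ K := (Nat.le_of_dvd (by omega) hln).trans hK
  have h1 : K ≤ (kK K).factorization l := by
    unfold kK
    rw [Nat.factorization_pow]
    have h2 : 1 ≤ K.factorial.factorization l :=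
      (hl.dvd_iff_one_le_factorization (Nat.factorial_ne_zero K)).1
        ((hl.dvd_factorial).2 hlK)
    simpa using Nat.le_mul_of_pos_right K h2
  have h2 : ql (kK K) l ∣ Qn (kK K) n := by
    unfold Qn
    exact Finset.dvd_prod_of_mem _ (Nat.mem_primeFactors.2 ⟨hl, hln, by omega⟩)
  refine le_trans ?_ (Nat.le_of_dvd (Qn_pos _ _) h2)
  unfold ql
  have h3 : K < 2 ^ K := Nat.lt_two_pow_self
  calc K ≤ 2 ^ K := h3.le
    _ ≤ 2 ^ ((kK K).factorization l + 1) := Nat.pow_le_pow_right (by norm_num) (by omega)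
    _ ≤ _ := Nat.pow_le_pow_left hl.two_le _

lemma tW_lim (hW : W.FG) (n : ℕ) (hn : n ≠ 1) :
    Tendsto (fun K => tW Q0 Set.univ W (kK K) n) atTop (𝓝 0) := by
  by_cases hs : Squarefree n
  swap
  · have h0 : ∀ K, tW Q0 Set.univ W (kK K) n = 0 := by
      intro K
      unfold tW
      rw [ArithmeticFunction.moebius_eq_zero_of_not_squarefree hs]
      simp
    simp_rw [h0]
    exact tendsto_const_nhds
  have hn0 : n ≠ 0 := hs.ne_zero
  have hlim : Tendsto (fun K : ℕ => 2 / Real.sqrt (K : ℝ)) atTop (𝓝 0) :=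
    tendsto_const_nhds.div_atTop (Real.tendsto_sqrt_atTop.comp tendsto_natCast_atTop_atTop)
  refine squeeze_zero_norm' ?_ hlim
  filter_upwards [eventually_ge_atTop n, eventually_ge_atTop 1] with K hK hK1
  have hQ := le_Qn (by omega) hK
  set Q := Qn (kK K) n with hQd
  have hQ0 : 0 < Q := Qn_pos _ _
  have ht := totient_le_sup Q0 hW hQ0
  have h3 := sqrt_le_totient Q hQ0
  have hKr : (0 : ℝ) < K := by exact_mod_cast hK1
  have h4 : Real.sqrt K ≤ Real.sqrt Q := Real.sqrt_le_sqrt (by exact_mod_cast hQ)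
  have h5 : 0 < Real.sqrt (K : ℝ) := Real.sqrt_pos.2 hKr
  have h6 : (Nat.totient Q : ℝ) ≤
      (Module.finrank ℚ (Q0 ⊔ Lf QA W Q : IntermediateField ℚ QA) : ℝ) := by exact_mod_cast ht
  have h7 : Real.sqrt (K : ℝ) ≤
      2 * (Module.finrank ℚ (Q0 ⊔ Lf QA W Q : IntermediateField ℚ QA) : ℝ) := by linarith
  have h8 : |((ArithmeticFunction.moebius n : ℤ) : ℝ)| ≤ 1 := by
    exact_mod_cast ArithmeticFunction.abs_moebius_le_one (n := n)
  unfold tW
  rw [← hQd, cE_triv, Nat.cast_one, mul_one, Real.norm_eq_abs, abs_div, Nat.abs_cast]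
  rw [div_le_div_iff₀ (by linarith) h5]
  nlinarith [abs_nonneg ((ArithmeticFunction.moebius n : ℤ) : ℝ)]

/-- Lenstra's density for `ℚ` tends to `1` -/
theorem dL_lim (hW : W.FG) (hP : Pos W) :
    Tendsto (fun K => dL Q0 Set.univ W (kK K)) atTop (𝓝 1) := by
  obtain ⟨u, hu, hu1⟩ := hP
  obtain ⟨r, hr, hur⟩ := exists_r hu1
  have h1 : (1 : ℝ) = ∑' n : ℕ, (if n = 1 then (1 : ℝ) else 0) := by
    rw [tsum_ite_eq]
  rw [h1]
  unfold dL
  refine tendsto_tsum_of_dominated_convergence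
    (bound := fun n : ℕ => 2 * (r : ℝ) * (Nat.card Gal(Q0/ℚ) : ℝ) *
      (2 * (1 / (n : ℝ) ^ (3 / 2 : ℝ)))) (summable_bound.mul_left _) ?_ ?_
  · intro n
    by_cases hn : n = 1
    · rw [if_pos hn]
      subst hn
      simp_rw [tW_one]
      exact tendsto_const_nhds
    · rw [if_neg hn]
      exact tW_lim hW n hn
  · exact Filter.Eventually.of_forall fun K n => tW_boundR Q0 Set.univ (kK K) hW hu hr hur n

end

/-- the index of `W` modulo `q` -/
noncomputable def idx (W : Subgroup ℚˣ) (q : ℕ) : ℕ :=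
  (Subgroup.closure {u : (ZMod q)ˣ | ∃ w ∈ W,
    (((w : ℚ).num : ℤ) : ZMod q) = (u : ZMod q) * (((w : ℚ).den : ℕ) : ZMod q)}).index

/-- the index is bounded outside sets of small upper density -/
def Tight (W : Subgroup ℚˣ) : Prop := ∀ ε : ℝ, 0 < ε → ∃ B : ℕ, ∀ᶠ x in atTop,
  M (ind fun q => B < idx W q) x ≤ ε

/-- Lenstra's law -/
def Law (F : IntermediateField ℚ QA) [NumberField F] [IsGalois ℚ F] (C : Set Gal(F/ℚ))
    (W : Subgroup ℚˣ) (k : ℕ) : Prop :=
  Tendsto (mS F C W k) atTop (𝓝 (dL F C W k))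

lemma univ_conj : ∀ σ ∈ (Set.univ : Set Gal(Q0/ℚ)), ∀ τ : Gal(Q0/ℚ),
    τ * σ * τ⁻¹ ∈ (Set.univ : Set Gal(Q0/ℚ)) := fun _ _ _ => Set.mem_univ _

section
variable {F : IntermediateField ℚ QA} [NumberField F] [IsGalois ℚ F]
  {C : Set Gal(F/ℚ)} {W W' : Subgroup ℚˣ} {k k' : ℕ}

lemma law_of (hC : ∀ σ ∈ C, ∀ τ : Gal(F/ℚ), τ * σ * τ⁻¹ ∈ C) (hW : W.FG) (hP : Pos W)
    (hk : k ≠ 0) (h : ∀ ε : ℝ, 0 < ε → ∀ᶠ x in atTop, dL F C W k - mS F C W k x ≤ ε) :
    Law F C W k := by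
  unfold Law
  rw [Metric.tendsto_nhds]
  intro ε hε
  filter_upwards [h (ε / 2) (by linarith), up hC hW hP hk (show 0 < ε / 2 by linarith)]
    with x h1 h2
  rw [Real.dist_eq, abs_lt]
  constructor <;> linarith

lemma pos_pow (hP : Pos W) {m : ℕ} (hm : m ≠ 0) (hWW : ∀ w ∈ W, w ^ m ∈ W') : Pos W' := by
  obtain ⟨u, hu, hu1⟩ := hP
  refine ⟨u ^ m, hWW u hu, ?_⟩
  rw [Units.val_pow_eq_pow_val, abs_pow]
  intro h
  exact hu1 ((pow_eq_one_iff_of_nonneg (abs_nonneg _) hm).1 h)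

lemma idx_ne {q : ℕ} [Fact q.Prime] : idx W q ≠ 0 := by
  unfold idx
  exact Subgroup.index_ne_zero_of_finite

/-- laws for all `k` imply tightness -/
theorem tight_of_law (hW : W.FG) (hP : Pos W)
    (h : ∀ K : ℕ, 0 < K → ∃ k : ℕ, 0 < k ∧ K ∣ k ∧ Law Q0 Set.univ W k) : Tight W := by
  classical
  intro ε hε
  have h1 := (dL_lim hW hP).eventually (lt_mem_nhds (show 1 - ε / 4 < 1 by linarith))
  obtain ⟨K, hK⟩ := h1.exists
  obtain ⟨k, hk, hKk, hlaw⟩ := h (kK K) (Nat.pos_of_ne_zero (kK_ne K))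
  obtain ⟨D, hD, hGF⟩ := GF_triv
  have hmono := mono_err (F := Q0) (F' := Q0) univ_conj univ_conj hW hP hk.ne' hKk
    (D := D) hD (fun p hp hpD _ => hGF p hp hpD) (show 0 < ε / 4 by linarith)
  have h2 := (Metric.tendsto_nhds.1 hlaw) (ε / 4) (by linarith)
  have h3 := M_one.eventually (gt_mem_nhds (show (1 : ℝ) < 1 + ε / 4 by linarith))
  refine ⟨kK K, ?_⟩
  filter_upwards [hmono, h2, h3] with x hx1 hx2 hx3
  rw [Real.dist_eq, abs_lt] at hx2
  have h4 : M (fun p => ind (fun q => kK K < idx W q) p +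
      (if LC Q0 Set.univ (kK K) W p then 1 else 0)) x ≤ M (fun _ => 1) x := by
    refine M_mono (fun p hp => ?_) x
    have : Fact p.Prime := ⟨hp⟩
    by_cases h5 : LC Q0 Set.univ (kK K) W p
    · have h6 : ¬ kK K < idx W p := by
        have h7 : idx W p ∣ kK K := h5.2.2
        have := Nat.le_of_dvd (Nat.pos_of_ne_zero (kK_ne K)) h7
        omega
      rw [if_pos h5, ind_neg (A := fun q => kK K < idx W q) h6]
      norm_num
    · rw [if_neg h5, add_zero]
      by_cases h6 : kK K < idx W p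
      · rw [ind_pos (A := fun q => kK K < idx W q) h6]
      · rw [ind_neg (A := fun q => kK K < idx W q) h6]
        norm_num
  rw [M_add] at h4
  have h5 : M (fun p => if LC Q0 Set.univ (kK K) W p then 1 else 0) x =
    mS Q0 Set.univ W (kK K) x := rfl
  rw [h5] at h4
  linarith [hx2.1, hx2.2]

/-- tightness implies the law for all larger groups -/
theorem law_of_tight (hC : ∀ σ ∈ C, ∀ τ : Gal(F/ℚ), τ * σ * τ⁻¹ ∈ C) (hW : W.FG) (hP : Pos W)
    (hW' : W'.FG) {m : ℕ} (hm : m ≠ 0) (hWW : ∀ w ∈ W, w ^ m ∈ W') (hk' : k' ≠ 0)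
    (h : Tight W) : Law F C W' k' := by
  classical
  refine law_of hC hW' (pos_pow hP hm hWW) hk' fun ε hε => ?_
  obtain ⟨B, hB⟩ := h (ε / 4) (by linarith)
  obtain ⟨D1, hD1, hU⟩ := exists_unW hW
  obtain ⟨D, hD, hGF⟩ := GF_triv
  have h1 := tail_err (k := B.factorial) hC hW hW' (pos_pow hP hm hWW) hm hWW
    (Nat.factorial_ne_zero B) hk' (show 0 < ε / 4 by linarith)
  have h2 := (M_fin (D := D * D1) (Nat.mul_pos hD hD1)).eventually
    (gt_mem_nhds (show (0 : ℝ) < ε / 4 by linarith))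
  have h3 := M_one.eventually (lt_mem_nhds (show 1 - ε / 4 < (1 : ℝ) by linarith))
  filter_upwards [h1, h2, h3, hB] with x hx1 hx2 hx3 hx4
  have h4 : M (fun _ => 1) x ≤ M (fun p => (ind (fun q => B < idx W q) p +
      (if LC Q0 Set.univ B.factorial W p then 1 else 0)) + (if p ∣ D * D1 then 1 else 0)) x := by
    refine M_mono (fun p hp => ?_) x
    have : Fact p.Prime := ⟨hp⟩
    have a1 := ind_nonneg (fun q => B < idx W q) p
    have a2 : (0 : ℝ) ≤ if LC Q0 Set.univ B.factorial W p then 1 else 0 := by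
      split_ifs <;> norm_num
    have a3 : (0 : ℝ) ≤ if p ∣ D * D1 then 1 else 0 := by split_ifs <;> norm_num
    by_cases h5 : p ∣ D * D1
    · rw [if_pos h5]
      linarith
    · by_cases h6 : B < idx W p
      · rw [ind_pos (A := fun q => B < idx W q) h6]
        linarith
      · have h7 : LC Q0 Set.univ B.factorial W p := by
          refine ⟨hGF p hp fun h => h5 (h.mul_right _),
            (unW_iff W).1 (hU p fun h => h5 (h.mul_left _)), ?_⟩
          exact Nat.dvd_factorial (Nat.pos_of_ne_zero idx_ne) (not_lt.1 h6)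
        rw [if_pos h7]
        linarith
  rw [M_add, M_add] at h4
  have h5 : M (fun p => if LC Q0 Set.univ B.factorial W p then 1 else 0) x =
    mS Q0 Set.univ W B.factorial x := rfl
  rw [h5] at h4
  linarith

end

end Pool.Agent.Helper644_LA
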