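import Pool.Agent.W171.LG.CloseR
import Pool.Agent.W171.LG.PowTwo
import Pool.Agent.W171.LG.Core

/-! # Truncated densities of Lenstra's problem for a fixed group -/

set_option autoImplicit false
set_option linter.unusedSectionVars false

namespace Pool.Agent.Helper644_LA

open NumberField Filter Topology Finset IntermediateField
open Pool.Agent.W401.Cheb
open Pool.Agent.W171.LG
open Pool.Agent.H386R2.Artin (PP LC_pos)
open Pool.Agent.H981R3.LN (ql Sk mem_Sk mem_PP Sk_dvd Sk_prime Qn Qn_dvd Qn_pos SL mem_SL prod_ql_pos)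
open Pool.Agent.H730R2.AA.Euler (mu_eq_prod summable_bound sqrt_le_totient)

section
variable (F : IntermediateField ℚ QA) [NumberField F] [IsGalois ℚ F] (C : Set Gal(F/ℚ))
  (W : Subgroup ℚˣ) (k : ℕ)

/-- the truncated conditions -/
def G (y p : ℕ) : Prop := gd F C W k (PP y) p

/-- the truncated density -/
noncomputable def dT (y : ℕ) : ℝ := ∑ n ∈ SL y, tW F C W k n

open Classical in
lemma dLr_dT (y : ℕ) : dLr F C W ⊥ k (PP y) 0 = dT F C W k y := by
  have hPP : PP 0 = ∅ := by decide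
  have e0 : dLr F C W ⊥ k (PP y) 0 = ∑ J ∈ (PP y).powerset,
      (-1 : ℝ) ^ #J * ((cE F C (Lf QA W (∏ l ∈ J, ql k l)) : ℝ) /
          (Module.finrank ℚ (F ⊔ Lf QA W (∏ l ∈ J, ql k l) : IntermediateField ℚ QA) : ℝ)) := by
    unfold dLr
    have hset : (PP 0).powerset.filter (fun K => Disjoint K (PP y)) = {∅} := by
      rw [hPP, Finset.powerset_empty, filter_true_of_mem]
      intro K hK
      rw [Finset.mem_singleton] at hK
      rw [hK]
      exact Finset.disjoint_empty_left _
    rw [hset, Finset.sum_singleton, Finset.card_empty, pow_zero, Finset.prod_empty, Nat.cast_one,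
      div_one, one_mul, one_mul]
    refine Finset.sum_congr rfl fun J _ => ?_
    congr 1
    have e1 : Lf QA W (∏ l ∈ J, ql k l) ⊔ Lf QA (⊥ : Subgroup ℚˣ) (∏ l ∈ (∅ : Finset ℕ), ql k l) =
        Lf QA W (∏ l ∈ J, ql k l) := by
      rw [Finset.prod_empty, Lf_bot_one, sup_bot_eq]
    exact congrArg (fun E : IntermediateField ℚ QA => (cE F C E : ℝ) /
      (Module.finrank ℚ (F ⊔ E : IntermediateField ℚ QA) : ℝ)) e1
  rw [e0]
  unfold dT SL
  rw [Finset.sum_image]
  · refine Finset.sum_congr rfl fun K hK => ?_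
    rw [mem_powerset] at hK
    have hp : ∀ l ∈ K, l.Prime := fun l hl => (mem_PP.1 (hK hl)).2
    have h1 : (∏ l ∈ K, l).primeFactors = K := Nat.primeFactors_prod hp
    have hsq : Squarefree (∏ l ∈ K, l) := Pool.Agent.H771R4.AQ.sqf_prod K hp
    have h2 : Qn k (∏ l ∈ K, l) = ∏ l ∈ K, ql k l := by
      unfold Qn
      rw [h1]
    unfold tW
    rw [mu_eq_prod _ hsq, h1, Finset.prod_const, h2, mul_div_assoc]
  · intro K hK K' hK' h
    simp only [Finset.coe_powerset, Set.mem_preimage, Set.mem_powerset_iff, Finset.coe_subset]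
      at hK hK'
    have h1 : (∏ l ∈ K, l).primeFactors = K :=
      Nat.primeFactors_prod fun l hl => (mem_PP.1 (hK hl)).2
    have h2 : (∏ l ∈ K', l).primeFactors = K' :=
      Nat.primeFactors_prod fun l hl => (mem_PP.1 (hK' hl)).2
    rw [← h1, ← h2]
    exact congrArg Nat.primeFactors h

open Classical in
/-- the density of the primes which satisfy the truncated conditions -/
theorem trunc (hC : ∀ σ ∈ C, ∀ τ : Gal(F/ℚ), τ * σ * τ⁻¹ ∈ C) (hW : W.FG) (y : ℕ) :
    Tendsto (M fun p => if G F C W k y p then 1 else 0) atTop (𝓝 (dT F C W k y)) := by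
  have h := avg_trunc F C W ⊥ k (PP y) hC hW ⟨∅, by simp⟩ (fun l hl => (mem_PP.1 hl).2) 0
  rw [dLr_dT] at h
  refine h.congr fun x => ?_
  congr 1
  funext p
  unfold G
  by_cases hg : gd F C W k (PP y) p
  · rw [if_pos hg, if_pos hg]
    have : (Tp ⊥ k (PP y) p).filter (fun l => l ≤ 0) = ∅ := by
      rw [Finset.filter_eq_empty_iff]
      intro l hl hl0
      unfold Tp at hl
      rw [Finset.mem_filter] at hl
      have h0 := hl.1
      unfold Sk at h0
      rw [Finset.mem_filter] at h0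
      have := (Nat.prime_of_mem_primeFactors h0.1).pos
      omega
    rw [this]
    unfold gT
    simp
  · rw [if_neg hg, if_neg hg]

/-- the group contains a number which is not `±` a root of unity -/
def Pos (W : Subgroup ℚˣ) : Prop := ∃ u ∈ W, |((u : ℚˣ) : ℚ)| ≠ 1

end

/-- a rational number `≠ 0, ±1` is not an `s`-th power for all primes `s` outside a finite set -/
lemma exists_r {u : ℚˣ} (hu : |((u : ℚˣ) : ℚ)| ≠ 1) : ∃ r : ℕ, 0 < r ∧
    ∀ s : ℕ, s.Prime → ¬ s ∣ r → ∀ c : ℚ, c ^ s ≠ (u : ℚ) := by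
  obtain ⟨p, hp, hv⟩ : ∃ p : ℕ, p.Prime ∧ padicValRat p (u : ℚ) ≠ 0 := by
    by_contra hcon
    push Not at hcon
    apply hu
    have hnum : (u : ℚ).num ≠ 0 := Rat.num_ne_zero.2 u.ne_zero
    have h1 : ∀ p : ℕ, p.Prime → ¬ p ∣ (u : ℚ).num.natAbs ∧ ¬ p ∣ (u : ℚ).den := by
      intro p hp
      have : Fact p.Prime := ⟨hp⟩
      have h2 := (un_iff (p := p) u.ne_zero).2 (hcon p hp)
      unfold Un at h2
      rw [Ne, Ne, ZMod.intCast_zmod_eq_zero_iff_dvd, ZMod.natCast_eq_zero_iff] at h2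
      exact ⟨fun h => h2.1 (Int.natCast_dvd.2 h), h2.2⟩
    have h3 : (u : ℚ).num.natAbs = 1 := by
      by_contra h
      obtain ⟨p, hp, hd⟩ := Nat.exists_prime_and_dvd h
      exact (h1 p hp).1 hd
    have h4 : (u : ℚ).den = 1 := by
      by_contra h
      obtain ⟨p, hp, hd⟩ := Nat.exists_prime_and_dvd h
      exact (h1 p hp).2 hd
    have h5 : (u : ℚ) = (u : ℚ).num := by
      conv_lhs => rw [← Rat.num_div_den (u : ℚ)]
      rw [h4]
      simp
    rw [h5, ← Int.cast_abs, Int.abs_eq_natAbs, h3]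
    simp
  have : Fact p.Prime := ⟨hp⟩
  refine ⟨(padicValRat p (u : ℚ)).natAbs, Int.natAbs_pos.2 hv, fun s hs hsr c hc => hsr ?_⟩
  have hc0 : c ≠ 0 := by
    rintro rfl
    rw [zero_pow hs.ne_zero] at hc
    exact u.ne_zero hc.symm
  rw [← Int.natCast_dvd, ← hc, padicValRat.pow]
  exact Dvd.intro _ rfl

section
variable (F : IntermediateField ℚ QA) [NumberField F] [IsGalois ℚ F] (C : Set Gal(F/ℚ))
  {W : Subgroup ℚˣ} (k : ℕ)

lemma tW_summable (hW : W.FG) (hP : Pos W) : Summable (tW F C W k) := by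
  obtain ⟨u, hu, hu1⟩ := hP
  obtain ⟨r, hr, hur⟩ := exists_r hu1
  exact Summable.of_norm_bounded (summable_bound.mul_left _) (tW_boundR F C k hW hu hr hur)

/-- the truncated densities converge to Lenstra's density -/
theorem dT_tendsto (hW : W.FG) (hP : Pos W) :
    Tendsto (dT F C W k) atTop (𝓝 (∑' n : ℕ, tW F C W k n)) := by
  classical
  have h := (tW_summable F C k hW hP).hasSum
  rw [Metric.tendsto_atTop]
  intro ε hε
  have h1 := (Metric.tendsto_nhds.1 h) ε hε
  obtain ⟨s, hs⟩ := (Filter.eventually_atTop.1 h1)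
  refine ⟨s.sup id, fun L hL => ?_⟩
  have h2 := hs (SL L ∪ s) subset_union_right
  have h3 : ∑ n ∈ SL L, tW F C W k n = ∑ n ∈ SL L ∪ s, tW F C W k n := by
    refine Finset.sum_subset subset_union_left fun n hn hn2 => ?_
    rw [Finset.mem_union] at hn
    have hns : n ∈ s := hn.resolve_left hn2
    have hnL : n ≤ L := (Finset.le_sup (f := id) hns).trans hL
    have hsq : ¬ Squarefree n := fun h => hn2 (mem_SL h hnL)
    unfold tW
    rw [ArithmeticFunction.moebius_eq_zero_of_not_squarefree hsq]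
    simp
  unfold dT
  rw [h3]
  exact h2

end

end Pool.Agent.Helper644_LA
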